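import Pool.Agent.Lib.MP_cb200a_pr.Arr

set_option autoImplicit false

open Finset
open scoped FinsetFamily

namespace Pool.Agent.Lib.MP_cb200a_pr.Chen

variable {m : ℕ}

/-- exactly `j` cells of the top row are among the first `K` cells -/
def Ev (K j : ℕ) (κ : Fin (m + 1) → ℕ) (a : Fin (m + 1) → ℕ → ℕ) : Prop :=
  j ≤ κ (Fin.last m) ∧ (∀ c, c + 1 = j → a (Fin.last m) c + c < K) ∧
    (j < κ (Fin.last m) → K ≤ a (Fin.last m) j + j)

/-- the same, and the second cell of the top row does not come as late as possible -/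
def Ev' (K j : ℕ) (κ : Fin (m + 1) → ℕ) (a : Fin (m + 1) → ℕ → ℕ) : Prop :=
  Ev K j κ a ∧ a (Fin.last m) 1 + j < K

theorem Good.first {b : ℕ} (hb : 0 < b) {a : Fin (m + 1) → ℕ → ℕ}
    (h : Good (fun _ => b) a) (i : Fin (m + 1)) : a i 0 = 0 := by
  induction i using Fin.induction with
  | zero =>
    have := h.bound 0 0
    have h2 : low (fun _ : Fin (m + 1) => b) 0 = 0 := by simp [low]
    omega
  | succ i ih =>
    have := h.col i.castSucc i.succ (by simp) 0 hb
    omega

/-- shift to the right -/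
def embA (a : Fin (m + 1) → ℕ → ℕ) : Fin (m + 1) → ℕ → ℕ :=
  fun i c => if c = 0 then 0 else a i (c - 1)

/-- shift upwards -/
def embB (b B : ℕ) (a : Fin (m + 1) → ℕ → ℕ) : Fin (m + 1) → ℕ → ℕ :=
  fun i c => if c < b then a i c + (m + 1 - i) else if c = b then B else 0

theorem embA_inj : Function.Injective (embA (m := m)) := by
  intro a a' e
  funext i c
  simpa [embA] using congrFun (congrFun e i) (c + 1)

theorem embB_inj {b B : ℕ} {a a' : Fin (m + 1) → ℕ → ℕ} (h : Good (fun _ => b) a)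
    (h' : Good (fun _ => b) a') (e : embB b B a = embB b B a') : a = a' := by
  funext i c
  by_cases hc : c < b
  · simpa [embB, hc] using congrFun (congrFun e i) c
  · rw [h.zero i c (by omega), h'.zero i c (by omega)]

theorem sup_case {b K j : ℕ} (hj : j + 2 ≤ b) {α β : Fin (m + 1) → ℕ → ℕ}
    (hα : Good (fun _ => b) α) (hβ : Good (fun _ => b) β)
    (eα : Ev K j (fun _ => b) α) (eβ : Ev K (j + 2) (fun _ => b) β) :
    ∃ δ, Good (fun _ => b) δ ∧ Ev' K (j + 1) (fun _ => b) δ ∧
      embA α ⊔ embB b (∑ _y : Fin (m + 1), b) β = embB b (∑ _y : Fin (m + 1), b) δ := by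
  have hbig : ∀ i c, α i c ≤ ∑ _y : Fin (m + 1), b := fun i c => by
    have := hα.bound i c
    have := low_add_le (fun _ : Fin (m + 1) => b) i
    omega
  refine ⟨fun i c => if c < b then max (embA α i c - (m + 1 - i)) (β i c) else 0,
    ⟨fun i c hc => ?_, fun i c hc => ?_, fun i c => ?_, fun i i' hi c hc => ?_⟩,
    ⟨⟨?_, fun c hc => ?_, fun _ => ?_⟩, ?_⟩, ?_⟩
  · rw [if_neg (by omega)]
  · rw [if_pos (by omega), if_pos hc]
    have h1 := hβ.mono i c hc
    have h2 := hα.mono' i (c := c - 1) (d := c) (by omega) (by omega)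
    simp only [embA, Nat.add_sub_cancel, Nat.add_eq_zero_iff, one_ne_zero, and_false, if_false]
    split_ifs <;> omega
  · have h1 := hβ.bound i c
    have h2 := hα.bound i (c - 1)
    simp only [embA]
    split_ifs <;> omega
  · have h1 := hβ.col i i' hi c hc
    have h2 := hα.col i i' hi (c - 1) (by omega)
    have h3 := i'.isLt
    simp only [embA, if_pos hc]
    split_ifs <;> omega
  · beta_reduce; omega
  · have h1 := eβ.2.1 (j + 1) rfl
    have h2 := eα.2.1 (j - 1)
    have h3 := hβ.mono (Fin.last m) j (by omega)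
    obtain rfl : c = j := by omega
    simp only [embA, Fin.val_last]
    split_ifs <;> omega
  · have h2 := eα.2.2 (by omega)
    simp only [embA, Fin.val_last, Nat.add_sub_cancel, Nat.add_eq_zero_iff, one_ne_zero, and_false,
      if_false]
    rw [if_pos (by omega)]
    omega
  · have h1 := eβ.2.1 (j + 1) rfl
    have h3 := hβ.mono' (Fin.last m) (c := 1) (d := j + 1) (by omega) (by omega)
    have h4 := hα.first (by omega) (Fin.last m)
    simp only [embA, Fin.val_last, Nat.sub_self]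
    split_ifs <;> omega
  · funext i c
    have h1 := hbig i (c - 1)
    have h2 := hα.zero i (c - 1)
    simp only [Pi.sup_apply, embA, embB] at h2 ⊢
    split_ifs <;> omega

theorem inf_case {b K j : ℕ} (hj : j + 2 ≤ b) (hK : K ≤ ∑ _y : Fin (m + 1), b)
    {α β : Fin (m + 1) → ℕ → ℕ}
    (hα : Good (fun _ => b) α) (hβ : Good (fun _ => b) β)
    (eα : Ev K j (fun _ => b) α) (eβ : Ev K (j + 2) (fun _ => b) β) :
    ∃ γ, Good (fun _ => b) γ ∧ Ev K (j + 1) (fun _ => b) γ ∧
      embA α ⊓ embB b (∑ _y : Fin (m + 1), b) β = embA γ := by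
  have hbig : ∀ i c, α i c ≤ ∑ _y : Fin (m + 1), b := fun i c => by
    have := hα.bound i c
    have := low_add_le (fun _ : Fin (m + 1) => b) i
    omega
  generalize (∑ _y : Fin (m + 1), b) = B at *
  refine ⟨fun i c => min (α i c) (embB b B β i (c + 1)),
    ⟨fun i c hc => ?_, fun i c hc => ?_, fun i c => ?_, fun i i' hi c hc => ?_⟩,
    ⟨?_, fun c hc => ?_, fun _ => ?_⟩, ?_⟩
  · rw [hα.zero i c hc]; simp
  · have h1 := hα.mono i c hc
    have h2 := hβ.mono i (c + 1)
    have h3 := hbig i c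
    simp only [embB] at h2 ⊢
    split_ifs <;> omega
  · exact (min_le_left _ _).trans (hα.bound i c)
  · have h1 := hα.col i i' hi c hc
    have h2 := hβ.col i i' hi (c + 1)
    have h3 := i'.isLt
    simp only [embB] at h2 ⊢
    split_ifs <;> omega
  · beta_reduce; omega
  · have h1 := eβ.2.1 (j + 1) rfl
    obtain rfl : c = j := by omega
    simp only [embB, Fin.val_last]
    split_ifs <;> omega
  · have h1 := eα.2.2 (by omega)
    have h2 := eβ.2.2
    have h3 := hα.mono (Fin.last m) j (by omega)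
    simp only [embB, Fin.val_last] at h2 ⊢
    simp only [add_assoc, Nat.reduceAdd]
    split_ifs <;> omega
  · funext i c
    simp only [Pi.inf_apply, embA]
    split_ifs with h
    · simp
    · rw [Nat.sub_add_cancel (by omega)]

theorem ad {b K j : ℕ} (hj : j + 2 ≤ b) (hK : K ≤ ∑ _y : Fin (m + 1), b) :
    cnt (Ev K j) (fun _ : Fin (m + 1) => b) * cnt (Ev K (j + 2)) (fun _ : Fin (m + 1) => b) ≤
      cnt (Ev K (j + 1)) (fun _ : Fin (m + 1) => b) *
        cnt (Ev' K (j + 1)) (fun _ : Fin (m + 1) => b) := by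
  classical
  have hf : ∀ Q : (Fin (m + 1) → ℕ) → (Fin (m + 1) → ℕ → ℕ) → Prop,
      {a | Good (fun _ : Fin (m + 1) => b) a ∧ Q (fun _ => b) a}.Finite :=
    fun Q => (good_finite _).subset fun a ha => ha.1
  set B := ∑ _y : Fin (m + 1), b with hB
  have hA : ∀ Q, cnt Q (fun _ : Fin (m + 1) => b) = #((hf Q).toFinset.image embA) := fun Q => by
    rw [Finset.card_image_of_injective _ embA_inj, cnt, Set.ncard_eq_toFinset_card _ (hf Q)]
  have hB' : ∀ Q, cnt Q (fun _ : Fin (m + 1) => b) = #((hf Q).toFinset.image (embB b B)) :=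
    fun Q => by
      rw [Finset.card_image_of_injOn, cnt, Set.ncard_eq_toFinset_card _ (hf Q)]
      intro a ha a' ha' e
      simp only [Set.Finite.coe_toFinset, Set.mem_ofPred_eq] at ha ha'
      exact embB_inj ha.1 ha'.1 e
  rw [hA (Ev K j), hB' (Ev K (j + 2)), hA (Ev K (j + 1)), hB' (Ev' K (j + 1))]
  refine (Finset.le_card_infs_mul_card_sups _ _).trans (Nat.mul_le_mul ?_ ?_)
  · refine Finset.card_le_card fun z hz => ?_
    obtain ⟨_, h1, _, h2, rfl⟩ := Finset.mem_infs.1 hz
    obtain ⟨α, hα, rfl⟩ := Finset.mem_image.1 h1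
    obtain ⟨β, hβ, rfl⟩ := Finset.mem_image.1 h2
    simp only [Set.Finite.mem_toFinset, Set.mem_ofPred_eq] at hα hβ
    obtain ⟨γ, g1, g2, g3⟩ := inf_case hj hK hα.1 hβ.1 hα.2 hβ.2
    exact Finset.mem_image.2 ⟨γ, (Set.Finite.mem_toFinset _).2 ⟨g1, g2⟩, g3.symm⟩
  · refine Finset.card_le_card fun z hz => ?_
    obtain ⟨_, h1, _, h2, rfl⟩ := Finset.mem_sups.1 hz
    obtain ⟨α, hα, rfl⟩ := Finset.mem_image.1 h1
    obtain ⟨β, hβ, rfl⟩ := Finset.mem_image.1 h2
    simp only [Set.Finite.mem_toFinset, Set.mem_ofPred_eq] at hα hβ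
    obtain ⟨δ, g1, g2, g3⟩ := sup_case hj hα.1 hβ.1 hα.2 hβ.2
    exact Finset.mem_image.2 ⟨δ, (Set.Finite.mem_toFinset _).2 ⟨g1, g2⟩, g3.symm⟩

end Pool.Agent.Lib.MP_cb200a_pr.Chen
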