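import Mathlib

set_option autoImplicit false

open Finset

namespace Pool.Agent.Lib.MP_cb200a_pr.Chen

variable {n : ℕ}

/-- number of cells in the rows below row `i` (rows are numbered from the bottom) -/
def low (κ : Fin n → ℕ) (i : Fin n) : ℕ := ∑ i' ∈ univ.filter (· < i), κ i'

/-- Arrays encoding standard fillings of the shape `κ`: `a i c` is the number of cells in rows
below `i` that are filled before the cell `(i, c)`. -/
structure Good (κ : Fin n → ℕ) (a : Fin n → ℕ → ℕ) : Prop where
  zero : ∀ i c, κ i ≤ c → a i c = 0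
  mono : ∀ i c, c + 1 < κ i → a i c ≤ a i (c + 1)
  bound : ∀ i c, a i c ≤ low κ i
  col : ∀ i i' : Fin n, i.val + 1 = i'.val → ∀ c, c < κ i → a i' c ≤ a i c + c

/-- remove a cell in row `x` -/
def dn (κ : Fin n → ℕ) (x : Fin n) : Fin n → ℕ := Function.update κ x (κ x - 1)

/-- add a cell in row `x` -/
def up (κ : Fin n → ℕ) (x : Fin n) : Fin n → ℕ := Function.update κ x (κ x + 1)

/-- the cell at the end of row `x` can be removed -/
def Valid (κ : Fin n → ℕ) (x : Fin n) : Prop := 0 < κ x ∧ Monotone (dn κ x)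

/-- the last cell of row `x` is filled last -/
def Last (κ : Fin n → ℕ) (a : Fin n → ℕ → ℕ) (x : Fin n) : Prop :=
  0 < κ x ∧ a x (κ x - 1) = low κ x ∧ ∀ y, x < y → 0 < κ y → a y (κ y - 1) < low κ y

/-- change one entry -/
def put (a : Fin n → ℕ → ℕ) (x : Fin n) (c v : ℕ) : Fin n → ℕ → ℕ :=
  fun i d => if i = x ∧ d = c then v else a i d

theorem dn_self (κ : Fin n → ℕ) (x : Fin n) : dn κ x x = κ x - 1 := by simp [dn]

theorem dn_ne (κ : Fin n → ℕ) {x y : Fin n} (h : y ≠ x) : dn κ x y = κ y := by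
  simp [dn, Function.update_of_ne h]

theorem up_self (κ : Fin n → ℕ) (x : Fin n) : up κ x x = κ x + 1 := by simp [up]

theorem up_ne (κ : Fin n → ℕ) {x y : Fin n} (h : y ≠ x) : up κ x y = κ y := by
  simp [up, Function.update_of_ne h]

theorem dn_le (κ : Fin n → ℕ) (x y : Fin n) : dn κ x y ≤ κ y := by
  by_cases h : y = x
  · subst h; rw [dn_self]; omega
  · rw [dn_ne κ h]

theorem dn_up (κ : Fin n → ℕ) (x : Fin n) : dn (up κ x) x = κ := by
  funext y
  by_cases h : y = x
  · subst h; rw [dn_self, up_self]; omega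
  · rw [dn_ne _ h, up_ne _ h]

theorem up_dn {κ : Fin n → ℕ} {x : Fin n} (h0 : 0 < κ x) : up (dn κ x) x = κ := by
  funext y
  by_cases h : y = x
  · subst h; rw [up_self, dn_self]; omega
  · rw [up_ne _ h, dn_ne _ h]

theorem low_dn_le (κ : Fin n → ℕ) {x y : Fin n} (h : y ≤ x) : low (dn κ x) y = low κ y := by
  refine Finset.sum_congr rfl fun i hi => dn_ne κ ?_
  rw [mem_filter] at hi
  exact ne_of_lt (lt_of_lt_of_le hi.2 h)

theorem low_dn_gt {κ : Fin n → ℕ} {x y : Fin n} (h0 : 0 < κ x) (h : x < y) :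
    low (dn κ x) y + 1 = low κ y := by
  have hx : x ∈ univ.filter (· < y) := by simp [h]
  unfold low
  rw [← Finset.add_sum_erase _ _ hx, ← Finset.add_sum_erase _ κ hx, dn_self,
    Finset.sum_congr rfl fun i hi => dn_ne κ (Finset.ne_of_mem_erase hi)]
  omega

theorem low_dn_le' (κ : Fin n → ℕ) (x y : Fin n) : low (dn κ x) y ≤ low κ y :=
  Finset.sum_le_sum fun i _ => dn_le κ x i

theorem low_succ (κ : Fin n → ℕ) {i i' : Fin n} (h : i.val + 1 = i'.val) :
    low κ i' = low κ i + κ i := by
  have : univ.filter (· < i') = insert i (univ.filter (· < i)) := by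
    ext y
    simp only [mem_filter, mem_univ, true_and, mem_insert, Fin.lt_def, Fin.ext_iff]
    omega
  unfold low
  rw [this, Finset.sum_insert (by simp), add_comm]

theorem low_add_le (κ : Fin n → ℕ) (i : Fin n) : low κ i + κ i ≤ ∑ y, κ y := by
  unfold low
  rw [add_comm, ← Finset.sum_insert (by simp)]
  exact Finset.sum_le_sum_of_subset (subset_univ _)

theorem Good.mono' {κ : Fin n → ℕ} {a : Fin n → ℕ → ℕ} (h : Good κ a) (i : Fin n) {c d : ℕ}
    (hcd : c ≤ d) (hd : d < κ i) : a i c ≤ a i d := by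
  induction d, hcd using Nat.le_induction with
  | base => exact le_rfl
  | succ d _ ih => exact (ih (by omega)).trans (h.mono i d hd)

theorem good_finite (κ : Fin n → ℕ) : {a | Good κ a}.Finite := by
  set B := ∑ y, κ y with hB
  have hf : {f : ℕ → ℕ | (∀ c, B ≤ c → f c = 0) ∧ ∀ c, f c ≤ B}.Finite := by
    refine Set.Finite.of_finite_image (f := fun f => fun c : Fin B => f c) ?_ ?_
    · refine (Set.Finite.pi' (fun _ : Fin B => Set.finite_Iic B)).subset ?_
      rintro _ ⟨f, hf, rfl⟩ c
      exact hf.2 c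
    · intro f hf g hg e
      funext c
      by_cases hc : c < B
      · exact congrFun e ⟨c, hc⟩
      · rw [hf.1 c (by omega), hg.1 c (by omega)]
  refine (Set.Finite.pi' (fun _ : Fin n => hf)).subset fun a ha i => ⟨fun c hc => ?_, fun c => ?_⟩
  · have := low_add_le κ i
    exact ha.zero i c (by omega)
  · have := low_add_le κ i
    have := ha.bound i c
    omega

theorem exists_last {κ : Fin n → ℕ} {a : Fin n → ℕ → ℕ} (h : Good κ a) (h0 : ∃ x, 0 < κ x) :
    ∃ x, Last κ a x := by
  obtain ⟨y, hy, hmin⟩ := Finset.exists_min_image (univ.filter fun x => 0 < κ x) id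
    (by obtain ⟨x, hx⟩ := h0; exact ⟨x, by simp [hx]⟩)
  simp only [mem_filter, mem_univ, true_and, id] at hy hmin
  have hl : low κ y = 0 := Finset.sum_eq_zero fun i hi => by
    rw [mem_filter] at hi
    by_contra hne
    exact absurd (hmin i (by omega)) (not_le.2 hi.2)
  obtain ⟨x, hx, hmax⟩ := Finset.exists_max_image
    (univ.filter fun x => 0 < κ x ∧ a x (κ x - 1) = low κ x) id
    ⟨y, by have := h.bound y (κ y - 1); simp only [mem_filter, mem_univ, true_and]; omega⟩
  simp only [mem_filter, mem_univ, true_and, id] at hx hmax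
  refine ⟨x, hx.1, hx.2, fun z hz hz0 => ?_⟩
  have := h.bound z (κ z - 1)
  by_contra hne
  exact absurd (hmax z ⟨hz0, by omega⟩) (not_le.2 hz)

theorem last_unique {κ : Fin n → ℕ} {a : Fin n → ℕ → ℕ} {x y : Fin n} (hx : Last κ a x)
    (hy : Last κ a y) : x = y := by
  rcases lt_trichotomy x y with h | h | h
  · have := hx.2.2 y h hy.1; have := hy.2.1; omega
  · exact h
  · have := hy.2.2 x h hx.1; have := hx.2.1; omega

theorem valid_of_last {κ : Fin n → ℕ} {a : Fin n → ℕ → ℕ} {x : Fin n} (hκ : Monotone κ)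
    (h : Good κ a) (hx : Last κ a x) : Valid κ x := by
  refine ⟨hx.1, fun y z hyz => ?_⟩
  by_cases hz : z = x
  · subst hz
    rcases eq_or_lt_of_le hyz with e | e
    · rw [e]
    · rw [dn_self, dn_ne κ (ne_of_lt e)]
      have hz1 : z.val - 1 < n := by omega
      have e' : y.val < z.val := e
      have h1 : κ y ≤ κ ⟨z.val - 1, hz1⟩ := hκ (by rw [Fin.le_def]; simp only; omega)
      have h2 := low_succ κ (i := ⟨z.val - 1, hz1⟩) (i' := z) (by simp only; omega)
      have h3 := h.col ⟨z.val - 1, hz1⟩ z (by simp only; omega) (κ z - 1)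
      have h4 := h.bound ⟨z.val - 1, hz1⟩ (κ z - 1)
      have h5 := hx.2.1
      have h6 := hx.1
      by_contra hne
      have := h3 (by omega)
      omega
  · rw [dn_ne κ hz]
    exact (dn_le κ x y).trans (hκ hyz)

theorem good_remove {κ : Fin n → ℕ} {a : Fin n → ℕ → ℕ} {x : Fin n}
    (h : Good κ a) (hx : Last κ a x) : Good (dn κ x) (put a x (κ x - 1) 0) := by
  refine ⟨fun i c hc => ?_, fun i c hc => ?_, fun i c => ?_, fun i i' hi c hc => ?_⟩
  · unfold put
    split_ifs with h1
    · rfl
    · by_cases hi : i = x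
      · subst hi
        rw [dn_self] at hc
        exact h.zero i c (by have : c ≠ κ i - 1 := fun e => h1 ⟨rfl, e⟩; omega)
      · rw [dn_ne κ hi] at hc; exact h.zero i c hc
  · have h2 := h.mono i c (lt_of_lt_of_le hc (dn_le κ x i))
    unfold put
    split_ifs with h1 h3 h3
    · exact le_rfl
    · exact Nat.zero_le _
    · obtain ⟨rfl, h4⟩ := h3
      rw [dn_self] at hc; omega
    · exact h2
  · unfold put
    split_ifs with h1
    · exact Nat.zero_le _
    · rcases le_or_gt i x with hi | hi
      · rw [low_dn_le κ hi]; exact h.bound i c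
      · have h2 := low_dn_gt hx.1 hi
        by_cases hc : c < κ i
        · have := h.mono' i (c := c) (d := κ i - 1) (by omega) (by omega)
          have := hx.2.2 i hi (by omega)
          omega
        · rw [h.zero i c (by omega)]; exact Nat.zero_le _
  · have h2 := h.col i i' hi c (lt_of_lt_of_le hc (dn_le κ x i))
    unfold put
    split_ifs with h1 h3 h3
    · exact Nat.zero_le _
    · exact Nat.zero_le _
    · obtain ⟨rfl, h4⟩ := h3
      rw [dn_self] at hc; omega
    · exact h2

theorem good_add {κ : Fin n → ℕ} {a : Fin n → ℕ → ℕ} {x : Fin n} (hv : Valid κ x)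
    (h : Good (dn κ x) a) :
    Good κ (put a x (κ x - 1) (low κ x)) ∧ Last κ (put a x (κ x - 1) (low κ x)) x := by
  have h0 := hv.1
  refine ⟨⟨fun i c hc => ?_, fun i c hc => ?_, fun i c => ?_, fun i i' hi c hc => ?_⟩,
    h0, by simp [put], fun y hy hy0 => ?_⟩
  · unfold put
    split_ifs with h1
    · obtain ⟨rfl, h4⟩ := h1; omega
    · exact h.zero i c ((dn_le κ x i).trans hc)
  · unfold put
    split_ifs with h1 h3 h3
    · exact le_rfl
    · obtain ⟨rfl, h4⟩ := h1; omega
    · obtain ⟨rfl, h4⟩ := h3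
      rw [← low_dn_le κ (le_refl i)]; exact h.bound i c
    · refine h.mono i c ?_
      by_cases hi : i = x
      · subst hi
        rw [dn_self]
        have : c + 1 ≠ κ i - 1 := fun e => h3 ⟨rfl, e⟩
        omega
      · rw [dn_ne κ hi]; exact hc
  · unfold put
    split_ifs with h1
    · rw [h1.1]
    · exact (h.bound i c).trans (low_dn_le' κ x i)
  · have hlt : i < i' := by rw [Fin.lt_def]; omega
    unfold put
    split_ifs with h1 h3 h3
    · exact absurd (h3.1.trans h1.1.symm) (ne_of_lt hlt)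
    · obtain ⟨rfl, h4⟩ := h1
      have := hv.2 hlt.le
      rw [dn_self, dn_ne κ (ne_of_lt hlt)] at this
      omega
    · obtain ⟨rfl, h4⟩ := h3
      have h5 := h.bound i' c
      have h6 := low_dn_gt h0 hlt
      have h7 := low_succ κ hi
      omega
    · refine h.col i i' hi c ?_
      by_cases hi : i = x
      · subst hi
        rw [dn_self]
        have : c ≠ κ i - 1 := fun e => h3 ⟨rfl, e⟩
        omega
      · rw [dn_ne κ hi]; exact hc
  · have h5 := h.bound y (κ y - 1)
    have h6 := low_dn_gt h0 hy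
    unfold put
    rw [if_neg (fun e => absurd e.1 (ne_of_gt hy))]
    omega

/-- number of arrays with property `Q` -/
noncomputable def cnt (Q : (Fin n → ℕ) → (Fin n → ℕ → ℕ) → Prop) (κ : Fin n → ℕ) : ℕ :=
  {a | Good κ a ∧ Q κ a}.ncard

open Classical in
theorem cnt_rec (Q : (Fin n → ℕ) → (Fin n → ℕ → ℕ) → Prop) {κ : Fin n → ℕ} (hκ : Monotone κ)
    (h0 : ∃ x, 0 < κ x)
    (hQ : ∀ x a, Valid κ x → Good (dn κ x) a →
      (Q κ (put a x (κ x - 1) (low κ x)) ↔ Q (dn κ x) a)) :
    cnt Q κ = ∑ x, if Valid κ x then cnt Q (dn κ x) else 0 := by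
  have hfin : {a | Good κ a ∧ Q κ a}.Finite := (good_finite κ).subset fun a ha => ha.1
  have e1 : hfin.toFinset = univ.biUnion fun x => hfin.toFinset.filter fun a => Last κ a x := by
    ext a
    simp only [mem_biUnion, mem_univ, true_and, mem_filter]
    constructor
    · intro ha
      obtain ⟨x, hx⟩ := exists_last ((Set.Finite.mem_toFinset _).1 ha).1 h0
      exact ⟨x, ha, hx⟩
    · rintro ⟨x, ha, -⟩; exact ha
  unfold cnt
  rw [Set.ncard_eq_toFinset_card _ hfin, e1, Finset.card_biUnion]
  · refine Finset.sum_congr rfl fun x _ => ?_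
    rw [← Set.ncard_coe_finset]
    split_ifs with hv
    · symm
      refine Set.ncard_congr (fun a _ => put a x (κ x - 1) (low κ x)) ?_ ?_ ?_
      · intro a ha
        obtain ⟨h1, h2⟩ := good_add hv ha.1
        simp only [coe_filter, Set.Finite.mem_toFinset, Set.mem_ofPred_eq]
        exact ⟨⟨h1, (hQ x a hv ha.1).2 ha.2⟩, h2⟩
      · intro a a' ha ha' e
        funext i c
        by_cases h1 : i = x ∧ c = κ x - 1
        · obtain ⟨rfl, rfl⟩ := h1
          rw [ha.1.zero i _ (by rw [dn_self]), ha'.1.zero i _ (by rw [dn_self])]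
        · have := congrFun (congrFun e i) c
          simpa only [put, if_neg h1] using this
      · intro a ha
        simp only [coe_filter, Set.Finite.mem_toFinset, Set.mem_ofPred_eq] at ha
        obtain ⟨⟨h1, h2⟩, h3⟩ := ha
        have h4 := good_remove h1 h3
        have e : put (put a x (κ x - 1) 0) x (κ x - 1) (low κ x) = a := by
          funext i c
          unfold put
          split_ifs with h5
          · obtain ⟨rfl, rfl⟩ := h5; exact h3.2.1.symm
          · rfl
        exact ⟨put a x (κ x - 1) 0, ⟨h4, (hQ x _ hv h4).1 (by rw [e]; exact h2)⟩, e⟩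
    · rw [Set.ncard_eq_zero (Finset.finite_toSet _)]
      ext a
      simp only [coe_filter, Set.Finite.mem_toFinset, Set.mem_ofPred_eq, Set.mem_empty_iff_false,
        iff_false]
      rintro ⟨⟨h1, -⟩, h3⟩
      exact hv (valid_of_last hκ h1 h3)
  · intro x _ y _ hxy
    refine Finset.disjoint_left.2 fun a h1 h2 => hxy ?_
    exact last_unique (mem_filter.1 h1).2 (mem_filter.1 h2).2

theorem cnt_zero : cnt (fun _ _ => True) (0 : Fin n → ℕ) = 1 := by
  unfold cnt
  rw [Set.ncard_eq_one]
  refine ⟨0, ?_⟩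
  ext a
  simp only [and_true, Set.mem_ofPred_eq, Set.mem_singleton_iff]
  constructor
  · intro h; funext i c; exact h.zero i c (by simp)
  · rintro rfl
    exact ⟨fun _ _ _ => rfl, fun _ _ _ => le_rfl, fun _ _ => Nat.zero_le _,
      fun _ _ _ _ _ => Nat.zero_le _⟩

end Pool.Agent.Lib.MP_cb200a_pr.Chen
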