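import Pool.Agent.Lib.MP_cb200a_pr.Weights

set_option autoImplicit false

open Finset

namespace Pool.Agent.Lib.MP_cb200a_pr

noncomputable def Tt (N k s a : ℕ) : ℝ := TT k (N - s) (kap N s) a

noncomputable def Rr (N k s a : ℕ) : ℝ := RR k ((N - s : ℕ) : ℝ) (kap N s) a

noncomputable def WW (N k : ℕ) (c : ℕ → ℝ) (b : ℕ) : ℝ :=
  ∑ s ∈ range (b + 1), c s * Tt N k s (b - s)

theorem kap_ge (N s : ℕ) : (N : ℝ) ^ 2 ≤ kap N s := by
  unfold kap; have : (0 : ℝ) ≤ s := Nat.cast_nonneg s; linarith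

theorem kap_succ (N s : ℕ) : kap N (s + 1) = kap N s + 2 := by unfold kap; push_cast; ring

theorem cast_sub_le (N s : ℕ) : ((N - s : ℕ) : ℝ) ≤ N := by exact_mod_cast Nat.sub_le N s

section
variable {N k J : ℕ} (hk : k ≤ N) (hJ : 16 ≤ J) (hJ2 : 16 * k ≤ J ^ 2)
include hk hJ hJ2

theorem Tt_ratio (s a : ℕ) (ha : a + J ≤ k) : Tt N k s a = Tt N k s (a + 1) * Rr N k s a :=
  TT_ratio (J := J) (cast_sub_le N s) (by exact_mod_cast hk) (kap_ge N s)
    (by exact_mod_cast (by omega : 1 ≤ J)) (by exact_mod_cast hJ2) a (by exact_mod_cast ha)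

theorem Rr_pos (s a : ℕ) (ha : a + J ≤ k) : 0 < Rr N k s a :=
  RR_pos (J := J) (Nat.cast_nonneg _) (cast_sub_le N s) (by exact_mod_cast hk) (kap_ge N s)
    (by exact_mod_cast (by omega : 1 ≤ J)) (by exact_mod_cast hJ2) a (by exact_mod_cast ha)

theorem Tt_pow (b : ℕ) (hb : b + J ≤ k + 1) (s : ℕ) (hs : s ≤ b) :
    Tt N k s (b - s) ≤ (3 / 20) ^ s * Tt N k 0 b := by
  induction s with
  | zero => simp
  | succ s ih =>
    have h := TT_step (k := k) (l := N - (s + 1)) (κ := kap N s) (N := N) (J := J)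
      (by exact_mod_cast (by omega : N - (s + 1) + 1 ≤ N)) (by exact_mod_cast hk) (kap_ge N s)
      (by exact_mod_cast hJ) (by exact_mod_cast hJ2) (b - (s + 1))
      (by exact_mod_cast (by omega : b - (s + 1) + J ≤ k))
    rw [← kap_succ, show N - (s + 1) + 1 = N - s by omega,
      show b - (s + 1) + 1 = b - s by omega] at h
    have := ih (by omega)
    unfold Tt at this ⊢
    rw [pow_succ]
    linarith

theorem Rr_le (b : ℕ) (hb : b + J ≤ k) (s : ℕ) (hs : s ≤ b) : Rr N k s (b - s) ≤ Rr N k 0 b := by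
  induction s with
  | zero => simp
  | succ s ih =>
    have h := RR_step_le (k := k) (l := ((N - s : ℕ) : ℝ)) (κ := kap N s) (N := N) (J := J)
      (by exact_mod_cast (by omega : 1 ≤ N - s)) (cast_sub_le N s) (by exact_mod_cast hk)
      (kap_ge N s) (by exact_mod_cast (by omega : 1 ≤ J)) (by exact_mod_cast hJ2) (b - (s + 1))
      (by exact_mod_cast (by omega : b - (s + 1) + 1 + J ≤ k))
    have e : ((N - s : ℕ) : ℝ) - 1 = ((N - (s + 1) : ℕ) : ℝ) := by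
      rw [show N - s = N - (s + 1) + 1 by omega]; push_cast; ring
    rw [← kap_succ, e, show b - (s + 1) + 1 = b - s by omega] at h
    exact h.trans (ih (by omega))

theorem Rr_ge (b : ℕ) (hb : b + J ≤ k) (s : ℕ) (hs : s ≤ b) :
    Rr N k 0 b / ((b : ℝ) + 1) * (1 - s * (31 / 10 / J)) ≤ Rr N k s (b - s) / ((b : ℝ) - s + 1) := by
  induction s with
  | zero => simp
  | succ s ih =>
    have h := RR_step_ge (k := k) (l := ((N - s : ℕ) : ℝ)) (κ := kap N s) (N := N) (J := J)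
      (by exact_mod_cast (by omega : 1 ≤ N - s)) (cast_sub_le N s) (by exact_mod_cast hk)
      (kap_ge N s) (by exact_mod_cast hJ) (by exact_mod_cast hJ2) (b - (s + 1))
      (by exact_mod_cast (by omega : b - (s + 1) + 1 + J ≤ k))
    have e : ((N - s : ℕ) : ℝ) - 1 = ((N - (s + 1) : ℕ) : ℝ) := by
      rw [show N - s = N - (s + 1) + 1 by omega]; push_cast; ring
    rw [← kap_succ, e, show b - (s + 1) + 1 = b - s by omega, Nat.cast_sub hs] at h
    push_cast at h ⊢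
    rw [show (b : ℝ) - (s + 1) + 2 = b - s + 1 by ring] at h
    refine le_trans ?_ h
    have hJ' : (16 : ℝ) ≤ J := by exact_mod_cast hJ
    have he0 : (0 : ℝ) ≤ 31 / 10 / J := by positivity
    have he1 : (31 / 10 / J : ℝ) ≤ 1 := by rw [div_le_one (by linarith)]; linarith
    have hR : 0 ≤ Rr N k 0 b / ((b : ℝ) + 1) :=
      div_nonneg (Rr_pos hk hJ hJ2 0 b hb).le (by positivity)
    have hs0 : (0 : ℝ) ≤ s := Nat.cast_nonneg s
    generalize (31 / 10 / J : ℝ) = e at *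
    calc _ ≤ Rr N k 0 b / ((b : ℝ) + 1) * ((1 - s * e) * (1 - e)) := by
          apply mul_le_mul_of_nonneg_left _ hR
          nlinarith [mul_nonneg hs0 (mul_nonneg he0 he0)]
      _ = Rr N k 0 b / ((b : ℝ) + 1) * (1 - s * e) * (1 - e) := by ring
      _ ≤ _ := mul_le_mul_of_nonneg_right (ih (by omega)) (by linarith)

theorem Rr_ge' (b : ℕ) (hb : b + J ≤ k) (s : ℕ) (hs : s ≤ b) :
    Rr N k 0 b - Rr N k s (b - s) ≤ Rr N k 0 b * (s * (1 / ((b : ℝ) + 1) + 31 / 10 / J)) := by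
  have h := Rr_ge hk hJ hJ2 b hb s hs
  have hs' : (s : ℝ) ≤ b := by exact_mod_cast hs
  have hs0 : (0 : ℝ) ≤ s := Nat.cast_nonneg s
  have hR := (Rr_pos hk hJ hJ2 0 b hb).le
  rw [le_div_iff₀ (by linarith)] at h
  have he0 : (0 : ℝ) ≤ 31 / 10 / J := by positivity
  generalize (31 / 10 / J : ℝ) = e at *
  have e1 : Rr N k 0 b / ((b : ℝ) + 1) * (1 - s * e) * (b - s + 1) =
      Rr N k 0 b * ((1 - s * e) * (1 - s * (1 / ((b : ℝ) + 1)))) := by field_simp; ring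
  rw [e1] at h
  have hx : (0 : ℝ) ≤ 1 / ((b : ℝ) + 1) := by positivity
  generalize (1 / ((b : ℝ) + 1) : ℝ) = x at *
  have : Rr N k 0 b * (1 - s * (x + e)) ≤ Rr N k 0 b * ((1 - s * e) * (1 - s * x)) := by
    apply mul_le_mul_of_nonneg_left _ hR
    nlinarith [mul_nonneg (mul_nonneg hs0 he0) (mul_nonneg hs0 hx)]
  nlinarith

end

theorem geo1 (n : ℕ) : ∑ s ∈ range n, (3 / 20 : ℝ) ^ s + (3 / 20) ^ n * (20 / 17) = 20 / 17 := by
  induction n with
  | zero => simp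
  | succ n ih => rw [Finset.sum_range_succ, pow_succ]; linarith

theorem geo2 (n : ℕ) : ∑ s ∈ range n, (s : ℝ) * (3 / 20 : ℝ) ^ s +
    (3 / 20) ^ n * (n * (20 / 17) + 60 / 289) = 60 / 289 := by
  induction n with
  | zero => simp
  | succ n ih => rw [Finset.sum_range_succ, pow_succ]; push_cast; linarith

theorem Tt_nonneg {N : ℕ} (hN : 0 < N) (k s a : ℕ) : 0 ≤ Tt N k s a := TT_nonneg (kap_pos hN s) a

section
variable {N k J : ℕ} (hk : k ≤ N) (hJ : 16 ≤ J) (hJ2 : 16 * k ≤ J ^ 2) {c : ℕ → ℝ}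
  (hc : ∀ s ≤ N, 0 ≤ c s ∧ c s ≤ c 0)
include hc

theorem WW_ge (hN : 0 < N) (b : ℕ) (hb : b ≤ N) : c 0 * Tt N k 0 b ≤ WW N k c b := by
  unfold WW
  have := Finset.single_le_sum (f := fun s => c s * Tt N k s (b - s)) (s := range (b + 1))
    (fun s hs => mul_nonneg (hc s (by have := mem_range.1 hs; omega)).1 (Tt_nonneg hN _ _ _))
    (a := 0) (by simp)
  simpa using this

include hk hJ hJ2

theorem WW_le (b : ℕ) (hb : b + J ≤ k + 1) : WW N k c b ≤ 20 / 17 * (c 0 * Tt N k 0 b) := by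
  have hN : 0 < N := by omega
  have h0 := mul_nonneg (hc 0 (Nat.zero_le _)).1 (Tt_nonneg hN k 0 b)
  calc WW N k c b ≤ ∑ s ∈ range (b + 1), (3 / 20 : ℝ) ^ s * (c 0 * Tt N k 0 b) := by
        refine Finset.sum_le_sum fun s hs => ?_
        have hs' : s ≤ b := by have := mem_range.1 hs; omega
        rw [mul_left_comm]
        exact mul_le_mul (hc s (by omega)).2 (Tt_pow hk hJ hJ2 b hb s hs') (Tt_nonneg hN _ _ _)
          (hc 0 (Nat.zero_le _)).1
    _ ≤ _ := by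
        rw [← Finset.sum_mul]
        apply mul_le_mul_of_nonneg_right _ h0
        have := geo1 (b + 1)
        have : (0 : ℝ) ≤ (3 / 20) ^ (b + 1) * (20 / 17) := by positivity
        linarith

theorem WW_A (b : ℕ) (hb : b + J ≤ k) : WW N k c b ≤ Rr N k 0 b * WW N k c (b + 1) := by
  have hN : 0 < N := by omega
  have hR := (Rr_pos hk hJ hJ2 0 b hb).le
  unfold WW
  rw [Finset.sum_range_succ _ (b + 1), mul_add, Finset.mul_sum]
  have h1 : 0 ≤ Rr N k 0 b * (c (b + 1) * Tt N k (b + 1) (b + 1 - (b + 1))) :=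
    mul_nonneg hR (mul_nonneg (hc _ (by omega)).1 (Tt_nonneg hN _ _ _))
  refine le_trans (Finset.sum_le_sum fun s hs => ?_) (le_add_of_nonneg_right h1)
  have hs' : s ≤ b := by have := mem_range.1 hs; omega
  rw [Tt_ratio hk hJ hJ2 s (b - s) (by omega), show b - s + 1 = b + 1 - s by omega, ← mul_assoc,
    mul_comm (Rr N k 0 b)]
  exact mul_le_mul_of_nonneg_left (Rr_le hk hJ hJ2 b hb s hs')
    (mul_nonneg (hc s (by omega)).1 (Tt_nonneg hN _ _ _))

theorem WW_B (b : ℕ) (hb : b + J ≤ k) : Rr N k 0 b * WW N k c (b + 1) ≤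
    WW N k c b * (1 + 60 / 289 * (1 / ((b : ℝ) + 1) + 31 / 10 / J)) := by
  have hN : 0 < N := by omega
  have hR := (Rr_pos hk hJ hJ2 0 b hb).le
  have hc0 := (hc 0 (Nat.zero_le _)).1
  set e : ℝ := 1 / ((b : ℝ) + 1) + 31 / 10 / J with he
  have he0 : 0 ≤ e := by positivity
  have hT0 := Tt_nonneg hN k 0 (b + 1)
  have key : ∀ s ∈ range (b + 1 + 1), Rr N k 0 b * (c s * Tt N k s (b + 1 - s)) ≤
      (if s ≤ b then c s * Tt N k s (b - s) else 0) +
        (s : ℝ) * (3 / 20 : ℝ) ^ s * (c 0 * Tt N k 0 b * e) := by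
    intro s hs
    have hs' : s ≤ b + 1 := by have := mem_range.1 hs; omega
    have h1 : c s * Tt N k s (b + 1 - s) ≤ c 0 * ((3 / 20) ^ s * Tt N k 0 (b + 1)) :=
      mul_le_mul (hc s (by omega)).2 (Tt_pow hk hJ hJ2 (b + 1) (by omega) s hs')
        (Tt_nonneg hN _ _ _) hc0
    have h0 : 0 ≤ c s * Tt N k s (b + 1 - s) := mul_nonneg (hc s (by omega)).1 (Tt_nonneg hN _ _ _)
    have h2 : (s : ℝ) * (3 / 20 : ℝ) ^ s * (c 0 * Tt N k 0 b * e) =
        c 0 * ((3 / 20) ^ s * Tt N k 0 (b + 1)) * (Rr N k 0 b * (s * e)) := by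
      rw [Tt_ratio hk hJ hJ2 0 b hb]; ring
    have h3 : c s * Tt N k s (b + 1 - s) * (Rr N k 0 b * (s * e)) ≤
        c 0 * ((3 / 20) ^ s * Tt N k 0 (b + 1)) * (Rr N k 0 b * (s * e)) :=
      mul_le_mul_of_nonneg_right h1 (by positivity)
    rw [h2]
    split_ifs with h
    · have h4 := mul_le_mul_of_nonneg_left (Rr_ge' hk hJ hJ2 b hb s h) h0
      rw [Tt_ratio hk hJ hJ2 s (b - s) (by omega), show b - s + 1 = b + 1 - s by omega]
      nlinarith
    · obtain rfl : s = b + 1 := by omega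
      have h5 : 1 ≤ ((b + 1 : ℕ) : ℝ) * e := by
        push_cast
        rw [he, mul_add, mul_one_div_cancel (by positivity)]
        have : 0 ≤ ((b : ℝ) + 1) * (31 / 10 / J) := by positivity
        linarith
      have h6 := mul_le_mul_of_nonneg_left h5 (mul_nonneg h0 hR)
      nlinarith
  have h7 : ∑ s ∈ range (b + 1 + 1), (if s ≤ b then c s * Tt N k s (b - s) else 0) = WW N k c b := by
    rw [Finset.sum_range_succ, if_neg (by omega), add_zero]
    exact Finset.sum_congr rfl fun s hs => if_pos (by have := mem_range.1 hs; omega)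
  have h8 := Finset.sum_le_sum key
  rw [Finset.sum_add_distrib, h7, ← Finset.sum_mul, ← Finset.mul_sum] at h8
  have h9 : ∑ s ∈ range (b + 1 + 1), (s : ℝ) * (3 / 20 : ℝ) ^ s ≤ 60 / 289 := by
    have := geo2 (b + 1 + 1)
    have : (0 : ℝ) ≤ (3 / 20) ^ (b + 1 + 1) * (((b + 1 + 1 : ℕ) : ℝ) * (20 / 17) + 60 / 289) := by
      positivity
    linarith
  have h10 := WW_ge (k := k) hc hN b (by omega)
  have h11 : 0 ≤ c 0 * Tt N k 0 b := mul_nonneg hc0 (Tt_nonneg hN _ _ _)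
  calc _ ≤ _ := h8
    _ ≤ WW N k c b + 60 / 289 * (WW N k c b * e) := by gcongr
    _ = _ := by ring

theorem WW_conc (b : ℕ) (hb : b + 1 + J = k) :
    WW N k c b * WW N k c (b + 2) ≤ (1 - 1 / 4 / (J : ℝ)) * WW N k c (b + 1) ^ 2 := by
  have hN : 0 < N := by omega
  have hnn : ∀ a ≤ N, 0 ≤ WW N k c a := fun a ha =>
    le_trans (mul_nonneg (hc 0 (Nat.zero_le _)).1 (Tt_nonneg hN _ _ _)) (WW_ge hc hN a ha)
  have hA := WW_A hk hJ hJ2 hc b (by omega)
  have hB := WW_B hk hJ hJ2 hc (b + 1) (by omega)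
  have hM := RR_margin (k := k) (κ := kap N 0) (N := N) (J := J) (by exact_mod_cast hk)
    (kap_ge N 0) (by exact_mod_cast hJ) (by exact_mod_cast hJ2) b (by exact_mod_cast hb)
  have hR : ∀ a, RR k N (kap N 0) a = Rr N k 0 a := fun a => by simp [Rr]
  rw [hR, hR] at hM
  have h1 := hnn (b + 1) (by omega)
  have h2 := hnn (b + 2) (by omega)
  have hJ' : (16 : ℝ) ≤ J := by exact_mod_cast hJ
  have hb0 : (0 : ℝ) ≤ b := Nat.cast_nonneg b
  push_cast at hB
  have ex : (9 / 10 / ((b : ℝ) + 2)) = 9 / 10 * (1 / ((b : ℝ) + 1 + 1)) := by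
    rw [add_assoc, one_add_one_eq_two]; ring
  have ey : (9 / 10 / (J : ℝ)) = 9 / 10 * (1 / J) := by ring
  have ey2 : (31 / 10 / (J : ℝ)) = 31 / 10 * (1 / J) := by ring
  have ey3 : (1 / 4 / (J : ℝ)) = 1 / 4 * (1 / J) := by ring
  rw [ex, ey] at hM
  rw [ey2] at hB
  rw [ey3]
  have hx0 : 0 ≤ 1 / ((b : ℝ) + 1 + 1) := by positivity
  have hx1 : 1 / ((b : ℝ) + 1 + 1) ≤ 1 := by rw [div_le_one (by positivity)]; linarith
  have hy0 : 0 ≤ 1 / (J : ℝ) := by positivity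
  have hy1 : 1 / (J : ℝ) ≤ 1 := by rw [div_le_one (by positivity)]; linarith
  generalize 1 / ((b : ℝ) + 1 + 1) = x at *
  generalize 1 / (J : ℝ) = y at *
  have hm0 : 0 ≤ (1 - 9 / 10 * x) * (1 - 9 / 10 * y) := mul_nonneg (by linarith) (by linarith)
  have hfin : (1 - 9 / 10 * x) * (1 - 9 / 10 * y) * (1 + 60 / 289 * (x + 31 / 10 * y)) ≤
      1 - 1 / 4 * y := by
    calc _ ≤ (1 - 9 / 10 * x) * (1 - 9 / 10 * y) * ((1 + 60 / 289 * x) * (1 + 186 / 289 * y)) := by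
          apply mul_le_mul_of_nonneg_left _ hm0
          nlinarith [mul_nonneg hx0 hy0]
      _ = ((1 - 9 / 10 * x) * (1 + 60 / 289 * x)) * ((1 - 9 / 10 * y) * (1 + 186 / 289 * y)) := by
          ring
      _ ≤ 1 * (1 - 1 / 4 * y) := by
          apply mul_le_mul (by nlinarith) (by nlinarith)
            (mul_nonneg (by linarith) (by linarith)) (by norm_num)
      _ = _ := one_mul _
  calc WW N k c b * WW N k c (b + 2) ≤ Rr N k 0 b * WW N k c (b + 1) * WW N k c (b + 2) := by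
        gcongr
    _ ≤ Rr N k 0 (b + 1) * ((1 - 9 / 10 * x) * (1 - 9 / 10 * y)) * WW N k c (b + 1) *
        WW N k c (b + 2) := by gcongr
    _ = ((1 - 9 / 10 * x) * (1 - 9 / 10 * y)) * WW N k c (b + 1) *
        (Rr N k 0 (b + 1) * WW N k c (b + 1 + 1)) := by ring
    _ ≤ ((1 - 9 / 10 * x) * (1 - 9 / 10 * y)) * WW N k c (b + 1) *
        (WW N k c (b + 1) * (1 + 60 / 289 * (x + 31 / 10 * y))) :=
        mul_le_mul_of_nonneg_left hB (mul_nonneg hm0 h1)
    _ = (1 - 9 / 10 * x) * (1 - 9 / 10 * y) * (1 + 60 / 289 * (x + 31 / 10 * y)) *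
        WW N k c (b + 1) ^ 2 := by ring
    _ ≤ _ := by gcongr

end

theorem ww_eq_WW {N : ℕ} (hN : 0 < N) : ∃ c : ℕ → ℝ, c 0 = ww N 0 N ∧
    (∀ s ≤ N, 0 ≤ c s ∧ c s ≤ c 0) ∧
    ∀ k ≤ N, ∀ b ≤ k, ww N b (k - b + N) = WW N k c b := by
  obtain ⟨c, h0, h1, h2⟩ := parseval hN
  refine ⟨c, h0, h1, fun k hk b hb => ?_⟩
  rw [h2 b (by omega)]
  refine Finset.sum_congr rfl fun s hs => ?_
  have hs' : s ≤ b := by have := mem_range.1 hs; omega
  unfold Tt TT PP
  rw [show k + (N - s) - (b - s) = k - b + N by omega]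

/-- strong log-concavity of the one-point function -/
theorem ww_conc {N b J : ℕ} (hk : b + 1 + J ≤ N) (hJ2 : 16 * (b + 1 + J) ≤ J ^ 2) :
    ww N b (J + 1 + N) * ww N (b + 2) (J - 1 + N) ≤
      (1 - 1 / 4 / (J : ℝ)) * ww N (b + 1) (J + N) ^ 2 := by
  have hJ : 16 ≤ J := by nlinarith
  obtain ⟨c, -, h1, h2⟩ := ww_eq_WW (N := N) (by omega)
  have := WW_conc hk hJ hJ2 h1 b rfl
  rwa [← h2 _ hk b (by omega), ← h2 _ hk (b + 2) (by omega), ← h2 _ hk (b + 1) (by omega),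
    show b + 1 + J - b = J + 1 by omega, show b + 1 + J - (b + 2) = J - 1 by omega,
    show b + 1 + J - (b + 1) = J by omega] at this

theorem ww_upper {N b J : ℕ} (hk : b + J ≤ N) (hJ : 16 ≤ J) (hJ2 : 16 * (b + J) ≤ J ^ 2) :
    ww N b (J + N) ≤ 20 / 17 * (ww N 0 N * ((((J + N).choose N : ℕ) : ℝ) ^ 2 * om ((N : ℝ) ^ 2) b)) := by
  obtain ⟨c, h0, h1, h2⟩ := ww_eq_WW (N := N) (by omega)
  have h3 := WW_le hk hJ hJ2 h1 b (by omega)
  rw [← h2 _ hk b (by omega), show b + J - b = J by omega, h0] at h3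
  refine h3.trans ?_
  have hw : 0 ≤ ww N 0 N := Finset.sum_nonneg fun _ _ => sq_nonneg _
  have hN : (0 : ℝ) < N := by exact_mod_cast (by omega : 0 < N)
  gcongr
  unfold Tt
  have hk' : ((b + J : ℕ) : ℝ) ≤ N := by exact_mod_cast hk
  have hJ1 : (1 : ℝ) ≤ J := by exact_mod_cast (by omega : 1 ≤ J)
  have hJ2' : 16 * ((b + J : ℕ) : ℝ) ≤ (J : ℝ) ^ 2 := by exact_mod_cast hJ2
  have hb : (b : ℝ) + J ≤ ((b + J : ℕ) : ℝ) + 1 := by push_cast; linarith
  rw [TT_eq (N := N) (J := J) (cast_sub_le N 0) hk' (kap_ge N 0) hJ1 hJ2' b hb]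
  have := prod_le_one' (Nat.cast_nonneg _) (cast_sub_le N 0) hk' (kap_ge N 0) hJ1 hJ2' b hb
  simp only [Nat.sub_zero, kap, Nat.cast_zero, mul_zero, add_zero] at this ⊢
  rw [show b + J + N - b = J + N by omega]
  exact mul_le_of_le_one_right (mul_nonneg (sq_nonneg _) (om_pos (by positivity) b).le) this

theorem ww_lower {N b J : ℕ} (hk : b + J ≤ N) (hJ : 16 ≤ J) (hJ2 : 16 * (b + J) ≤ J ^ 2) :
    ww N 0 N * ((((J + N).choose N : ℕ) : ℝ) ^ 2 * om ((N : ℝ) ^ 2) b) *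
      Real.exp (-(13 / 80 * J)) ≤ ww N b (J + N) := by
  obtain ⟨c, h0, h1, h2⟩ := ww_eq_WW (N := N) (by omega)
  have h3 := WW_ge (k := b + J) h1 (by omega) b (by omega)
  rw [← h2 _ hk b (by omega), show b + J - b = J by omega, h0] at h3
  refine le_trans ?_ h3
  have hw : 0 ≤ ww N 0 N := Finset.sum_nonneg fun _ _ => sq_nonneg _
  have hN : (0 : ℝ) < N := by exact_mod_cast (by omega : 0 < N)
  rw [mul_assoc]
  gcongr
  unfold Tt
  have hk' : ((b + J : ℕ) : ℝ) ≤ N := by exact_mod_cast hk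
  have hJ1 : (1 : ℝ) ≤ J := by exact_mod_cast (by omega : 1 ≤ J)
  have hJ2' : 16 * ((b + J : ℕ) : ℝ) ≤ (J : ℝ) ^ 2 := by exact_mod_cast hJ2
  have hb : (b : ℝ) + J ≤ ((b + J : ℕ) : ℝ) := by push_cast; linarith
  rw [TT_eq (N := N) (J := J) (cast_sub_le N 0) hk' (kap_ge N 0) hJ1 hJ2' b (by linarith)]
  have := prod_ge_exp (Nat.cast_nonneg _) (cast_sub_le N 0) hk' (kap_ge N 0) hJ1 hJ2' b hb
  simp only [Nat.sub_zero, kap, Nat.cast_zero, mul_zero, add_zero] at this ⊢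
  rw [show b + J + N - b = J + N by omega]
  refine mul_le_mul_of_nonneg_left (le_trans ?_ this)
    (mul_nonneg (sq_nonneg _) (om_pos (by positivity) b).le)
  apply Real.exp_le_exp.2
  have : ((b + J : ℕ) : ℝ) / (((b + J : ℕ) : ℝ) - b) ≤ J / 16 := by
    rw [show ((b + J : ℕ) : ℝ) - b = J by push_cast; ring, div_le_div_iff₀ (by linarith) (by norm_num)]
    linarith
  linarith

end Pool.Agent.Lib.MP_cb200a_pr
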