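import Pool.Agent.Lib.MP_cb200a_pr.Tele

set_option autoImplicit false

open Finset Nat

namespace Pool.Agent.Lib.MP_cb200a_pr.Chen

variable {m : ℕ}

theorem low_last (κ : Fin (m + 1) → ℕ) : low κ (Fin.last m) + κ (Fin.last m) = ∑ i, κ i := by
  have : univ = insert (Fin.last m) (univ.filter (· < Fin.last m)) := by
    ext y
    simp only [mem_filter, mem_univ, true_and, mem_insert, Fin.lt_def, Fin.ext_iff, Fin.val_last,
      true_iff]
    omega
  unfold low
  conv_rhs => rw [this]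
  rw [Finset.sum_insert (by simp), add_comm]

theorem stable_ev (K j : ℕ) : Stable (Ev (m := m) K j) K := by
  intro κ hs x a hv _
  have h0 := hv.1
  have h1 := low_last κ
  unfold Ev put
  by_cases hx : Fin.last m = x
  · subst hx
    simp only [dn_self, true_and]
    constructor
    · rintro ⟨e1, e2, e3⟩
      have e4 : j ≠ κ (Fin.last m) := fun e => by
        have := e2 (κ (Fin.last m) - 1) (by omega)
        rw [if_pos rfl] at this
        omega
      refine ⟨by omega, fun c hc => ?_, fun hj => ?_⟩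
      · have := e2 c hc
        rwa [if_neg (by omega)] at this
      · have := e3 (by omega)
        rwa [if_neg (by omega)] at this
    · rintro ⟨e1, e2, e3⟩
      refine ⟨by omega, fun c hc => ?_, fun hj => ?_⟩
      · rw [if_neg (by omega)]; exact e2 c hc
      · split_ifs with h
        · omega
        · exact e3 (by omega)
  · simp only [hx, false_and, if_false, dn_ne κ hx]

theorem stable_ev' (K j : ℕ) (hj : 2 ≤ j) : Stable (Ev' (m := m) K j) K := by
  intro κ hs x a hv hg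
  unfold Ev'
  rw [stable_ev K j κ hs x a hv hg]
  refine and_congr_right fun h => ?_
  unfold put
  rw [if_neg]
  rintro ⟨rfl, e⟩
  have := h.1
  rw [dn_self] at this
  omega

theorem ev_iff {K j : ℕ} {κ : Fin (m + 1) → ℕ} (hs : ∑ i, κ i = K) {a : Fin (m + 1) → ℕ → ℕ}
    (h : Good κ a) : Ev K j κ a ↔ κ (Fin.last m) = j := by
  have h1 := low_last κ
  constructor
  · rintro ⟨e1, -, e3⟩
    by_contra hne
    have := e3 (by omega)
    have := h.bound (Fin.last m) j
    omega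
  · intro e
    refine ⟨by omega, fun c hc => ?_, fun hj => by omega⟩
    have := h.bound (Fin.last m) c
    omega

theorem cnt_ev {K j : ℕ} {κ : Fin (m + 1) → ℕ} (hs : ∑ i, κ i = K) :
    cnt (Ev K j) κ = if κ (Fin.last m) = j then PP κ else 0 := by
  unfold PP cnt
  split_ifs with h
  · congr 1
    ext a
    simp only [Set.mem_ofPred_eq, and_true, and_iff_left_iff_imp]
    exact fun ha => (ev_iff hs ha).2 h
  · rw [Set.ncard_eq_zero ((good_finite κ).subset fun a ha => ha.1)]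
    ext a
    simp only [Set.mem_ofPred_eq, Set.mem_empty_iff_false, iff_false]
    exact fun ha => h ((ev_iff hs ha.1).1 ha.2)

theorem cnt_ev'_le (K j : ℕ) (κ : Fin (m + 1) → ℕ) : cnt (Ev' K j) κ ≤ cnt (Ev K j) κ :=
  Set.ncard_le_ncard (fun _ ha => ⟨ha.1, ha.2.1⟩) ((good_finite κ).subset fun _ ha => ha.1)

/-- the hook shape -/
def hook (m K j : ℕ) : Fin (m + 1) → ℕ :=
  fun i => if i.val = m then j else if m ≤ i.val + (K - j) then 1 else 0

theorem hook_mono {K j : ℕ} (hj : 1 ≤ j) : Monotone (hook m K j) := by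
  intro x y h
  have h1 : x.val ≤ y.val := h
  have h2 := y.isLt
  unfold hook
  split_ifs <;> omega

theorem hook_last (K j : ℕ) : hook m K j (Fin.last m) = j := by simp [hook]

theorem hook_low {K j : ℕ} (hK : K ≤ m) : low (hook m K j) (Fin.last m) = K - j := by
  have key : ∀ i : Fin (m + 1), low (hook m K j) i = i.val + (K - j) - m := by
    intro i
    induction i using Fin.induction with
    | zero =>
      have : low (hook m K j) 0 = 0 := by simp [low]
      rw [this]; simp only [Fin.val_zero]; omega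
    | succ i ih =>
      rw [low_succ _ (i := i.castSucc) (i' := i.succ) (by simp), ih]
      have := i.isLt
      simp only [hook, Fin.val_castSucc, Fin.val_succ]
      split_ifs <;> omega
  rw [key]; simp

theorem hook_sum {K j : ℕ} (hK : K ≤ m) (hj : j ≤ K) : ∑ i, hook m K j i = K := by
  rw [← low_last, hook_low hK, hook_last]; omega

theorem hook_lt {K j : ℕ} (hK : K ≤ m) (hj : j ≤ K) (hj2 : 2 ≤ j) :
    cnt (Ev' K j) (hook m K j) < PP (hook m K j) := by
  refine Set.ncard_lt_ncard ⟨fun a ha => ⟨ha.1, trivial⟩, fun h => ?_⟩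
    ((good_finite _).subset fun _ ha => ha.1)
  have hg : Good (hook m K j) fun i c => if i.val = m ∧ 1 ≤ c ∧ c < j then K - j else 0 := by
    refine ⟨fun i c hc => ?_, fun i c hc => ?_, fun i c => ?_, fun i i' hi c hc => ?_⟩
    · unfold hook at hc
      split_ifs at hc ⊢ <;> omega
    · unfold hook at hc
      split_ifs at hc ⊢ <;> omega
    · split_ifs with h1
      · obtain rfl : i = Fin.last m := Fin.ext h1.1
        rw [hook_low hK]
      · exact Nat.zero_le _
    · have := i'.isLt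
      unfold hook at hc
      split_ifs at hc ⊢ <;> omega
  have := (h ⟨hg, trivial⟩).2.2
  simp only [Fin.val_last, true_and, le_refl] at this
  rw [if_pos (by omega)] at this
  omega

theorem row_bound {n k : ℕ} {κ : Fin n → ℕ} (hκ : Monotone κ) (hs : ∑ i, κ i = k) {i : Fin n}
    (hi : 0 < κ i) : n ≤ i.val + k := by
  have h1 : ∑ y ∈ Finset.Ici i, 1 ≤ ∑ y ∈ Finset.Ici i, κ y :=
    Finset.sum_le_sum fun y hy => le_trans hi (hκ (Finset.mem_Ici.1 hy))
  have h2 : ∑ y ∈ Finset.Ici i, κ y ≤ ∑ y, κ y := Finset.sum_le_sum_of_subset (subset_univ _)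
  rw [Finset.sum_const, Fin.card_Ici, smul_eq_mul, mul_one] at h1
  omega

theorem fac_bound {lo hi a : ℕ} (t : ℕ) (h : ∀ c < t, lo ≤ a + 1 + c ∧ a + 1 + c ≤ hi) :
    lo ^ t * a ! ≤ (a + t)! ∧ (a + t)! ≤ hi ^ t * a ! := by
  induction t with
  | zero => simp
  | succ t ih =>
    obtain ⟨h1, h2⟩ := ih fun c hc => h c (by omega)
    obtain ⟨h3, h4⟩ := h t (by omega)
    rw [← add_assoc, Nat.factorial_succ, pow_succ', pow_succ', mul_assoc, mul_assoc]
    exact ⟨Nat.mul_le_mul (by omega) h1, Nat.mul_le_mul (by omega) h2⟩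

theorem prod_bound {n k lo hi : ℕ} {κ a : Fin n → ℕ} (hs : ∑ i, κ i = k)
    (h : ∀ i, ∀ c < κ i, lo ≤ a i + 1 + c ∧ a i + 1 + c ≤ hi) :
    (lo : ℝ) ^ k * ∏ i, ((a i)! : ℝ) ≤ ∏ i, ((a i + κ i)! : ℝ) ∧
      ∏ i, ((a i + κ i)! : ℝ) ≤ (hi : ℝ) ^ k * ∏ i, ((a i)! : ℝ) := by
  rw [← hs, ← Finset.prod_pow_eq_pow_sum, ← Finset.prod_pow_eq_pow_sum, ← Finset.prod_mul_distrib,
    ← Finset.prod_mul_distrib]
  constructor
  · refine Finset.prod_le_prod (fun i _ => by positivity) fun i _ => ?_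
    exact_mod_cast (fac_bound (κ i) (h i)).1
  · refine Finset.prod_le_prod (fun i _ => by positivity) fun i _ => ?_
    exact_mod_cast (fac_bound (κ i) (h i)).2

theorem vdm_bound {n k : ℕ} {κ : Fin n → ℕ} (hκ : Monotone κ) (hs : ∑ i, κ i = k) :
    vdm (hh (0 : Fin n → ℕ)) / k ! * (((n - k : ℕ) : ℝ) ^ k * PP κ) ≤ vdm (hh κ) ∧
      vdm (hh κ) ≤ vdm (hh (0 : Fin n → ℕ)) / k ! * (((n + k : ℕ) : ℝ) ^ k * PP κ) := by
  have h1 := PP_formula k κ hκ hs
  have h2 := prod_bound (lo := n - k) (hi := n + k) (a := hh (0 : Fin n → ℕ)) hs (by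
    intro i c hc
    have := row_bound hκ hs (i := i) (by omega)
    have h3 := low_add_le κ i
    have h4 := i.isLt
    simp only [hh, Pi.zero_apply]
    omega)
  have h3 : ∏ i, ((hh (0 : Fin n → ℕ) i + κ i)! : ℝ) = ∏ i, ((hh κ i)! : ℝ) :=
    Finset.prod_congr rfl fun i _ => by simp [hh, add_comm]
  rw [h3] at h2
  have hA : (0 : ℝ) < ∏ i, ((hh (0 : Fin n → ℕ) i)! : ℝ) :=
    Finset.prod_pos fun i _ => by positivity
  have hV := vdm_pos (κ := (0 : Fin n → ℕ)) monotone_const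
  have hk : (0 : ℝ) < k ! := by positivity
  have hP : (0 : ℝ) ≤ PP κ := Nat.cast_nonneg _
  have h4 : vdm (hh κ) = vdm (hh (0 : Fin n → ℕ)) / k ! *
      (((∏ i, ((hh κ i)! : ℝ)) / ∏ i, ((hh (0 : Fin n → ℕ) i)! : ℝ)) * PP κ) := by
    field_simp
    linear_combination -h1
  rw [h4]
  constructor
  · gcongr
    rw [le_div_iff₀ hA]; exact h2.1
  · gcongr
    rw [div_le_iff₀ hA]; exact h2.2

theorem gg_bound {n k : ℕ} (hk : k < n) {κ : Fin n → ℕ} (hκ : Monotone κ) (hs : ∑ i, κ i = k) :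
    vdm (hh (0 : Fin n → ℕ)) / k ! / (∏ i : Fin n, ((n + n - 1 - i)! : ℝ)) *
        (((n - k : ℕ) : ℝ) ^ (2 * k) * PP κ) ≤ gg n κ ∧
      gg n κ ≤ vdm (hh (0 : Fin n → ℕ)) / k ! / (∏ i : Fin n, ((n + n - 1 - i)! : ℝ)) *
        (((n + k : ℕ) : ℝ) ^ (2 * k) * PP κ) := by
  have hb : ∀ i, κ i ≤ k := fun i => by have := low_add_le κ i; omega
  obtain ⟨h1, h1'⟩ := vdm_bound hκ hs
  have h2 := prod_bound (lo := n - k) (hi := n + k) (a := fun i => n + n - 1 - hh κ i) hs (by
    intro i c hc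
    have := row_bound hκ hs (i := i) (by omega)
    have h3 := hb i
    have h4 := i.isLt
    simp only [hh]
    omega)
  have h3 : ∏ i, ((n + n - 1 - hh κ i + κ i)! : ℝ) = ∏ i : Fin n, ((n + n - 1 - i)! : ℝ) :=
    Finset.prod_congr rfl fun i _ => by
      have h3 := hb i
      have h4 := i.isLt
      rw [show n + n - 1 - hh κ i + κ i = n + n - 1 - i by unfold hh; omega]
  rw [h3] at h2
  rw [gg, if_pos ⟨hκ, fun i => by have := hb i; omega⟩]
  have hA : (0 : ℝ) < ∏ i : Fin n, ((n + n - 1 - i)! : ℝ) :=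
    Finset.prod_pos fun i _ => by positivity
  have hB : (0 : ℝ) < ∏ i : Fin n, ((n + n - 1 - hh κ i)! : ℝ) :=
    Finset.prod_pos fun i _ => by positivity
  have hV := vdm_pos (κ := (0 : Fin n → ℕ)) monotone_const
  have hW := vdm_pos hκ
  generalize (∏ i : Fin n, ((n + n - 1 - i)! : ℝ)) = A at *
  generalize (∏ i : Fin n, ((n + n - 1 - hh κ i)! : ℝ)) = B at *
  constructor
  · calc _ = vdm (hh (0 : Fin n → ℕ)) / k ! * (((n - k : ℕ) : ℝ) ^ k * PP κ) *
          (((n - k : ℕ) : ℝ) ^ k / A) := by rw [two_mul, pow_add]; ring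
      _ ≤ vdm (hh κ) * (1 / B) := by
          refine mul_le_mul h1 ?_ (by positivity) hW.le
          rw [div_le_div_iff₀ hA hB, one_mul]; exact h2.1
      _ = _ := by ring
  · calc _ = vdm (hh κ) * (1 / B) := by ring
      _ ≤ vdm (hh (0 : Fin n → ℕ)) / k ! * (((n + k : ℕ) : ℝ) ^ k * PP κ) *
          (((n + k : ℕ) : ℝ) ^ k / A) := by
          refine mul_le_mul h1' ?_ (by positivity) (by positivity)
          rw [div_le_div_iff₀ hB hA, one_mul]; exact h2.2
      _ = _ := by rw [two_mul, pow_add]; ring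

open Classical in
/-- shapes with `k` cells and top row `j` -/
noncomputable def sh (m k j : ℕ) : Finset (Fin (m + 1) → ℕ) :=
  (Finset.Nat.antidiagonalTuple (m + 1) k).filter fun κ => Monotone κ ∧ κ (Fin.last m) = j

theorem mem_sh {k j : ℕ} {κ : Fin (m + 1) → ℕ} :
    κ ∈ sh m k j ↔ ∑ i, κ i = k ∧ Monotone κ ∧ κ (Fin.last m) = j := by
  unfold sh
  rw [Finset.mem_filter, Finset.Nat.mem_antidiagonalTuple]

/-- Plancherel weight of top row `j` -/
noncomputable def SS (m k j : ℕ) : ℝ := ∑ κ ∈ sh m k j, (PP κ : ℝ) ^ 2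

theorem SS_nonneg (m k j : ℕ) : 0 ≤ SS m k j := Finset.sum_nonneg fun _ _ => sq_nonneg _

theorem sum_ff {k j : ℕ} (Q : (Fin (m + 1) → ℕ) → (Fin (m + 1) → ℕ → ℕ) → Prop)
    (hQ : ∀ κ, cnt Q κ ≤ cnt (Ev k j) κ) (g : (Fin (m + 1) → ℕ) → ℝ) :
    ∑ κ ∈ Finset.Nat.antidiagonalTuple (m + 1) k, ff Q κ * g κ =
      ∑ κ ∈ sh m k j, cnt Q κ * g κ := by
  classical
  unfold sh
  rw [Finset.sum_filter]
  refine Finset.sum_congr rfl fun κ hκ => ?_
  rw [Finset.Nat.mem_antidiagonalTuple] at hκ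
  have h1 := hQ κ
  rw [cnt_ev hκ] at h1
  unfold ff
  by_cases h2 : Monotone κ <;> by_cases h3 : κ (Fin.last m) = j <;> simp [h2, h3] at h1 ⊢
  exact Or.inl h1

theorem core {k j : ℕ} (hk : k ≤ m) (hj : 1 ≤ j) (hjk : j + 2 ≤ k) :
    ((m + 1 - k : ℕ) : ℝ) ^ (4 * k) * (SS m k j * SS m k (j + 2)) ≤
      ((m + 1 + k : ℕ) : ℝ) ^ (4 * k) * (SS m k (j + 1) * (SS m k (j + 1) - 1)) := by
  have hkn : k ≤ (m + 1) * (m + 1) := by nlinarith
  have had := ad (m := m) (b := m + 1) (K := k) (j := j) (by omega) (by simpa using hkn)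
  set G := gg (m + 1) (fun _ : Fin (m + 1) => m + 1) with hG
  have hG0 : 0 < G := by
    rw [hG, gg, if_pos ⟨monotone_const, fun _ => le_rfl⟩]
    exact div_pos (vdm_pos monotone_const) (Finset.prod_pos fun i _ => by positivity)
  set c := vdm (hh (0 : Fin (m + 1) → ℕ)) / k ! /
    (∏ i : Fin (m + 1), ((m + 1 + (m + 1) - 1 - i)! : ℝ)) with hc
  have hc0 : 0 < c := div_pos (div_pos (vdm_pos monotone_const) (by positivity))
    (Finset.prod_pos fun i _ => by positivity)
  set D : ℝ := ((((m + 1) * (m + 1) - k)! : ℕ) : ℝ) with hD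
  have hD0 : 0 < D := by positivity
  set lo : ℝ := ((m + 1 - k : ℕ) : ℝ) ^ (2 * k) with hlo
  set hi : ℝ := ((m + 1 + k : ℕ) : ℝ) ^ (2 * k) with hhi
  have hlo0 : 0 ≤ lo := by positivity
  have hhi0 : 0 ≤ hi := by positivity
  have e1 : ∀ i, D * (c * (lo * SS m k i)) ≤ cnt (Ev k i) (fun _ : Fin (m + 1) => m + 1) * G ∧
      cnt (Ev k i) (fun _ : Fin (m + 1) => m + 1) * G ≤ D * (c * (hi * SS m k i)) := by
    intro i
    rw [tele (stable_ev k i) hkn, sum_ff _ fun _ => le_rfl, SS]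
    constructor
    · refine mul_le_mul_of_nonneg_left ?_ hD0.le
      rw [Finset.mul_sum, Finset.mul_sum]
      refine Finset.sum_le_sum fun κ hκ => ?_
      obtain ⟨h1, h2, h3⟩ := mem_sh.1 hκ
      rw [cnt_ev h1, if_pos h3]
      calc _ = PP κ * (c * (lo * PP κ)) := by ring
        _ ≤ _ := mul_le_mul_of_nonneg_left (gg_bound (by omega) h2 h1).1 (Nat.cast_nonneg _)
    · refine mul_le_mul_of_nonneg_left ?_ hD0.le
      rw [Finset.mul_sum, Finset.mul_sum]
      refine Finset.sum_le_sum fun κ hκ => ?_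
      obtain ⟨h1, h2, h3⟩ := mem_sh.1 hκ
      rw [cnt_ev h1, if_pos h3]
      calc _ ≤ PP κ * (c * (hi * PP κ)) :=
            mul_le_mul_of_nonneg_left (gg_bound (by omega) h2 h1).2 (Nat.cast_nonneg _)
        _ = _ := by ring
  have e2 : cnt (Ev' k (j + 1)) (fun _ : Fin (m + 1) => m + 1) * G ≤
      D * (c * (hi * (SS m k (j + 1) - 1))) := by
    rw [tele (stable_ev' k (j + 1) (by omega)) hkn, sum_ff _ (cnt_ev'_le k (j + 1))]
    have h1 : ∑ κ ∈ sh m k (j + 1), (cnt (Ev' k (j + 1)) κ : ℝ) * PP κ ≤ SS m k (j + 1) - 1 := by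
      have h2 : ∑ κ ∈ sh m k (j + 1), cnt (Ev' k (j + 1)) κ * PP κ <
          ∑ κ ∈ sh m k (j + 1), PP κ ^ 2 := by
        refine Finset.sum_lt_sum (fun κ hκ => ?_) ⟨hook m k (j + 1),
          mem_sh.2 ⟨hook_sum hk (by omega), hook_mono (by omega), hook_last _ _⟩, ?_⟩
        · obtain ⟨h1, h2, h3⟩ := mem_sh.1 hκ
          have := cnt_ev'_le k (j + 1) κ
          rw [cnt_ev h1, if_pos h3] at this
          rw [sq]; exact Nat.mul_le_mul_right _ this
        · have := hook_lt (m := m) hk (j := j + 1) (by omega) (by omega)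
          rw [sq]; exact Nat.mul_lt_mul_of_pos_right this (by omega)
      have h3 : ((∑ κ ∈ sh m k (j + 1), cnt (Ev' k (j + 1)) κ * PP κ + 1 : ℕ) : ℝ) ≤
          (∑ κ ∈ sh m k (j + 1), PP κ ^ 2 : ℕ) := by exact_mod_cast h2
      push_cast at h3
      unfold SS
      linarith
    gcongr
    calc _ ≤ ∑ κ ∈ sh m k (j + 1), (cnt (Ev' k (j + 1)) κ : ℝ) * (c * (hi * PP κ)) := by
          gcongr with κ hκ
          obtain ⟨h1, h2, h3⟩ := mem_sh.1 hκ
          exact (gg_bound (by omega) h2 h1).2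
      _ = c * (hi * ∑ κ ∈ sh m k (j + 1), (cnt (Ev' k (j + 1)) κ : ℝ) * PP κ) := by
          rw [Finset.mul_sum, Finset.mul_sum]
          exact Finset.sum_congr rfl fun κ _ => by ring
      _ ≤ _ := by gcongr
  have had' : (cnt (Ev k j) (fun _ : Fin (m + 1) => m + 1) : ℝ) *
      cnt (Ev k (j + 2)) (fun _ : Fin (m + 1) => m + 1) ≤
      cnt (Ev k (j + 1)) (fun _ : Fin (m + 1) => m + 1) *
        cnt (Ev' k (j + 1)) (fun _ : Fin (m + 1) => m + 1) := by exact_mod_cast had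
  have s1 := SS_nonneg m k j
  have s2 := SS_nonneg m k (j + 1)
  have s3 := SS_nonneg m k (j + 2)
  have e3 : (D * (c * (lo * SS m k j))) * (D * (c * (lo * SS m k (j + 2)))) ≤
      (D * (c * (hi * SS m k (j + 1)))) * (D * (c * (hi * (SS m k (j + 1) - 1)))) :=
    calc _ ≤ (cnt (Ev k j) (fun _ : Fin (m + 1) => m + 1) * G) *
          (cnt (Ev k (j + 2)) (fun _ : Fin (m + 1) => m + 1) * G) :=
          mul_le_mul (e1 j).1 (e1 (j + 2)).1 (by positivity) (by positivity)
      _ = (cnt (Ev k j) (fun _ : Fin (m + 1) => m + 1) *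
          cnt (Ev k (j + 2)) (fun _ : Fin (m + 1) => m + 1)) * (G * G) := by ring
      _ ≤ (cnt (Ev k (j + 1)) (fun _ : Fin (m + 1) => m + 1) *
          cnt (Ev' k (j + 1)) (fun _ : Fin (m + 1) => m + 1)) * (G * G) := by gcongr
      _ = (cnt (Ev k (j + 1)) (fun _ : Fin (m + 1) => m + 1) * G) *
          (cnt (Ev' k (j + 1)) (fun _ : Fin (m + 1) => m + 1) * G) := by ring
      _ ≤ _ := mul_le_mul (e1 (j + 1)).2 e2 (by positivity) (by positivity)
  have e4 : (D * c) ^ 2 * (lo ^ 2 * (SS m k j * SS m k (j + 2))) ≤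
      (D * c) ^ 2 * (hi ^ 2 * (SS m k (j + 1) * (SS m k (j + 1) - 1))) := by
    convert e3 using 1 <;> ring
  have e5 := le_of_mul_le_mul_left e4 (by positivity)
  rwa [hlo, hhi, ← pow_mul, ← pow_mul, show 2 * k * 2 = 4 * k by ring] at e5

end Pool.Agent.Lib.MP_cb200a_pr.Chen
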