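import Mathlib

set_option autoImplicit false

open Finset

namespace Pool.Agent.Lib.MP_cb200a_pr

theorem int_ind {C v : ℝ} (h : |v| ≤ C) :
    ∫ θ in (-C)..C, (if θ ≤ v then (1 : ℝ) else 0) = v + C := by
  have h1 := abs_le.1 h
  have := intervalIntegral.integral_indicator (μ := MeasureTheory.volume) (f := fun _ => (1 : ℝ))
    (a₁ := -C) (a₂ := v) (a₃ := C) ⟨h1.1, h1.2⟩
  simp only [Set.indicator, Set.mem_ofPred_eq] at this
  rw [this]; simp

theorem ind_int (v a b : ℝ) :
    IntervalIntegrable (fun θ => if θ ≤ v then (1 : ℝ) else 0) MeasureTheory.volume a b := by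
  apply Antitone.intervalIntegrable
  intro x y hxy
  dsimp only
  split_ifs with h1 h2 h2
  · exact le_rfl
  · exact absurd (hxy.trans h1) h2
  · exact zero_le_one
  · exact le_rfl

theorem sum_int {D : Type*} (u : Finset D) (w χ : D → ℝ) (a b : ℝ) : IntervalIntegrable
    (fun θ => ∑ a ∈ u, w a * (if θ ≤ χ a then (1 : ℝ) else 0)) MeasureTheory.volume a b := by
  have := IntervalIntegrable.sum u (f := fun a θ => w a * (if θ ≤ χ a then (1 : ℝ) else 0))
    (μ := MeasureTheory.volume) (a := a) (b := b) fun a _ => (ind_int (χ a) _ _).const_mul (w a)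
  rwa [Finset.sum_fn] at this

theorem layer_eq {A : Type*} (s : Finset A) (p φ : A → ℝ) {C : ℝ} (h : ∀ a ∈ s, |φ a| ≤ C) :
    ∫ θ in (-C)..C, ∑ a ∈ s, p a * (if θ ≤ φ a then (1 : ℝ) else 0) =
      ∑ a ∈ s, p a * φ a + C * ∑ a ∈ s, p a := by
  rw [intervalIntegral.integral_finsetSum fun a _ => (ind_int (φ a) _ _).const_mul (p a),
    Finset.mul_sum, ← Finset.sum_add_distrib]
  refine Finset.sum_congr rfl fun a ha => ?_
  rw [intervalIntegral.integral_const_mul, int_ind (h a ha)]; ring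

/-- Layer-cake comparison. -/
theorem layer {A B : Type*} (s : Finset A) (t : Finset B) (p φ : A → ℝ) (q ψ : B → ℝ)
    (hsum : ∑ a ∈ s, p a = ∑ b ∈ t, q b)
    (h : ∀ θ, ∑ a ∈ s with θ ≤ φ a, p a ≤ ∑ b ∈ t with θ ≤ ψ b, q b) :
    ∑ a ∈ s, p a * φ a ≤ ∑ b ∈ t, q b * ψ b := by
  set C := ∑ a ∈ s, |φ a| + ∑ b ∈ t, |ψ b| with hC
  have n1 : 0 ≤ ∑ a ∈ s, |φ a| := Finset.sum_nonneg fun _ _ => abs_nonneg _
  have n2 : 0 ≤ ∑ b ∈ t, |ψ b| := Finset.sum_nonneg fun _ _ => abs_nonneg _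
  have h1 : ∀ a ∈ s, |φ a| ≤ C := fun a ha => by
    have := Finset.single_le_sum (f := fun a => |φ a|) (fun _ _ => abs_nonneg _) ha
    linarith
  have h2 : ∀ b ∈ t, |ψ b| ≤ C := fun b hb => by
    have := Finset.single_le_sum (f := fun b => |ψ b|) (fun _ _ => abs_nonneg _) hb
    linarith
  have e1 := layer_eq s p φ h1
  have e2 := layer_eq t q ψ h2
  have := intervalIntegral.integral_mono_on (μ := MeasureTheory.volume) (by linarith : -C ≤ C)
    (sum_int s p φ _ _) (sum_int t q ψ _ _) (fun θ _ => by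
      have := h θ
      simpa only [Finset.sum_filter, mul_ite, mul_one, mul_zero] using this)
  rw [e1, e2, hsum] at this
  linarith

/-- Sum over the indices below `t`. -/
def ps {n : ℕ} (e : Fin n → ℝ) (t : ℕ) : ℝ := ∑ i : Fin n, if i.val < t then e i else 0

/-- The indices in `[lo, hi)`. -/
def blk (n lo hi : ℕ) : Finset (Fin n) := univ.filter fun i => lo ≤ i.val ∧ i.val < hi

theorem mem_blk {n lo hi : ℕ} {i : Fin n} : i ∈ blk n lo hi ↔ lo ≤ i.val ∧ i.val < hi := by
  simp [blk]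

theorem ps_zero {n : ℕ} (e : Fin n → ℝ) : ps e 0 = 0 := by simp [ps]

theorem ps_top {n : ℕ} (e : Fin n → ℝ) {t : ℕ} (h : n ≤ t) : ps e t = ∑ i, e i := by
  unfold ps
  exact Finset.sum_congr rfl fun i _ => if_pos (lt_of_lt_of_le i.2 h)

theorem ps_sub {n : ℕ} (e : Fin n → ℝ) {a b : ℕ} (h : a ≤ b) :
    ∑ i ∈ blk n a b, e i = ps e b - ps e a := by
  unfold ps blk
  simp only [Finset.sum_filter]
  rw [← Finset.sum_sub_distrib]
  refine Finset.sum_congr rfl fun i _ => ?_
  split_ifs <;> first | omega | simp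

theorem abel_block {n : ℕ} (e c : Fin n → ℝ) {lo hi : ℕ} (hl : lo ≤ hi) (hlo : ps e lo = 0)
    (hhi : ps e hi = 0) (hp : ∀ t, 0 ≤ ps e t)
    (hc : ∀ i j : Fin n, lo ≤ (i : ℕ) → i ≤ j → (j : ℕ) < hi → c i ≤ c j) :
    ∑ i ∈ blk n lo hi, e i * c i ≤ 0 := by
  have := layer (blk n lo hi) (∅ : Finset Unit) e c
    (fun _ => 0) (fun _ => 0) (by rw [ps_sub e hl, hlo, hhi]; simp) (fun θ => by
      simp only [Finset.filter_empty, Finset.sum_empty]
      rcases ((blk n lo hi).filter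
        fun i => θ ≤ c i).eq_empty_or_nonempty with h0 | h0
      · rw [h0]; simp
      · obtain ⟨i0, hi0, hmin⟩ := Finset.exists_min_image _ (fun i : Fin n => i) h0
        simp only [Finset.mem_filter, mem_blk] at hi0 hmin
        have : ((blk n lo hi).filter
            fun i => θ ≤ c i) = blk n i0 hi := by
          ext i
          simp only [Finset.mem_filter, mem_blk]
          constructor
          · intro h; exact ⟨hmin i h, h.1.2⟩
          · intro h
            exact ⟨⟨hi0.1.1.trans h.1, h.2⟩, hi0.2.trans (hc i0 i hi0.1.1 h.1 h.2)⟩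
        rw [this, ps_sub e hi0.1.2.le, hhi]
        linarith [hp i0])
  simpa using this

/-- One coupled step, in dual form. -/
theorem step_le {n : ℕ} (M : Fin n → Prop) (T : ℕ → Prop) (hT : T n) (p q φ ψ : Fin n → ℝ)
    (hp : ∀ i, 0 ≤ p i) (hq : ∀ i, 0 ≤ q i) (hsum : ∑ i, p i = ∑ i, q i)
    (h1 : ∀ r, M r → p r ≤ q r) (h2 : ∀ ρ, T ρ → ps p ρ ≤ ps q ρ)
    (h3 : ∀ r, 0 < p r → 0 < q r → φ r ≤ ψ r)
    (h4 : ∀ r s, 0 < p r → 0 < q s → ¬ M r → (∀ ρ, T ρ → (r : ℕ) < ρ → (s : ℕ) < ρ) →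
      φ r ≤ ψ s) :
    ∑ i, p i * φ i ≤ ∑ i, q i * ψ i := by
  classical
  refine layer univ univ p φ q ψ hsum fun θ => ?_
  have key : ∃ ρ, ps p ρ ≤ ps q ρ ∧ (∀ r : Fin n, 0 < p r → θ ≤ φ r → ρ ≤ (r : ℕ) → M r) ∧
      ∀ s : Fin n, 0 < q s → (s : ℕ) < ρ → θ ≤ ψ s := by
    rcases (univ.filter fun r : Fin n => 0 < p r ∧ θ ≤ φ r ∧ ¬ M r).eq_empty_or_nonempty
      with h0 | h0
    · refine ⟨0, by simp [ps_zero], fun r a b _ => ?_, fun s _ h => absurd h (Nat.not_lt_zero _)⟩
      by_contra hM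
      have : r ∈ univ.filter fun r : Fin n => 0 < p r ∧ θ ≤ φ r ∧ ¬ M r := by simp [a, b, hM]
      rw [h0] at this; simp at this
    · obtain ⟨r0, hr0, hmax⟩ := Finset.exists_max_image _ (fun i : Fin n => i) h0
      simp only [Finset.mem_filter, mem_univ, true_and] at hr0 hmax
      have hex : ∃ ρ, T ρ ∧ (r0 : ℕ) < ρ := ⟨n, hT, r0.2⟩
      refine ⟨Nat.find hex, h2 _ (Nat.find_spec hex).1, fun r a b c => ?_, fun s a b => ?_⟩
      · by_contra hM
        have := hmax r ⟨a, b, hM⟩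
        have h5 := (Nat.find_spec hex).2
        have : (r : ℕ) ≤ r0 := this
        omega
      · exact hr0.2.1.trans (h4 r0 s hr0.1 a hr0.2.2 fun ρ h5 h6 =>
          lt_of_lt_of_le b (Nat.find_min' hex ⟨h5, h6⟩))
  obtain ⟨ρ, k1, k2, k3⟩ := key
  unfold ps at k1
  simp only [Finset.sum_filter]
  have : ∑ i, ((if θ ≤ φ i then p i else 0) - (if (i : ℕ) < ρ then p i else 0)) ≤
      ∑ i, ((if θ ≤ ψ i then q i else 0) - (if (i : ℕ) < ρ then q i else 0)) := by
    refine Finset.sum_le_sum fun i _ => ?_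
    have a := hp i
    have b := hq i
    by_cases hi : (i : ℕ) < ρ
    · simp only [hi, if_true]
      have : (if θ ≤ ψ i then q i else 0) = q i := by
        rcases b.eq_or_lt with h | h
        · rw [← h]; simp
        · rw [if_pos (k3 i h hi)]
      rw [this]
      split_ifs <;> linarith
    · simp only [hi, if_false, sub_zero]
      by_cases h5 : θ ≤ φ i
      · rw [if_pos h5]
        rcases a.eq_or_lt with h | h
        · rw [← h]; split_ifs <;> linarith
        · have hM := h1 i (k2 i h h5 (not_lt.1 hi))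
          rw [if_pos (h5.trans (h3 i h (by linarith)))]
          exact hM
      · rw [if_neg h5]; split_ifs <;> linarith
  rw [Finset.sum_sub_distrib, Finset.sum_sub_distrib] at this
  linarith

/-- Solvability of the Poisson equation for an irreducible chain. -/
theorem poisson {α : Type*} (S : Finset α) (T : (α → ℝ) →ₗ[ℝ] (α → ℝ)) (π : α → ℝ)
    (hstat : ∀ F, ∑ x ∈ S, π x * T F x = ∑ x ∈ S, π x * F x)
    (hπ : ∑ x ∈ S, π x ≠ 0)
    (hharm : ∀ F, (∀ x ∈ S, T F x = F x) → ∃ c, ∀ x ∈ S, F x = c) (f : α → ℝ) :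
    ∃ F : α → ℝ, ∀ x ∈ S, F x - T F x = f x - (∑ x ∈ S, π x * f x) / ∑ x ∈ S, π x := by
  classical
  let E : (S → ℝ) →ₗ[ℝ] (α → ℝ) :=
    { toFun := fun G x => if h : x ∈ S then G ⟨x, h⟩ else 0
      map_add' := fun G H => by funext x; by_cases h : x ∈ S <;> simp [h]
      map_smul' := fun c G => by funext x; by_cases h : x ∈ S <;> simp [h] }
  have hE : ∀ G (x : S), E G x = G x := fun G x => by simp [E, x.2]
  let L : (S → ℝ) →ₗ[ℝ] (S → ℝ) :=
    { toFun := fun G x => E G x - T (E G) x + (∑ y ∈ S, π y * E G y) / ∑ x ∈ S, π x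
      map_add' := fun G H => by
        funext x
        simp only [map_add, Pi.add_apply, mul_add, Finset.sum_add_distrib]; ring
      map_smul' := fun c G => by
        funext x
        simp only [map_smul, Pi.smul_apply, smul_eq_mul, RingHom.id_apply]
        have : ∑ y ∈ S, π y * (c * E G y) = c * ∑ y ∈ S, π y * E G y := by
          rw [Finset.mul_sum]; exact Finset.sum_congr rfl fun _ _ => by ring
        rw [this]; ring }
  have mean : ∀ (G : S → ℝ) (g : α → ℝ), (∀ x : S, L G x = g x) →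
      ∑ y ∈ S, π y * E G y = ∑ y ∈ S, π y * g y := by
    intro G g h
    have : ∑ y ∈ S, π y * g y = ∑ y ∈ S, π y * (E G y - T (E G) y +
        (∑ y ∈ S, π y * E G y) / ∑ x ∈ S, π x) :=
      Finset.sum_congr rfl fun y hy => by rw [← h ⟨y, hy⟩]; rfl
    rw [this]
    simp only [mul_add, mul_sub, Finset.sum_add_distrib, Finset.sum_sub_distrib, hstat]
    rw [← Finset.sum_mul]
    field_simp
    ring
  have hinj : Function.Injective L := by
    rw [injective_iff_map_eq_zero]
    intro G hG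
    have m0 := mean G 0 fun x => by rw [hG]; rfl
    simp only [Pi.zero_apply, mul_zero, Finset.sum_const_zero] at m0
    obtain ⟨c, hc⟩ := hharm (E G) fun x hx => by
      have : L G ⟨x, hx⟩ = 0 := by rw [hG]; rfl
      simp only [L, LinearMap.coe_mk, AddHom.coe_mk, m0, zero_div, add_zero] at this
      linarith
    have : (∑ x ∈ S, π x) * c = 0 := by
      rw [Finset.sum_mul, ← m0]
      exact Finset.sum_congr rfl fun y hy => by rw [hc y hy]
    have hc0 : c = 0 := (mul_eq_zero.1 this).resolve_left hπ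
    funext x
    rw [← hE G x, hc x x.2, hc0]; rfl
  obtain ⟨G, hG⟩ := (LinearMap.injective_iff_surjective.1 hinj) fun x => f x
  have m1 := mean G f fun x => by rw [hG]
  refine ⟨E G, fun x hx => ?_⟩
  have : L G ⟨x, hx⟩ = f x := by rw [hG]
  simp only [L, LinearMap.coe_mk, AddHom.coe_mk, m1] at this
  linarith

end Pool.Agent.Lib.MP_cb200a_pr
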