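import Pool.Agent.Lib.MP_cb200a_pr.CplStep

set_option autoImplicit false

open Finset

namespace Pool.Agent.Lib.MP_cb200a_pr

open Classical in
/-- Configurations with sum `S` whose top particle is at `J` or `J + 1`. -/
noncomputable def St (m S J : ℕ) : Finset (Fin (m + 1) → ℕ) :=
  (Finset.Nat.antidiagonalTuple (m + 1) S).filter fun y =>
    StrictMono y ∧ (y (Fin.last m) = J ∨ y (Fin.last m) = J + 1)

theorem mem_St {m S J : ℕ} {y : Fin (m + 1) → ℕ} : y ∈ St m S J ↔
    ∑ i, y i = S ∧ StrictMono y ∧ (y (Fin.last m) = J ∨ y (Fin.last m) = J + 1) := by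
  unfold St
  rw [Finset.mem_filter, Finset.Nat.mem_antidiagonalTuple]

noncomputable def Aw (m S J : ℕ) (y : Fin (m + 1) → ℕ) : ℝ := if y ∈ St m S J then vdm y else 0

theorem Aw_nonneg (m S J : ℕ) (y : Fin (m + 1) → ℕ) : 0 ≤ Aw m S J y := by
  unfold Aw; split_ifs with h
  · exact (vdm_pos' (mem_St.1 h).2.1).le
  · exact le_rfl

noncomputable def uw (m S J : ℕ) (g : Fin (m + 1) → ℕ) (r : Fin (m + 1)) : ℝ :=
  ((g r : ℝ) + 1) * Aw m S J (up g r)

theorem uw_nonneg (m S J : ℕ) (g : Fin (m + 1) → ℕ) (r : Fin (m + 1)) : 0 ≤ uw m S J g r :=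
  mul_nonneg (by positivity) (Aw_nonneg _ _ _ _)

theorem uw_pos {m S J : ℕ} {g : Fin (m + 1) → ℕ} {r : Fin (m + 1)} :
    0 < uw m S J g r ↔ up g r ∈ St m S J := by
  unfold uw Aw
  constructor
  · intro h; by_contra c; simp [c] at h
  · intro h; rw [if_pos h]; exact mul_pos (by positivity) (vdm_pos' (mem_St.1 h).2.1)

theorem uw_eq {m S J : ℕ} {g : Fin (m + 1) → ℕ} (hg : StrictMono g) (hS : ∑ i, g i + 1 = S)
    (r : Fin (m + 1)) : uw m S J g r = vdm g * aw J g r := by
  unfold uw Aw aw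
  have e := vdm_up_eq hg r
  by_cases a : up g r (Fin.last m) = J ∨ up g r (Fin.last m) = J + 1
  · rw [if_pos a, ← e]
    split_ifs with b
    · rfl
    · by_cases c : vdm (up g r) = 0
      · rw [c]
      · exact absurd (mem_St.2 ⟨by rw [sum_up, hS], strict_of_vdm (up_mono hg r) c, a⟩) b
  · rw [if_neg a, if_neg fun b => a (mem_St.1 b).2.2]; simp

/-- The constrained up operator. -/
noncomputable def UF (m S J : ℕ) (F : (Fin (m + 1) → ℕ) → ℝ) (g : Fin (m + 1) → ℕ) : ℝ :=
  ∑ r, uw m S J g r / (∑ s, uw m S J g s) * F (up g r)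

/-- The down-up chain. -/
noncomputable def TT' (m S J : ℕ) (K : ℝ) :
    ((Fin (m + 1) → ℕ) → ℝ) →ₗ[ℝ] ((Fin (m + 1) → ℕ) → ℝ) where
  toFun F h := (∑ r, Qw h r * UF m S J F (dn h r)) / K
  map_add' F G := by
    funext h; simp only [UF, Pi.add_apply, mul_add, Finset.sum_add_distrib, add_div]
  map_smul' c F := by
    funext h
    simp only [UF, Pi.smul_apply, smul_eq_mul, RingHom.id_apply, Finset.mul_sum, ← mul_div_assoc,
      mul_left_comm]

theorem TT'_apply (m S J : ℕ) (K : ℝ) (F : (Fin (m + 1) → ℕ) → ℝ) (h : Fin (m + 1) → ℕ) :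
    TT' m S J K F h = (∑ r, Qw h r * UF m S J F (dn h r)) / K := rfl

theorem ip_Aw (m S J : ℕ) (H F : (Fin (m + 1) → ℕ) → ℝ) :
    ip S H (fun y => Aw m S J y * F y) = ∑ y ∈ St m S J, H y * (vdm y * F y) := by
  classical
  unfold ip
  have hs : St m S J ⊆ Finset.Nat.antidiagonalTuple (m + 1) S := Finset.filter_subset _ _
  rw [← Finset.sum_subset hs fun y _ hy => by simp [Aw, hy]]
  exact Finset.sum_congr rfl fun y hy => by simp [Aw, hy]

theorem stat {m S J : ℕ} {K : ℝ} (hK : K = ((S + 1 : ℕ) : ℝ) - ((m + 1).choose 2 : ℕ))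
    (hK0 : K ≠ 0) (F : (Fin (m + 1) → ℕ) → ℝ) :
    ∑ x ∈ St m (S + 1) J, vdm x ^ 2 * TT' m (S + 1) J K F x =
      ∑ x ∈ St m (S + 1) J, vdm x ^ 2 * F x := by
  have e1 := ip_adj S (fun g => vdm g * UF m (S + 1) J F g) (fun y => Aw m (S + 1) J y * 1)
  have e2 := ip_adj S vdm (fun y => Aw m (S + 1) J y * F y)
  rw [ip_Aw] at e1 e2
  have e3 : ip S (fun g => vdm g * UF m (S + 1) J F g)
      (opD (m + 1) fun y => Aw m (S + 1) J y * 1) =
      ip S vdm (opD (m + 1) fun y => Aw m (S + 1) J y * F y) := by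
    unfold ip
    refine Finset.sum_congr rfl fun g _ => ?_
    rw [mul_assoc]
    congr 1
    have a1 : (opD (m + 1) fun y => Aw m (S + 1) J y * 1) g = ∑ s, uw m (S + 1) J g s := by
      simp only [opD_apply, mul_one]; rfl
    have a2 : (opD (m + 1) fun y => Aw m (S + 1) J y * F y) g =
        ∑ s, uw m (S + 1) J g s * F (up g s) := by
      simp only [opD_apply, ← mul_assoc]; rfl
    rw [a1, a2, UF, Finset.sum_mul]
    refine Finset.sum_congr rfl fun r _ => ?_
    by_cases z : ∑ s, uw m (S + 1) J g s = 0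
    · have := (Finset.sum_eq_zero_iff_of_nonneg fun i _ => uw_nonneg m (S + 1) J g i).1 z r
        (mem_univ _)
      rw [this]; simp
    · field_simp
  rw [e3, ← e2] at e1
  apply mul_left_cancel₀ hK0
  rw [Finset.mul_sum, Finset.mul_sum]
  refine Eq.trans (Finset.sum_congr rfl fun y hy => ?_)
    (e1.trans (Finset.sum_congr rfl fun y hy => ?_))
  · have hy' := (mem_St.1 hy).2.1
    have : opU (m + 1) (fun g => vdm g * UF m (S + 1) J F g) y =
        vdm y * ∑ r, Qw y r * UF m (S + 1) J F (dn y r) := by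
      rw [opU_apply, Finset.mul_sum]
      refine Finset.sum_congr rfl fun r _ => ?_
      rw [← mul_assoc, ← mul_assoc, ← vdm_dn_eq hy']; rfl
    rw [this, TT'_apply]
    field_simp
  · rw [opU_apply, vdm_down, (mem_St.1 hy).1, ← hK]; ring

theorem avg_le {ι : Type*} [Fintype ι] {w v : ι → ℝ} {Z M : ℝ} (hw : ∀ i, 0 ≤ w i)
    (hZ : ∑ i, w i = Z) (hv : ∀ i, 0 < w i → v i ≤ M) :
    ∑ i, w i * v i ≤ Z * M ∧ (Z * M ≤ ∑ i, w i * v i → ∀ i, 0 < w i → v i = M) := by
  have h1 : ∀ i ∈ (univ : Finset ι), 0 ≤ w i * (M - v i) := fun i _ => by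
    rcases (hw i).eq_or_lt with a | a
    · rw [← a]; simp
    · exact mul_nonneg a.le (by linarith [hv i a])
  have h2 : ∑ i, w i * (M - v i) = Z * M - ∑ i, w i * v i := by
    simp only [mul_sub, Finset.sum_sub_distrib, ← Finset.sum_mul, hZ]
  have h3 := Finset.sum_nonneg h1
  refine ⟨by linarith, fun h i hi => ?_⟩
  have := (Finset.sum_eq_zero_iff_of_nonneg h1).1 (by linarith) i (mem_univ _)
  have := (mul_eq_zero.1 this).resolve_left hi.ne'
  linarith

theorem Z_pos {m S J : ℕ} {x : Fin (m + 1) → ℕ} (hx : x ∈ St m S J) {r : Fin (m + 1)}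
    (h : 0 < x r) : 0 < ∑ s, uw m S J (dn x r) s :=
  lt_of_lt_of_le (uw_pos.2 (by rwa [up_dn h]))
    (Finset.single_le_sum (fun i _ => uw_nonneg m S J (dn x r) i) (mem_univ r))

theorem UF_le {m S J : ℕ} {F : (Fin (m + 1) → ℕ) → ℝ} {M : ℝ} (hM : ∀ x ∈ St m S J, F x ≤ M)
    {g : Fin (m + 1) → ℕ} (hg : 0 < ∑ s, uw m S J g s) :
    UF m S J F g ≤ M ∧ (UF m S J F g = M → ∀ s, up g s ∈ St m S J → F (up g s) = M) := by
  have := avg_le (w := fun r => uw m S J g r / ∑ s, uw m S J g s) (v := fun r => F (up g r))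
    (Z := 1) (M := M) (fun i => div_nonneg (uw_nonneg _ _ _ _ _) hg.le)
    (by rw [← Finset.sum_div, div_self hg.ne'])
    (fun i hi => hM _ (uw_pos.1 ((div_pos_iff_of_pos_right hg).1 hi)))
  rw [one_mul] at this
  exact ⟨this.1, fun h s hs => this.2 h.ge s (div_pos (uw_pos.2 hs) hg)⟩

theorem closed_max {m S J : ℕ} {K : ℝ} (hK : K = (S : ℝ) - ((m + 1).choose 2 : ℕ)) (hK0 : 0 < K)
    {F : (Fin (m + 1) → ℕ) → ℝ} {M : ℝ} (hM : ∀ x ∈ St m S J, F x ≤ M)
    {x : Fin (m + 1) → ℕ} (hx : x ∈ St m S J) (hT : TT' m S J K F x = M) {r s : Fin (m + 1)}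
    (h1 : 0 < x r) (h2 : StrictMono (dn x r)) (h3 : up (dn x r) s ∈ St m S J) :
    F (up (dn x r) s) = M := by
  have hx' := (mem_St.1 hx).2.1
  have := avg_le (w := Qw x) (v := fun r => UF m S J F (dn x r)) (Z := K) (M := M)
    (Qw_nonneg hx') (by rw [sum_Qw hx', hK, ← (mem_St.1 hx).1]; push_cast; rfl)
    (fun i hi => (UF_le hM (Z_pos hx ((Qw_pos hx' i).1 hi).1)).1)
  rw [TT'_apply, div_eq_iff hK0.ne'] at hT
  exact (UF_le hM (Z_pos hx h1)).2
    (this.2 (by rw [hT, mul_comm]) r ((Qw_pos hx' r).2 ⟨h1, h2⟩)) s h3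

/-- The end state of the descent. -/
def Term {m : ℕ} (J : ℕ) (x : Fin (m + 1) → ℕ) : Prop :=
  x (Fin.last m) = J ∧ ∀ i, i ≠ Fin.last m → x i ≤ i.val + 1

theorem sum_idx (n : ℕ) : ∑ j : Fin n, (j : ℕ) = n.choose 2 := by
  exact_mod_cast sum_fin_cast n

theorem reach {m S J : ℕ} (hJ : m + 1 ≤ J) (hS : S < (m + 1).choose 2 + (m + 1))
    (C : (Fin (m + 1) → ℕ) → Prop)
    (hC : ∀ x ∈ St m S J, C x → ∀ r s, 0 < x r → StrictMono (dn x r) →
      up (dn x r) s ∈ St m S J → C (up (dn x r) s)) :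
    ∀ x ∈ St m S J, C x → ∃ z ∈ St m S J, Term J z ∧ C z := by
  classical
  intro x
  induction hN : ∑ i, (x i - i.val - 1) using Nat.strong_induction_on generalizing x with
  | _ N ih =>
  intro hx hCx
  by_cases hT : Term J x
  · exact ⟨x, hx, hT, hCx⟩
  obtain ⟨x1, x2, x3⟩ := mem_St.1 hx
  have n1 : (univ.filter fun i : Fin (m + 1) => i.val + 2 ≤ x i ∧
      (i = Fin.last m → x i = J + 1)).Nonempty := by
    by_cases c : x (Fin.last m) = J
    · have : ∃ i, i ≠ Fin.last m ∧ i.val + 1 < x i := by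
        by_contra d; push Not at d; exact hT ⟨c, d⟩
      obtain ⟨i, a, b⟩ := this
      exact ⟨i, by simp [a]; omega⟩
    · exact ⟨Fin.last m, by simp; omega⟩
  have n2 : (univ.filter fun i : Fin (m + 1) => x i = i.val).Nonempty := by
    refine ⟨0, ?_⟩
    simp only [Finset.mem_filter, mem_univ, true_and, Fin.val_zero]
    by_contra c
    have : ∑ i : Fin (m + 1), (i.val + 1) ≤ ∑ i, x i := Finset.sum_le_sum fun i _ => by
      have := gap x2 (Fin.zero_le i)
      simp only [Fin.val_zero] at this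
      omega
    rw [Finset.sum_add_distrib, sum_idx] at this
    simp only [Finset.sum_const, card_univ, Fintype.card_fin, smul_eq_mul, mul_one] at this
    omega
  obtain ⟨r, hr, rmin⟩ := Finset.exists_min_image _ (fun i : Fin (m + 1) => i) n1
  obtain ⟨s, hs, smax⟩ := Finset.exists_max_image _ (fun i : Fin (m + 1) => i) n2
  simp only [Finset.mem_filter, mem_univ, true_and] at hr rmin hs smax
  have below : ∀ i, i < r → x i ≤ i.val + 1 := fun i hi => by
    by_contra c
    exact absurd (rmin i ⟨by omega, fun e => absurd hi (by rw [e]; exact (Fin.le_last r).not_gt)⟩)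
      hi.not_ge
  have above : ∀ i, s < i → i.val + 1 ≤ x i := fun i hi => by
    have := idx_le x2 i
    by_contra c
    exact absurd (smax i (by omega)) hi.not_ge
  have hsr : s < r := by
    by_contra c
    have := gap x2 (not_lt.1 c)
    omega
  have d1 : StrictMono (dn x r) := by
    intro a b hab
    have := x2 hab
    have hab' : a.val < b.val := hab
    simp only [dn_apply]
    split_ifs with p q q
    · omega
    · omega
    · subst q; have := below a hab; omega
    · omega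
  have d2 : StrictMono (up (dn x r) s) := by
    intro a b hab
    have := d1 hab
    have hab' : a.val < b.val := hab
    simp only [up_apply]
    split_ifs with p q q
    · omega
    · subst p
      have := above b hab
      simp only [dn_apply, if_neg hsr.ne]
      split_ifs with q'
      · subst q'; omega
      · omega
    · omega
    · omega
  have sl : Fin.last m ≠ s := fun e => absurd hsr (by rw [← e]; exact (Fin.le_last r).not_gt)
  have d3 : up (dn x r) s ∈ St m S J := by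
    refine mem_St.2 ⟨by rw [sum_up, sum_dn (by omega), x1], d2, ?_⟩
    simp only [up_apply, dn_apply, if_neg sl]
    split_ifs with q
    · have := hr.2 q.symm; rw [← q] at this; omega
    · exact x3
  refine ih _ ?_ _ rfl d3 (hC x hx hCx r s (by omega) d1 d3)
  rw [← hN]
  refine Finset.sum_lt_sum (fun i _ => ?_) ⟨r, mem_univ _, ?_⟩
  · simp only [up_apply, dn_apply]
    split_ifs with p q q
    · omega
    · subst p; omega
    · omega
    · omega
  · simp only [up_apply, dn_apply, if_neg hsr.ne', if_true]; omega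

theorem term_unique {m S J : ℕ} {z w : Fin (m + 1) → ℕ} (hz : z ∈ St m S J) (hw : w ∈ St m S J)
    (tz : Term J z) (tw : Term J w) : z = w := by
  obtain ⟨z1, z2, -⟩ := mem_St.1 hz
  obtain ⟨w1, w2, -⟩ := mem_St.1 hw
  have key : ∀ {z w : Fin (m + 1) → ℕ}, ∑ i, z i = ∑ i, w i → (∀ i, z i ≤ w i) → z = w := by
    intro z w a b
    funext i
    exact (Finset.sum_eq_sum_iff_of_le fun i _ => b i).1 a i (mem_univ _)
  by_cases c : ∀ i, z i ≤ w i
  · exact key (z1.trans w1.symm) c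
  · push Not at c
    obtain ⟨a, ha⟩ := c
    refine (key (w1.trans z1.symm) fun b => ?_).symm
    by_contra hb
    have al : a ≠ Fin.last m := fun e => by rw [e, tz.1, tw.1] at ha; omega
    have bl : b ≠ Fin.last m := fun e => by rw [e, tz.1, tw.1] at hb; omega
    have := tz.2 a al
    have := tw.2 b bl
    have := idx_le w2 a
    have := idx_le z2 b
    rcases le_total a b with h | h
    · have := gap z2 h; omega
    · have := gap w2 h; omega

theorem harm {m S J : ℕ} {K : ℝ} (hK : K = (S : ℝ) - ((m + 1).choose 2 : ℕ)) (hK0 : 0 < K)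
    (hJ : m + 1 ≤ J) (hS : S < (m + 1).choose 2 + (m + 1)) (F : (Fin (m + 1) → ℕ) → ℝ)
    (hF : ∀ x ∈ St m S J, TT' m S J K F x = F x) : ∃ c, ∀ x ∈ St m S J, F x = c := by
  rcases (St m S J).eq_empty_or_nonempty with h0 | h0
  · exact ⟨0, fun x hx => by rw [h0] at hx; simp at hx⟩
  have key : ∀ G : (Fin (m + 1) → ℕ) → ℝ, (∀ x ∈ St m S J, TT' m S J K G x = G x) →
      ∃ z ∈ St m S J, Term J z ∧ ∀ x ∈ St m S J, G x ≤ G z := by
    intro G hG
    obtain ⟨x0, a, b⟩ := Finset.exists_max_image _ G h0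
    obtain ⟨z, c, d, e⟩ := reach hJ hS (fun x => G x = G x0) (fun x hx hc r s h1 h2 h3 =>
      closed_max hK hK0 b hx ((hG x hx).trans hc) h1 h2 h3) x0 a rfl
    exact ⟨z, c, d, fun x hx => by rw [e]; exact b x hx⟩
  obtain ⟨z, z1, z2, z3⟩ := key F hF
  obtain ⟨w, w1, w2, w3⟩ := key (-F) fun x hx => by rw [map_neg, Pi.neg_apply, hF x hx]; rfl
  obtain rfl := term_unique z1 w1 z2 w2
  exact ⟨F z, fun x hx => le_antisymm (z3 x hx) (neg_le_neg_iff.1 (w3 x hx))⟩

end Pool.Agent.Lib.MP_cb200a_pr
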