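import Pool.Agent.Lib.MP_cb200a_pr.CplW

set_option autoImplicit false

open Finset

namespace Pool.Agent.Lib.MP_cb200a_pr

def dif {n : ℕ} (x y : Fin n → ℕ) : Fin n → ℝ := fun i => (y i : ℝ) - x i

/-- The relation preserved by the coupling. -/
def Rel {n : ℕ} (x y : Fin n → ℕ) : Prop :=
  (∀ i, x i ≤ y i + 1) ∧ (∀ t, 0 ≤ ps (dif x y) t) ∧ ∑ i, x i = ∑ i, y i

theorem ps_succ {n : ℕ} (e : Fin n → ℝ) (i : Fin n) : ps e (i.val + 1) = ps e i.val + e i := by
  have := ps_sub e (Nat.le_succ i.val)
  have h : blk n i.val (i.val + 1) = {i} := by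
    ext j; rw [mem_blk, Finset.mem_singleton, Fin.ext_iff]; omega
  rw [h, Finset.sum_singleton] at this
  linarith

theorem Rel.tot {n : ℕ} {x y : Fin n → ℕ} (h : Rel x y) : ps (dif x y) n = 0 := by
  rw [ps_top _ le_rfl]
  unfold dif
  rw [Finset.sum_sub_distrib, sub_eq_zero]
  exact_mod_cast h.2.2.symm

theorem ps_le_ps {n : ℕ} {p q : Fin n → ℝ} {ρ : ℕ} (h : ∀ i, i.val < ρ → p i ≤ q i) :
    ps p ρ ≤ ps q ρ :=
  Finset.sum_le_sum fun i _ => by split_ifs with a; exacts [h i a, le_rfl]

theorem ps_le_ps' {n : ℕ} {p q : Fin n → ℝ} {ρ : ℕ} (hs : ∑ i, p i = ∑ i, q i)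
    (h : ∀ i, ρ ≤ i.val → q i ≤ p i) : ps p ρ ≤ ps q ρ := by
  have : ∑ i, (q i - if i.val < ρ then q i else 0) ≤ ∑ i, (p i - if i.val < ρ then p i else 0) :=
    Finset.sum_le_sum fun i _ => by
      split_ifs with a
      · simp
      · simpa using h i (not_lt.1 a)
  rw [Finset.sum_sub_distrib, Finset.sum_sub_distrib] at this
  unfold ps
  linarith

theorem cut {n : ℕ} {x y : Fin n → ℕ} (hx : StrictMono x) (hy : StrictMono y) (h : Rel x y)
    {ρ : ℕ} (hρ : ps (dif x y) ρ = 0) :
    ps (Pw x) ρ ≤ ps (Pw y) ρ ∧ ps (Qw y) ρ ≤ ps (Qw x) ρ := by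
  have hs : ∑ i, (x i : ℝ) = ∑ i, (y i : ℝ) := by exact_mod_cast h.2.2
  rcases le_or_gt n ρ with hn | hn
  · simp only [ps_top _ hn, sum_Pw hx, sum_Pw hy, sum_Qw hx, sum_Qw hy, hs, le_refl, and_self]
  set z : Fin n → ℕ := fun i => if i.val < ρ then y i else x i with hzd
  have z1 : ∀ i : Fin n, i.val < ρ → z i = y i := fun i a => if_pos a
  have z2 : ∀ i : Fin n, ρ ≤ i.val → z i = x i := fun i a => if_neg (not_lt.2 a)
  have hz : StrictMono z := by
    intro i j hij
    have hij' : i.val < j.val := hij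
    rcases lt_or_ge j.val ρ with b | b
    · rw [z1 i (by omega), z1 j b]; exact hy hij
    rcases lt_or_ge i.val ρ with a | a
    · rw [z1 i a, z2 j b]
      set k : Fin n := ⟨ρ - 1, by omega⟩
      have e1 := ps_succ (dif x y) k
      have e2 : k.val + 1 = ρ := by simp only [k]; omega
      rw [e2, hρ] at e1
      have e3 := h.2.1 k.val
      have e4 : (y k : ℝ) ≤ x k := by unfold dif at e1 e3; linarith
      have e5 : y k ≤ x k := by exact_mod_cast e4
      have e6 : y i ≤ y k := hy.monotone (Fin.le_def.2 (by omega))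
      have e7 : x k < x j := hx (Fin.lt_def.2 (by omega))
      omega
    · rw [z2 i a, z2 j b]; exact hx hij
  have sz : ∑ i, (z i : ℝ) = ∑ i, (x i : ℝ) := by
    have : ∑ i, (z i : ℝ) = ∑ i, ((x i : ℝ) + if i.val < ρ then dif x y i else 0) :=
      Finset.sum_congr rfl fun i _ => by
        simp only [hzd, dif]; split_ifs <;> simp
    rw [this, Finset.sum_add_distrib]
    unfold ps at hρ
    rw [hρ, add_zero]
  have A := fun (r : Fin n) (hr : ρ ≤ r.val) => block_above hx hz (dif x y) (Nat.zero_le ρ)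
    (ps_zero _) hρ h.2.1 (fun i hi => by rw [z1 i (mem_blk.1 hi).2]; rfl)
    (fun i hi => by rw [z2 i (by rw [mem_blk] at hi; omega)]) hr
  have B := fun (r : Fin n) (hr : r.val < ρ) => block_below hz hy (dif x y) hn.le
    hρ h.tot h.2.1 (fun i hi => by rw [z2 i (mem_blk.1 hi).1]; rfl)
    (fun i hi => by rw [z1 i (by rw [mem_blk] at hi; have := i.2; omega)]) hr
  constructor
  · refine (ps_le_ps' (q := Pw z) (by rw [sum_Pw hx, sum_Pw hz, sz]) fun i hi => ?_).trans
      (ps_le_ps fun i hi => ?_)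
    · unfold Pw; rw [z2 i hi]; exact mul_le_mul_of_nonneg_left (A i hi).1 (by positivity)
    · unfold Pw; rw [z1 i hi]; exact mul_le_mul_of_nonneg_left (B i hi).1 (by positivity)
  · refine (ps_le_ps (q := Qw z) fun i hi => ?_).trans
      (ps_le_ps' (by rw [sum_Qw hx, sum_Qw hz, sz]) fun i hi => ?_)
    · unfold Qw; rw [z1 i hi]; exact mul_le_mul_of_nonneg_left (B i hi).2 (by positivity)
    · unfold Qw; rw [z2 i hi]; exact mul_le_mul_of_nonneg_left (A i hi).2 (by positivity)

theorem inv_cmp {n : ℕ} {x y : Fin n → ℕ} (hx : StrictMono x) (hy : StrictMono y)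
    (h : ∀ i, x i ≤ y i + 1) {r : Fin n} (hr : x r = y r + 1) {i : Fin n} (hi : i ≠ r) :
    1 / ((x r : ℝ) - x i) ≤ 1 / ((y r : ℝ) - y i) := by
  have a1 : (x i : ℝ) ≤ y i + 1 := by exact_mod_cast h i
  have a2 : (x r : ℝ) = y r + 1 := by exact_mod_cast hr
  rcases lt_or_gt_of_ne hi with b | b
  · have : (y i : ℝ) < y r := by exact_mod_cast hy b
    exact one_div_le_one_div_of_le (by linarith) (by linarith)
  · have : (x r : ℝ) < x i := by exact_mod_cast hx b
    exact one_div_le_one_div_of_neg_of_le (by linarith) (by linarith)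

theorem diag_Q {n : ℕ} {x y : Fin n → ℕ} (hx : StrictMono x) (hy : StrictMono y)
    (h : ∀ i, x i ≤ y i + 1) {r : Fin n} (hr : x r = y r + 1) : Qw y r ≤ Qw x r := by
  have a2 : (x r : ℝ) = y r + 1 := by exact_mod_cast hr
  refine mul_le_mul (by linarith) (Finset.prod_le_prod (fun i hi =>
    term_nonneg hy le_rfl (by norm_num) (Finset.ne_of_mem_erase hi)) fun i hi => ?_)
    (fac_nonneg hy le_rfl (by norm_num) r) (by positivity)
  have := inv_cmp hx hy h hr (Finset.ne_of_mem_erase hi)
  simp only [neg_div]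
  linarith

theorem gap {n : ℕ} {y : Fin n → ℕ} (hy : StrictMono y) {a b : Fin n} (h : a ≤ b) :
    y a + b.val ≤ y b + a.val := by
  have : ∀ k, ∀ b : Fin n, b.val = a.val + k → y a + k ≤ y b := by
    intro k
    induction k with
    | zero => intro b hb; rw [show b = a from Fin.ext (by omega)]; exact le_rfl
    | succ k ih =>
      intro b hb
      have h1 := ih ⟨a.val + k, by have := b.2; omega⟩ rfl
      have h2 : y ⟨a.val + k, by have := b.2; omega⟩ < y b := hy (Fin.lt_def.2 (by simp; omega))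
      omega
  have h' : a.val ≤ b.val := h
  have := this (b.val - a.val) b (by omega)
  omega

theorem idx_le {n : ℕ} {y : Fin n → ℕ} (hy : StrictMono y) (b : Fin n) : b.val ≤ y b := by
  have := gap hy (a := ⟨0, by have := b.2; omega⟩) (b := b) (Fin.le_def.2 (Nat.zero_le _))
  simp only at this
  omega

theorem packed {n : ℕ} {y : Fin n → ℕ} (hy : StrictMono y) (hk : ∑ i, y i + 2 ≤ n.choose 2 + n)
    {r i : Fin n} (hir : i < r) (hi : i.val + r.val ≤ y r) : y i = i.val := by
  by_contra hne
  have h1 : i.val + 1 ≤ y i := by have := idx_le hy i; omega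
  have h2 : ∑ j : Fin n, ((j.val : ℝ) + (if i ≤ j then 1 else 0) +
      (if j = r then (y r : ℝ) - r.val - 1 else 0)) ≤ ∑ j, (y j : ℝ) := by
    refine Finset.sum_le_sum fun j _ => ?_
    by_cases a : j = r
    · subst a; rw [if_pos hir.le, if_pos rfl]; linarith
    · rw [if_neg a, add_zero]
      split_ifs with b
      · have := gap hy b
        have : j.val + 1 ≤ y j := by omega
        exact_mod_cast this
      · have := idx_le hy j
        rw [add_zero]; exact_mod_cast this
  rw [Finset.sum_add_distrib, Finset.sum_add_distrib, sum_fin_cast, Finset.sum_ite_eq',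
    if_pos (mem_univ _), Finset.sum_boole, Finset.filter_le_eq_Ici, Fin.card_Ici,
    Nat.cast_sub i.2.le] at h2
  have h3 : (∑ j, (y j : ℝ)) + 2 ≤ (n.choose 2 : ℕ) + n := by exact_mod_cast hk
  have h4 : (i.val : ℝ) + r.val ≤ y r := by exact_mod_cast hi
  linarith

theorem one_add_sum_le {ι : Type*} (B : Finset ι) (g : ι → ℝ) (hg : ∀ i ∈ B, 0 ≤ g i) :
    1 + ∑ i ∈ B, g i ≤ ∏ i ∈ B, (1 + g i) := by
  classical
  induction B using Finset.induction_on with
  | empty => simp
  | insert a s ha ih =>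
    rw [Finset.sum_insert ha, Finset.prod_insert ha]
    have h1 := ih fun i hi => hg i (Finset.mem_insert_of_mem hi)
    have h2 := hg a (Finset.mem_insert_self a s)
    have h3 : 0 ≤ ∑ i ∈ s, g i := Finset.sum_nonneg fun i hi => hg i (Finset.mem_insert_of_mem hi)
    nlinarith

theorem diag_P {n : ℕ} {x y : Fin n → ℕ} (hx : StrictMono x) (hy : StrictMono y) (h : Rel x y)
    (hk : ∑ i, y i + 2 ≤ n.choose 2 + n) {r : Fin n} (hr : x r = y r + 1) : Pw x r ≤ Pw y r := by
  obtain ⟨a, ha⟩ : ∃ a, y r = r.val + a := ⟨y r - r.val, by have := idx_le hy r; omega⟩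
  set m := r.val with hm
  have xr : (x r : ℝ) = m + a + 1 := by rw [hr, ha]; push_cast; ring
  have yr : (y r : ℝ) = m + a := by rw [ha]; push_cast; ring
  have pk : ∀ i : Fin n, i.val < m → i.val ≤ a → y i = i.val := fun i h1 h2 =>
    packed hy hk (r := r) (Fin.lt_def.2 h1) (by omega)
  have e1 : 1 ≤ ps (dif x y) m := by
    have h1 := ps_succ (dif x y) r
    have h2 := h.2.1 (r.val + 1)
    have h3 : dif x y r = -1 := by unfold dif; rw [xr, yr]; ring
    linarith
  have ham : a + 1 ≤ m := by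
    by_contra hc
    have : ps (dif x y) m ≤ ps (fun _ : Fin n => (0 : ℝ)) m := ps_le_ps fun i hi => by
      have := idx_le hx i
      have h2 : (i.val : ℝ) ≤ x i := by exact_mod_cast this
      unfold dif; rw [pk i hi (by omega)]; linarith
    have h0 : ps (fun _ : Fin n => (0 : ℝ)) m = 0 := by simp [ps]
    linarith
  have hamR : (a : ℝ) + 1 ≤ m := by exact_mod_cast ham
  have a0 : (0 : ℝ) ≤ a := by positivity
  set g : Fin n → ℝ := fun i => ((y i : ℝ) + 1 - x i) / (((y r : ℝ) - y i) * ((x r : ℝ) - x i + 1))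
    with hg
  set φ : ℕ → ℝ := fun t => if t ≤ a then 1 / ((m : ℝ) + a + 2 - t)
    else 1 / ((m : ℝ) + 1) + ((t : ℝ) - a - 1) / (m * (m + 1)) with hφ
  have row : ∀ i : Fin n, i.val < m →
      dif x y i / (m * (m + 1)) + (φ (i.val + 1) - φ i.val) ≤ g i := by
    intro i hi
    have b1 : (x i : ℝ) ≤ y i + 1 := by exact_mod_cast h.1 i
    have b2 : (i.val : ℝ) ≤ x i := by exact_mod_cast idx_le hx i
    have b3 : (y i : ℝ) + 1 ≤ y r := by exact_mod_cast hy (Fin.lt_def.2 hi)
    have b4 : (x i : ℝ) + 1 ≤ x r := by exact_mod_cast hx (Fin.lt_def.2 hi)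
    rcases le_or_gt i.val a with c | c
    · have c' : (i.val : ℝ) ≤ a := by exact_mod_cast c
      have d1 : φ (i.val + 1) - φ i.val =
          1 / (((m : ℝ) + a + 1 - i.val) * ((m : ℝ) + a + 2 - i.val)) := by
        have p1 : (0 : ℝ) < (m : ℝ) + a + 1 - i.val := by linarith
        have p2 : (0 : ℝ) < (m : ℝ) + a + 2 - i.val := by linarith
        have d2 : φ (i.val + 1) = 1 / ((m : ℝ) + a + 1 - i.val) := by
          simp only [hφ]
          split_ifs with q
          · push_cast; ring
          · have : i.val = a := by omega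
            rw [this]; push_cast; ring
        rw [d2]
        simp only [hφ, c, if_true]
        field_simp; ring
      have yi := pk i hi c
      have : x i = i.val ∨ x i = i.val + 1 := by
        have := h.1 i; have := idx_le hx i; omega
      rw [d1]
      simp only [hg, dif, yi, xr, yr]
      rcases this with q | q
      · rw [q, sub_self, zero_div, zero_add, add_sub_cancel_left]
        exact one_div_le_one_div_of_le (mul_pos (by linarith) (by linarith)) (by nlinarith)
      · rw [q]; push_cast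
        rw [sub_self, zero_div, sub_add_cancel_left, neg_div, neg_add_eq_sub, sub_nonpos]
        exact one_div_le_one_div_of_le (mul_pos (by linarith) (by linarith)) (by nlinarith)
    · have c' : (a : ℝ) + 1 ≤ i.val := by exact_mod_cast c
      have d1 : φ (i.val + 1) - φ i.val = 1 / (m * (m + 1)) := by
        simp only [hφ]
        rw [if_neg (by omega), if_neg (by omega)]
        push_cast; ring
      rw [d1, ← add_div]
      simp only [hg, dif]
      rw [show (y i : ℝ) - x i + 1 = y i + 1 - x i by ring]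
      refine div_le_div_of_nonneg_left (by linarith) (mul_pos (by linarith) (by linarith)) ?_
      exact mul_le_mul (by linarith) (by linarith) (by linarith) (by linarith)
  have tele : ∀ t, t ≤ m → ps (dif x y) t / (m * (m + 1)) + (φ t - φ 0) ≤ ps g t := by
    intro t
    induction t with
    | zero => intro _; simp [ps_zero]
    | succ t ih =>
      intro ht
      have h1 := ih (by omega)
      have h2 := row ⟨t, by have := r.2; omega⟩ ht
      have h3 := ps_succ (dif x y) ⟨t, by have := r.2; omega⟩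
      have h4 := ps_succ g ⟨t, by have := r.2; omega⟩
      simp only at h2 h3 h4
      rw [h3, h4, add_div]
      linarith
  have tot : 1 / (x r : ℝ) ≤ ps g m := by
    refine le_trans ?_ (tele m le_rfl)
    have h1 : 1 / ((m : ℝ) * (m + 1)) ≤ ps (dif x y) m / (m * (m + 1)) :=
      div_le_div_of_nonneg_right e1 (by positivity)
    refine le_trans ?_ (add_le_add_left h1 _)
    simp only [hφ]
    rw [if_neg (by omega), if_pos (Nat.zero_le _), xr, ← sub_nonneg]
    obtain ⟨d, hd⟩ : ∃ d : ℝ, (m : ℝ) = a + 1 + d ∧ 0 ≤ d := ⟨m - a - 1, by ring, by linarith⟩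
    rw [hd.1]
    have d0 := hd.2
    push_cast
    have : 1 / ((a + 1 + d) * (a + 1 + d + 1)) + (1 / (a + 1 + d + 1) +
        (a + 1 + d - a - 1) / ((a + 1 + d) * (a + 1 + d + 1)) - 1 / (a + 1 + d + a + 2 - 0)) -
        1 / (a + 1 + d + a + 1) = ((a : ℝ) + 2 + 2 * d) / ((a + 1 + d) * (a + 2 + d)) -
        (4 * a + 5 + 2 * d) / ((2 * a + 3 + d) * (2 * a + 2 + d)) := by
      rw [sub_zero]; field_simp; ring
    rw [this, sub_nonneg, div_le_div_iff₀ (by positivity) (by positivity), ← sub_nonneg]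
    ring_nf
    positivity
  have g0 : ∀ i : Fin n, i.val < m → 0 ≤ g i := fun i hi => by
    have b1 : (x i : ℝ) ≤ y i + 1 := by exact_mod_cast h.1 i
    have b3 : (y i : ℝ) + 1 ≤ y r := by exact_mod_cast hy (Fin.lt_def.2 hi)
    have b4 : (x i : ℝ) + 1 ≤ x r := by exact_mod_cast hx (Fin.lt_def.2 hi)
    exact div_nonneg (by linarith) (mul_nonneg (by linarith) (by linarith))
  have g1 : ∀ i : Fin n, 0 ≤ if i.val < m then g i else 0 := fun i => by
    split_ifs with q; exacts [g0 i q, le_rfl]
  have p1 : fac 1 x r * ∏ i ∈ univ.erase r, (1 + if i.val < m then g i else 0) ≤ fac 1 y r := by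
    unfold fac
    rw [← Finset.prod_mul_distrib]
    refine Finset.prod_le_prod (fun i hi => mul_nonneg (term_nonneg hx (by norm_num) le_rfl
      (Finset.ne_of_mem_erase hi)) (by linarith [g1 i])) fun i hi => ?_
    split_ifs with q
    · have b3 : (y i : ℝ) + 1 ≤ y r := by exact_mod_cast hy (Fin.lt_def.2 q)
      have b4 : (x i : ℝ) + 1 ≤ x r := by exact_mod_cast hx (Fin.lt_def.2 q)
      have p1 : (0 : ℝ) < (y r : ℝ) - y i := by linarith
      have p2 : (0 : ℝ) < (x r : ℝ) - x i := by linarith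
      have p3 : (y i : ℝ) + 1 - x i = ((x r : ℝ) - x i) - ((y r : ℝ) - y i) := by
        rw [xr, yr]; ring
      apply le_of_eq
      simp only [hg]
      rw [p3]
      generalize (x r : ℝ) - x i = B at *
      generalize (y r : ℝ) - y i = A at *
      field_simp; ring
    · have := inv_cmp hx hy h.1 hr (Finset.ne_of_mem_erase hi)
      linarith
  have p2 := one_add_sum_le (univ.erase r) (fun i => if i.val < m then g i else 0)
    fun i _ => g1 i
  have p3 : ∑ i ∈ univ.erase r, (if i.val < m then g i else 0) = ps g m :=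
    Finset.sum_erase _ (if_neg (lt_irrefl _))
  rw [p3] at p2
  have f0 := fac_nonneg hx (σ := 1) (by norm_num) le_rfl r
  have p4 : fac 1 x r * (1 + 1 / (x r : ℝ)) ≤ fac 1 y r :=
    le_trans (mul_le_mul_of_nonneg_left (by linarith) f0) p1
  have x0 : (0 : ℝ) < x r := by rw [xr]; positivity
  unfold Pw
  calc ((x r : ℝ) + 1) * fac 1 x r = x r * (fac 1 x r * (1 + 1 / (x r : ℝ))) := by field_simp
    _ ≤ x r * fac 1 y r := mul_le_mul_of_nonneg_left p4 x0.le
    _ = _ := by rw [xr, yr]

end Pool.Agent.Lib.MP_cb200a_pr
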