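import Pool.Agent.Lib.MP_cb200a_pr.CplChain

set_option autoImplicit false

open Finset

namespace Pool.Agent.Lib.MP_cb200a_pr

theorem compat {m S J : ℕ} {K : ℝ} (hK : K = (S : ℝ) - ((m + 1).choose 2 : ℕ)) (hK0 : 0 < K)
    (hS : S < (m + 1).choose 2 + (m + 1)) (F G : (Fin (m + 1) → ℕ) → ℝ) (M : ℝ)
    (h : ∀ x ∈ St m S (J + 1), ∀ y ∈ St m S J, Rel x y → F x ≤ G y + M)
    {x y : Fin (m + 1) → ℕ} (hx : x ∈ St m S (J + 1)) (hy : y ∈ St m S J) (hr : Rel x y) :
    TT' m S (J + 1) K F x ≤ TT' m S J K G y + M := by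
  obtain ⟨x1, x2, -⟩ := mem_St.1 hx
  obtain ⟨y1, y2, -⟩ := mem_St.1 hy
  have := down_step x2 y2 hr (fun r => UF m S (J + 1) F (dn x r))
    (fun s => UF m S J G (dn y s) + M) fun r s a b c => by
      obtain ⟨a1, a2⟩ := (Qw_pos x2 r).1 a
      obtain ⟨b1, b2⟩ := (Qw_pos y2 s).1 b
      have sa := (sum_dn a1).trans x1
      have sb := (sum_dn b1).trans y1
      have za := Z_pos hx a1
      have zb := Z_pos hy b1
      have va := vdm_pos' a2
      have vb := vdm_pos' b2
      simp only [uw_eq a2 sa, ← Finset.mul_sum] at za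
      simp only [uw_eq b2 sb, ← Finset.mul_sum] at zb
      have za' := (pos_iff_pos_of_mul_pos za).1 va
      have zb' := (pos_iff_pos_of_mul_pos zb).1 vb
      have := up_step a2 b2 c (by omega) za' zb' (fun t => F (up (dn x r) t))
        (fun t => G (up (dn y s) t) + M) fun t u d e f =>
          h _ (uw_pos.1 (by rw [uw_eq a2 sa]; positivity)) _
            (uw_pos.1 (by rw [uw_eq b2 sb]; positivity)) f
      simp only [mul_add, Finset.sum_add_distrib, ← Finset.sum_mul, ← Finset.sum_div,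
        div_self zb'.ne', one_mul] at this
      simp only [UF, uw_eq a2 sa, uw_eq b2 sb, ← Finset.mul_sum, mul_div_mul_left _ _ va.ne',
        mul_div_mul_left _ _ vb.ne']
      exact this
  have e : ∑ s, Qw y s = K := by rw [sum_Qw y2, hK, ← y1]; push_cast; rfl
  simp only [mul_add, Finset.sum_add_distrib, ← Finset.sum_mul, e] at this
  rw [TT'_apply, TT'_apply, div_add' _ _ _ hK0.ne']
  exact div_le_div_of_nonneg_right (by linarith) hK0.le

open Classical in
/-- Total weight of the configurations with sum `S` and top particle at `t`. -/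
noncomputable def Wt (m S t : ℕ) : ℝ :=
  ∑ y ∈ (Finset.Nat.antidiagonalTuple (m + 1) S).filter fun y =>
    StrictMono y ∧ y (Fin.last m) = t, vdm y ^ 2

theorem Wt_nonneg (m S t : ℕ) : 0 ≤ Wt m S t := Finset.sum_nonneg fun _ _ => sq_nonneg _

theorem Wt_ex {m S t : ℕ} (h : Wt m S t ≠ 0) :
    ∃ y : Fin (m + 1) → ℕ, ∑ i, y i = S ∧ StrictMono y ∧ y (Fin.last m) = t := by
  classical
  obtain ⟨y, hy, -⟩ := Finset.exists_ne_zero_of_sum_ne_zero h
  rw [Finset.mem_filter, Finset.Nat.mem_antidiagonalTuple] at hy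
  exact ⟨y, hy⟩

theorem St_top (m S J : ℕ) : ∑ y ∈ St m S J, vdm y ^ 2 *
    (if y (Fin.last m) = J + 1 then 1 else 0) = Wt m S (J + 1) := by
  classical
  unfold St Wt
  simp only [Finset.sum_filter]
  refine Finset.sum_congr rfl fun y _ => ?_
  by_cases a : StrictMono y <;> by_cases b : y (Fin.last m) = J + 1 <;> simp [a, b]

theorem St_all (m S J : ℕ) : ∑ y ∈ St m S J, vdm y ^ 2 = Wt m S J + Wt m S (J + 1) := by
  classical
  unfold St Wt
  simp only [Finset.sum_filter]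
  rw [← Finset.sum_add_distrib]
  refine Finset.sum_congr rfl fun y _ => ?_
  by_cases a : StrictMono y <;> by_cases b : y (Fin.last m) = J + 1 <;>
    by_cases c : y (Fin.last m) = J <;> first | omega | simp [a, b, c]

theorem Wt_logconc {m S : ℕ} (hS : S < (m + 1).choose 2 + (m + 1)) (J : ℕ) :
    Wt m S J * Wt m S (J + 2) ≤ Wt m S (J + 1) ^ 2 := by
  classical
  by_cases h0 : Wt m S J = 0
  · rw [h0, zero_mul]; positivity
  by_cases h2 : Wt m S (J + 2) = 0
  · rw [h2, mul_zero]; positivity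
  have p0 := (Wt_nonneg m S J).lt_of_ne' h0
  have p2 := (Wt_nonneg m S (J + 2)).lt_of_ne' h2
  have p1 := Wt_nonneg m S (J + 1)
  obtain ⟨y0, a1, a2, a3⟩ := Wt_ex h0
  obtain ⟨y2, b1, b2, b3⟩ := Wt_ex h2
  have hJ0 : m ≤ J := by have := idx_le a2 (Fin.last m); rw [Fin.val_last] at this; omega
  have hS1 : (m + 1).choose 2 < S := by
    rw [← sum_idx, ← b1]
    exact Finset.sum_lt_sum (fun i _ => idx_le b2 i) ⟨Fin.last m, mem_univ _, by
      rw [Fin.val_last]; omega⟩
  have hJ : m + 1 ≤ J := by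
    by_contra c
    have : ∑ i, y0 i ≤ ∑ i : Fin (m + 1), i.val := Finset.sum_le_sum fun i _ => by
      have := gap a2 (Fin.le_last i); rw [Fin.val_last] at this; omega
    rw [sum_idx] at this
    omega
  obtain ⟨S, rfl⟩ : ∃ S', S = S' + 1 := ⟨S - 1, by omega⟩
  set K : ℝ := ((S + 1 : ℕ) : ℝ) - ((m + 1).choose 2 : ℕ) with hK
  have hK0 : 0 < K := by rw [hK, sub_pos]; exact_mod_cast hS1
  obtain ⟨F, hF⟩ := poisson (St m (S + 1) (J + 1)) (TT' m (S + 1) (J + 1) K) (fun y => vdm y ^ 2)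
    (stat hK hK0.ne') (by rw [St_all]; linarith) (harm hK hK0 (by omega) hS)
    (fun y => if y (Fin.last m) = J + 1 + 1 then 1 else 0)
  obtain ⟨G, hG⟩ := poisson (St m (S + 1) J) (TT' m (S + 1) J K) (fun y => vdm y ^ 2)
    (stat hK hK0.ne') (by rw [St_all]; linarith) (harm hK hK0 hJ hS)
    (fun y => if y (Fin.last m) = J + 1 then 1 else 0)
  rw [St_top, St_all] at hF hG
  obtain ⟨z, z1, z2, -⟩ := reach (J := J + 1) (by omega) hS (fun _ => True)
    (fun _ _ _ _ _ _ _ _ => trivial) y2 (mem_St.2 ⟨b1, b2, Or.inr b3⟩) trivial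
  have ne : ((St m (S + 1) (J + 1) ×ˢ St m (S + 1) J).filter fun p => Rel p.1 p.2).Nonempty := by
    refine ⟨(z, z), Finset.mem_filter.2 ⟨Finset.mem_product.2 ⟨z1, ?_⟩, fun i => Nat.le_succ _,
      fun t => ?_, rfl⟩⟩
    · exact mem_St.2 ⟨(mem_St.1 z1).1, (mem_St.1 z1).2.1, Or.inr z2.1⟩
    · simp [ps, dif]
  obtain ⟨⟨x, y⟩, hxy, hmax⟩ := Finset.exists_max_image _ (fun p => F p.1 - G p.2) ne
  simp only [Finset.mem_filter, Finset.mem_product] at hxy hmax
  have c1 := compat hK hK0 hS F G (F x - G y) (fun u hu v hv huv => by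
    have := hmax (u, v) ⟨⟨hu, hv⟩, huv⟩
    simp only at this
    linarith) hxy.1.1 hxy.1.2 hxy.2
  have c2 := hF x hxy.1.1
  have c3 := hG y hxy.1.2
  have c4 : (if x (Fin.last m) = J + 1 + 1 then (1 : ℝ) else 0) ≤
      if y (Fin.last m) = J + 1 then 1 else 0 := by
    have := hxy.2.1 (Fin.last m)
    have := (mem_St.1 hxy.1.2).2.2
    split_ifs with a b b
    · exact le_rfl
    · omega
    · exact zero_le_one
    · exact le_rfl
  have c5 : Wt m (S + 1) (J + 1 + 1) / (Wt m (S + 1) (J + 1) + Wt m (S + 1) (J + 1 + 1)) ≤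
      Wt m (S + 1) (J + 1) / (Wt m (S + 1) J + Wt m (S + 1) (J + 1)) := by linarith
  rw [div_le_div_iff₀ (by linarith) (by linarith)] at c5
  nlinarith

theorem num_Wt (m S : ℕ) (w : (Fin (m + 1) → Fin (S + 1)) → ℝ)
    (hw : ∀ h : Fin (m + 1) → Fin (S + 1), w h = ∏ i : Fin (m + 1), ∏ j : Fin (m + 1),
        (if i < j then (((h j : ℕ) : ℝ) - ((h i : ℕ) : ℝ)) ^ 2 else 1)) (t : ℕ) :
    ∑ h ∈ Finset.univ.filter (fun h : Fin (m + 1) → Fin (S + 1) =>
        (∀ a b : Fin (m + 1), a < b → h a < h b) ∧ (∑ i : Fin (m + 1), (h i : ℕ)) = S ∧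
        ((h (Fin.last m) : ℕ) : ℤ) = t), w h = Wt m S t := by
  classical
  unfold Wt
  refine Finset.sum_bij (fun h _ => fun i => (h i : ℕ)) ?_ ?_ ?_ ?_
  · intro h hh
    simp only [Finset.mem_filter, mem_univ, true_and, Finset.Nat.mem_antidiagonalTuple] at hh ⊢
    exact ⟨hh.2.1, fun a b hab => hh.1 a b hab, by exact_mod_cast hh.2.2⟩
  · intro h _ g _ e
    funext i
    exact Fin.ext (congrFun e i)
  · intro y hy
    simp only [Finset.mem_filter, Finset.Nat.mem_antidiagonalTuple] at hy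
    have hlt : ∀ i, y i < S + 1 := fun i => by
      have := Finset.single_le_sum (f := y) (fun _ _ => Nat.zero_le _) (mem_univ i)
      omega
    refine ⟨fun i => ⟨y i, hlt i⟩, ?_, rfl⟩
    simp only [Finset.mem_filter, mem_univ, true_and]
    exact ⟨fun a b hab => hy.2.1 hab, hy.1, by exact_mod_cast hy.2.2⟩
  · intro h _
    rw [hw, vdm_prod, ← Finset.prod_pow]
    refine Finset.prod_congr rfl fun i _ => ?_
    rw [← Finset.prod_pow]
    refine Finset.prod_congr rfl fun j _ => ?_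
    split_ifs <;> simp

end Pool.Agent.Lib.MP_cb200a_pr
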