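import Pool.Agent.Lib.MP_cb200a_pr.CplIneq

set_option autoImplicit false

open Finset

namespace Pool.Agent.Lib.MP_cb200a_pr

theorem up_cast {n : ℕ} (g : Fin n → ℕ) (r i : Fin n) :
    (up g r i : ℝ) = g i + if i = r then 1 else 0 := by
  unfold up
  split_ifs with h
  · subst h; simp
  · simp [Function.update_of_ne h]

theorem dn_cast {n : ℕ} {g : Fin n → ℕ} {r : Fin n} (h0 : 0 < g r) (i : Fin n) :
    (dn g r i : ℝ) = g i - if i = r then 1 else 0 := by
  unfold dn
  split_ifs with h
  · subst h; simp [Nat.cast_sub h0]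
  · simp [Function.update_of_ne h]

theorem up_apply {n : ℕ} (g : Fin n → ℕ) (r i : Fin n) :
    up g r i = if i = r then g i + 1 else g i := by
  unfold up
  split_ifs with h
  · subst h; simp
  · simp [Function.update_of_ne h]

theorem dn_apply {n : ℕ} (g : Fin n → ℕ) (r i : Fin n) :
    dn g r i = if i = r then g i - 1 else g i := by
  unfold dn
  split_ifs with h
  · subst h; simp
  · simp [Function.update_of_ne h]

theorem up_mono {n : ℕ} {g : Fin n → ℕ} (hg : StrictMono g) (r : Fin n) : Monotone (up g r) := by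
  intro a b hab
  rcases hab.eq_or_lt with h | h
  · rw [h]
  · have := hg h
    simp only [up_apply]; split_ifs <;> omega

theorem dn_mono {n : ℕ} {g : Fin n → ℕ} (hg : StrictMono g) (r : Fin n) : Monotone (dn g r) := by
  intro a b hab
  rcases hab.eq_or_lt with h | h
  · rw [h]
  · have := hg h
    simp only [dn_apply]; split_ifs <;> omega

theorem up_dn {n : ℕ} {g : Fin n → ℕ} {r : Fin n} (h : 0 < g r) : up (dn g r) r = g := by
  funext i; simp only [up_apply, dn_apply]; split_ifs with a
  · subst a; omega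
  · rfl

theorem sum_up {n : ℕ} (g : Fin n → ℕ) (r : Fin n) : ∑ i, up g r i = ∑ i, g i + 1 := by
  have := sum_update g r (g r + 1); unfold up; omega

theorem sum_dn {n : ℕ} {g : Fin n → ℕ} {r : Fin n} (h : 0 < g r) :
    ∑ i, dn g r i + 1 = ∑ i, g i := by
  have := sum_update g r (g r - 1); unfold dn; omega

theorem rel_move {n : ℕ} {x y x' y' : Fin n → ℕ} (h : Rel x y) (a b : Fin n)
    (hd : ∀ i, dif x' y' i = dif x y i - (if i = a then 1 else 0) + (if i = b then 1 else 0))
    (hab : a = b ∨ (x a ≠ y a + 1 ∧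
      ∀ ρ, ps (dif x y) ρ = 0 → a.val < ρ → b.val < ρ)) : Rel x' y' := by
  have key : ∀ t, ps (dif x' y') t = ps (dif x y) t - (if a.val < t then 1 else 0) +
      (if b.val < t then 1 else 0) := by
    intro t
    have e : ∀ c : Fin n, (if c.val < t then (1 : ℝ) else 0) =
        ∑ i : Fin n, if i = c then (if i.val < t then 1 else 0) else 0 := fun c => by
      rw [Finset.sum_ite_eq', if_pos (mem_univ _)]
    rw [e a, e b]
    unfold ps
    rw [← Finset.sum_sub_distrib, ← Finset.sum_add_distrib]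
    refine Finset.sum_congr rfl fun i _ => ?_
    rw [hd i]; split_ifs <;> simp
  refine ⟨fun i => ?_, fun t => ?_, ?_⟩
  · have h1 := hd i
    have h2 : (x i : ℝ) ≤ y i + 1 := by exact_mod_cast h.1 i
    have : (x' i : ℝ) ≤ y' i + 1 := by
      unfold dif at h1
      rcases hab with e | e
      · subst e; linarith
      · by_cases c : i = a
        · subst c
          have h3 : x i ≤ y i := by have := h.1 i; have := e.1; omega
          have h4 : (x i : ℝ) ≤ y i := by exact_mod_cast h3
          rw [if_pos rfl] at h1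
          split_ifs at h1 <;> linarith
        · rw [if_neg c] at h1
          split_ifs at h1 <;> linarith
    exact_mod_cast this
  · rw [key]
    have h1 := h.2.1 t
    rcases hab with e | e
    · subst e; linarith
    · split_ifs with c d d
      · linarith
      · have h2 : ps (dif x y) t ≠ 0 := fun z => d (e.2 t z c)
        have h3 : ps (dif x y) t =
            ((∑ i : Fin n, if i.val < t then ((y i : ℤ) - x i) else 0 : ℤ) : ℝ) := by
          unfold ps dif; push_cast; rfl
        rw [h3] at h1 h2 ⊢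
        generalize (∑ i : Fin n, if i.val < t then ((y i : ℤ) - x i) else 0 : ℤ) = z at *
        have h4 : 0 ≤ z := by exact_mod_cast h1
        have h5 : z ≠ 0 := by exact_mod_cast h2
        have h6 : (1 : ℤ) ≤ z := by omega
        have h7 : (1 : ℝ) ≤ z := by exact_mod_cast h6
        linarith
      · linarith
      · linarith
  · have h1 := key n
    rw [if_pos a.2, if_pos b.2, h.tot, ps_top _ le_rfl] at h1
    unfold dif at h1
    rw [Finset.sum_sub_distrib] at h1
    have : ∑ i, (x' i : ℝ) = ∑ i, (y' i : ℝ) := by linarith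
    exact_mod_cast this

theorem Qw_pos {n : ℕ} {x : Fin n → ℕ} (hx : StrictMono x) (r : Fin n) :
    0 < Qw x r ↔ 0 < x r ∧ StrictMono (dn x r) := by
  have e := vdm_dn_eq hx r
  have v := vdm_pos' hx
  constructor
  · intro h
    have : (x r : ℝ) * vdm (dn x r) ≠ 0 := by rw [e]; positivity
    refine ⟨Nat.pos_of_ne_zero fun z => this (by simp [z]), strict_of_vdm (dn_mono hx r) ?_⟩
    exact right_ne_zero_of_mul this
  · rintro ⟨h1, h2⟩
    have : 0 < vdm x * Qw x r := by
      rw [← e]; exact mul_pos (by exact_mod_cast h1) (vdm_pos' h2)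
    exact (pos_iff_pos_of_mul_pos this).1 v

/-- The coupled down step. -/
theorem down_step {n : ℕ} {x y : Fin n → ℕ} (hx : StrictMono x) (hy : StrictMono y)
    (h : Rel x y) (φ ψ : Fin n → ℝ)
    (hc : ∀ r s, 0 < Qw x r → 0 < Qw y s → Rel (dn x r) (dn y s) → φ r ≤ ψ s) :
    ∑ r, Qw x r * φ r ≤ ∑ s, Qw y s * ψ s := by
  have hs : ∑ i, (x i : ℝ) = ∑ i, (y i : ℝ) := by exact_mod_cast h.2.2
  have mv : ∀ r s, 0 < Qw x r → 0 < Qw y s → ∀ i, dif (dn x r) (dn y s) i =
      dif x y i - (if i = s then 1 else 0) + (if i = r then 1 else 0) := by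
    intro r s a b i
    unfold dif
    rw [dn_cast ((Qw_pos hx r).1 a).1, dn_cast ((Qw_pos hy s).1 b).1]; ring
  have := step_le (fun s => x s = y s + 1) (fun ρ => ps (dif x y) ρ = 0) h.tot (Qw y) (Qw x)
    (fun s => -ψ s) (fun r => -φ r) (Qw_nonneg hy) (Qw_nonneg hx)
    (by rw [sum_Qw hx, sum_Qw hy, hs]) (fun r hr => diag_Q hx hy h.1 hr)
    (fun ρ hρ => (cut hx hy h hρ).2)
    (fun r a b => neg_le_neg (hc r r b a (rel_move h r r (mv r r b a) (Or.inl rfl))))
    (fun s r a b c d => neg_le_neg (hc r s b a (rel_move h s r (mv r s b a) (Or.inr ⟨c, d⟩))))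
  simp only [mul_neg, Finset.sum_neg_distrib] at this
  linarith

/-- Up weights restricted by the constraint on the top particle. -/
noncomputable def aw {m : ℕ} (J : ℕ) (g : Fin (m + 1) → ℕ) (r : Fin (m + 1)) : ℝ :=
  if up g r (Fin.last m) = J ∨ up g r (Fin.last m) = J + 1 then Pw g r else 0

theorem aw_nonneg {m : ℕ} (J : ℕ) {g : Fin (m + 1) → ℕ} (hg : StrictMono g) (r : Fin (m + 1)) :
    0 ≤ aw J g r := by
  unfold aw; split_ifs; exacts [Pw_nonneg hg r, le_rfl]

theorem aw_ne {m : ℕ} (J : ℕ) (g : Fin (m + 1) → ℕ) {r : Fin (m + 1)} (h : r ≠ Fin.last m) :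
    aw J g r = if g (Fin.last m) = J ∨ g (Fin.last m) = J + 1 then Pw g r else 0 := by
  unfold aw; rw [up_apply, if_neg h.symm]

theorem aw_last {m : ℕ} (J : ℕ) (g : Fin (m + 1) → ℕ) :
    aw J g (Fin.last m) = if g (Fin.last m) + 1 = J ∨ g (Fin.last m) = J
      then Pw g (Fin.last m) else 0 := by
  unfold aw; rw [up_apply, if_pos rfl]; simp

theorem aw_top {m : ℕ} {J : ℕ} {g : Fin (m + 1) → ℕ} (h : 0 < ∑ r, aw J g r) :
    J ≤ g (Fin.last m) + 1 ∧ g (Fin.last m) ≤ J + 1 := by
  by_contra hc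
  refine h.ne' (Finset.sum_eq_zero fun r _ => ?_)
  by_cases a : r = Fin.last m
  · rw [a, aw_last, if_neg (by omega)]
  · rw [aw_ne J g a, if_neg (by omega)]

theorem ps_div {n : ℕ} (p : Fin n → ℝ) (Z : ℝ) (t : ℕ) : ps (fun i => p i / Z) t = ps p t / Z := by
  unfold ps
  rw [Finset.sum_div]
  exact Finset.sum_congr rfl fun i _ => by split_ifs <;> simp

/-- The coupled up step. -/
theorem up_step {m J : ℕ} {x y : Fin (m + 1) → ℕ} (hx : StrictMono x) (hy : StrictMono y)
    (h : Rel x y) (hk : ∑ i, y i + 2 ≤ (m + 1).choose 2 + (m + 1))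
    (zx : 0 < ∑ r, aw (J + 1) x r) (zy : 0 < ∑ r, aw J y r) (φ ψ : Fin (m + 1) → ℝ)
    (hc : ∀ r s, 0 < aw (J + 1) x r → 0 < aw J y s → Rel (up x r) (up y s) → φ r ≤ ψ s) :
    ∑ r, aw (J + 1) x r / (∑ r, aw (J + 1) x r) * φ r ≤
      ∑ s, aw J y s / (∑ s, aw J y s) * ψ s := by
  set Za := ∑ r, aw (J + 1) x r with hZa
  set Zb := ∑ r, aw J y r with hZb
  have hs : ∑ i, (x i : ℝ) = ∑ i, (y i : ℝ) := by exact_mod_cast h.2.2
  have mv : ∀ r s i, dif (up x r) (up y s) i =
      dif x y i - (if i = r then 1 else 0) + (if i = s then 1 else 0) := by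
    intro r s i
    unfold dif
    rw [up_cast, up_cast]; ring
  have sa : ∑ r, aw (J + 1) x r / Za = 1 := by rw [← Finset.sum_div, div_self zx.ne']
  have sb : ∑ r, aw J y r / Zb = 1 := by rw [← Finset.sum_div, div_self zy.ne']
  have pa : ∀ r, 0 ≤ aw (J + 1) x r / Za := fun r => div_nonneg (aw_nonneg _ hx r) zx.le
  have pb : ∀ r, 0 ≤ aw J y r / Zb := fun r => div_nonneg (aw_nonneg _ hy r) zy.le
  have t1 := aw_top zx
  have t2 := aw_top zy
  have t3 := h.1 (Fin.last m)
  have t4 : y (Fin.last m) ≤ x (Fin.last m) := by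
    have e1 := ps_succ (dif x y) (Fin.last m)
    have e2 := h.2.1 (Fin.last m).val
    rw [Fin.val_last, h.tot] at e1
    rw [Fin.val_last] at e2
    have : (y (Fin.last m) : ℝ) ≤ x (Fin.last m) := by unfold dif at e1 e2; linarith
    exact_mod_cast this
  have ne_of : ∀ {ρ : ℕ} {i : Fin (m + 1)}, ρ < m + 1 → i.val < ρ → i ≠ Fin.last m :=
    fun a b c => by rw [c, Fin.val_last] at b; omega
  have main : (∀ r, x r = y r + 1 → aw (J + 1) x r / Za ≤ aw J y r / Zb) ∧
      ∀ ρ, ρ < m + 1 → ps (dif x y) ρ = 0 →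
        ps (fun r => aw (J + 1) x r / Za) ρ ≤ ps (fun r => aw J y r / Zb) ρ := by
    by_cases c : x (Fin.last m) = J
    · have a0 : ∀ r, r ≠ Fin.last m → aw (J + 1) x r / Za = 0 := fun r hr => by
        rw [aw_ne _ _ hr, if_neg (by omega), zero_div]
      refine ⟨fun r hr => ?_, fun ρ a _ => ps_le_ps fun i hi => ?_⟩
      · by_cases d : r = Fin.last m
        · subst d
          have b1 : aw J y (Fin.last m) / Zb = 1 := by
            rw [← sb]; symm
            refine Finset.sum_eq_single _ (fun i _ hi => ?_) (by simp)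
            rw [aw_ne _ _ hi, if_neg (by omega), zero_div]
          rw [b1, ← sa]
          exact Finset.single_le_sum (fun i _ => pa i) (mem_univ _)
        · rw [a0 r d]; exact pb r
      · rw [a0 i (ne_of a hi)]; exact pb i
    · have a1 : ∀ r, r ≠ Fin.last m → aw (J + 1) x r = Pw x r := fun r hr => by
        rw [aw_ne _ _ hr, if_pos (by omega)]
      have b1 : ∀ r, r ≠ Fin.last m → aw J y r = Pw y r := fun r hr => by
        rw [aw_ne _ _ hr, if_pos (by omega)]
      have zz : Zb ≤ Za := by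
        have e1 : Za = ∑ r, Pw x r - (Pw x (Fin.last m) - aw (J + 1) x (Fin.last m)) := by
          rw [hZa, Fin.sum_univ_castSucc, Fin.sum_univ_castSucc (Pw x),
            Finset.sum_congr rfl fun i _ => a1 _ (Fin.castSucc_lt_last i).ne]; ring
        have e2 : Zb = ∑ r, Pw y r - (Pw y (Fin.last m) - aw J y (Fin.last m)) := by
          rw [hZb, Fin.sum_univ_castSucc, Fin.sum_univ_castSucc (Pw y),
            Finset.sum_congr rfl fun i _ => b1 _ (Fin.castSucc_lt_last i).ne]; ring
        rw [e1, e2, sum_Pw hx, sum_Pw hy, hs, aw_last, aw_last]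
        have n1 := Pw_nonneg hy (Fin.last m)
        by_cases d : x (Fin.last m) = J + 1
        · rw [if_pos (Or.inr d)]
          split_ifs <;> linarith
        · rw [if_neg (by omega), if_neg (by omega)]
          have := diag_P hx hy h hk (r := Fin.last m) (by omega)
          linarith
      refine ⟨fun r hr => ?_, fun ρ a b => ?_⟩
      · refine div_le_div₀ (aw_nonneg _ hy r) ?_ zy zz
        have := diag_P hx hy h hk hr
        by_cases d : r = Fin.last m
        · subst d
          rw [aw_last, aw_last]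
          by_cases d : x (Fin.last m) = J + 1
          · rw [if_pos (Or.inr d), if_pos (by omega)]; exact this
          · rw [if_neg (by omega), if_neg (by omega)]
        · rw [a1 r d, b1 r d]; exact this
      · rw [ps_div, ps_div]
        have e1 : ps (aw (J + 1) x) ρ ≤ ps (Pw x) ρ := ps_le_ps fun i hi => (a1 i (ne_of a hi)).le
        have e2 : ps (Pw y) ρ ≤ ps (aw J y) ρ := ps_le_ps fun i hi => (b1 i (ne_of a hi)).ge
        refine div_le_div₀ (Finset.sum_nonneg fun i _ => ?_)
          (e1.trans ((cut hx hy h b).1.trans e2)) zy zz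
        split_ifs; exacts [aw_nonneg _ hy i, le_rfl]
  have pos : ∀ {u Z : ℝ}, 0 < Z → 0 < u / Z → 0 < u := fun a b => (div_pos_iff_of_pos_right a).1 b
  refine step_le (fun s => x s = y s + 1) (fun ρ => ps (dif x y) ρ = 0) h.tot _ _ φ ψ pa pb
    (by rw [sa, sb]) main.1 (fun ρ hρ => ?_)
    (fun r a b => hc r r (pos zx a) (pos zy b) (rel_move h r r (mv r r) (Or.inl rfl)))
    (fun r s a b c d => hc r s (pos zx a) (pos zy b) (rel_move h r s (mv r s) (Or.inr ⟨c, d⟩)))
  rcases lt_or_ge ρ (m + 1) with a | a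
  · exact main.2 ρ a hρ
  · rw [ps_top _ a, ps_top _ a, sa, sb]

end Pool.Agent.Lib.MP_cb200a_pr
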