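import Pool.Agent.Lib.MP_cb200a_pr.Ops
import Pool.Agent.Lib.MP_cb200a_pr.CplAbs

set_option autoImplicit false

open Finset

namespace Pool.Agent.Lib.MP_cb200a_pr

/-- Move particle `i` one step up. -/
def up {n : ℕ} (y : Fin n → ℕ) (i : Fin n) : Fin n → ℕ := Function.update y i (y i + 1)

/-- Move particle `i` one step down. -/
def dn {n : ℕ} (y : Fin n → ℕ) (i : Fin n) : Fin n → ℕ := Function.update y i (y i - 1)

noncomputable def fac {n : ℕ} (σ : ℝ) (y : Fin n → ℕ) (r : Fin n) : ℝ :=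
  ∏ i ∈ univ.erase r, (1 + σ / ((y r : ℝ) - y i))

noncomputable def Pw {n : ℕ} (y : Fin n → ℕ) (r : Fin n) : ℝ := ((y r : ℝ) + 1) * fac 1 y r

noncomputable def Qw {n : ℕ} (y : Fin n → ℕ) (r : Fin n) : ℝ := (y r : ℝ) * fac (-1) y r

theorem vdm_prod {n : ℕ} (y : Fin n → ℕ) :
    vdm y = ∏ i, ∏ j, (if i < j then ((y j : ℝ) - y i) else 1) := by
  unfold vdm
  rw [Matrix.det_vandermonde]
  refine Finset.prod_congr rfl fun i _ => ?_
  rw [← Finset.prod_filter, Finset.filter_lt_eq_Ioi]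

theorem vdm_pos' {n : ℕ} {y : Fin n → ℕ} (hy : StrictMono y) : 0 < vdm y := by
  rw [vdm_prod]
  refine Finset.prod_pos fun i _ => Finset.prod_pos fun j _ => ?_
  split_ifs with h
  · have : (y i : ℝ) < y j := by exact_mod_cast hy h
    linarith
  · exact one_pos

theorem vdm_nonneg' {n : ℕ} {y : Fin n → ℕ} (hy : Monotone y) : 0 ≤ vdm y := by
  rw [vdm_prod]
  refine Finset.prod_nonneg fun i _ => Finset.prod_nonneg fun j _ => ?_
  split_ifs with h
  · have : (y i : ℝ) ≤ y j := by exact_mod_cast hy h.le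
    linarith
  · exact zero_le_one

theorem strict_of_vdm {n : ℕ} {y : Fin n → ℕ} (hy : Monotone y) (h : vdm y ≠ 0) :
    StrictMono y := by
  refine hy.strictMono_of_injective fun a b hab => ?_
  have := Matrix.det_vandermonde_ne_zero_iff.1 h
  exact this (by simp [hab])

theorem vdm_split {n : ℕ} (y : Fin n → ℕ) (r : Fin n) :
    vdm y = (∏ i ∈ univ.erase r, ∏ j ∈ univ.erase r, (if i < j then ((y j : ℝ) - y i) else 1)) *
      ∏ i ∈ univ.erase r, ((if i < r then (1 : ℝ) else -1) * ((y r : ℝ) - y i)) := by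
  rw [vdm_prod, ← Finset.mul_prod_erase univ _ (mem_univ r),
    ← Finset.mul_prod_erase univ _ (mem_univ r), if_neg (lt_irrefl r), one_mul,
    ← Finset.prod_mul_distrib, ← Finset.prod_mul_distrib]
  refine Finset.prod_congr rfl fun i hi => ?_
  rw [← Finset.mul_prod_erase univ _ (mem_univ r)]
  rcases lt_or_gt_of_ne (Finset.ne_of_mem_erase hi) with h | h
  · rw [if_pos h, if_pos h, if_neg h.not_gt]; ring
  · rw [if_pos h, if_neg h.not_gt, if_neg h.not_gt]; ring

theorem vdm_update {n : ℕ} {y : Fin n → ℕ} (hy : Function.Injective y) (r : Fin n) (v : ℕ)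
    (σ : ℝ) (hv : (v : ℝ) = y r + σ) : vdm (Function.update y r v) = vdm y * fac σ y r := by
  rw [vdm_split _ r, vdm_split y r, mul_assoc]
  refine congrArg₂ (fun a b : ℝ => a * b) ?_ ?_
  · refine Finset.prod_congr rfl fun i hi => Finset.prod_congr rfl fun j hj => ?_
    rw [Function.update_of_ne (Finset.ne_of_mem_erase hi),
      Function.update_of_ne (Finset.ne_of_mem_erase hj)]
  · rw [fac, ← Finset.prod_mul_distrib]
    refine Finset.prod_congr rfl fun i hi => ?_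
    have h1 := Finset.ne_of_mem_erase hi
    have h2 : (y r : ℝ) - y i ≠ 0 := by
      rw [sub_ne_zero]; exact_mod_cast fun h => h1 (hy h).symm
    rw [Function.update_of_ne h1, Function.update_self, hv]
    field_simp
    ring

theorem vdm_up_eq {n : ℕ} {y : Fin n → ℕ} (hy : StrictMono y) (r : Fin n) :
    ((y r : ℝ) + 1) * vdm (up y r) = vdm y * Pw y r := by
  rw [up, vdm_update hy.injective r _ 1 (by push_cast; ring), Pw]; ring

theorem vdm_dn_eq {n : ℕ} {y : Fin n → ℕ} (hy : StrictMono y) (r : Fin n) :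
    (y r : ℝ) * vdm (dn y r) = vdm y * Qw y r := by
  rcases Nat.eq_zero_or_pos (y r) with h | h
  · simp [Qw, h]
  · rw [dn, vdm_update hy.injective r _ (-1) (by rw [Nat.cast_sub h]; push_cast; ring), Qw]; ring

theorem sum_Pw {n : ℕ} {y : Fin n → ℕ} (hy : StrictMono y) :
    ∑ r, Pw y r = (∑ i, (y i : ℝ)) - (n.choose 2 : ℕ) + (n : ℝ) ^ 2 := by
  have h := vdm_up y
  simp only [show ∀ r, Function.update y r (y r + 1) = up y r from fun _ => rfl] at h
  simp only [vdm_up_eq hy, ← Finset.mul_sum] at h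
  rw [mul_comm] at h
  have := mul_right_cancel₀ (vdm_pos' hy).ne' h
  rw [this]; push_cast; rfl

theorem sum_Qw {n : ℕ} {y : Fin n → ℕ} (hy : StrictMono y) :
    ∑ r, Qw y r = (∑ i, (y i : ℝ)) - (n.choose 2 : ℕ) := by
  have h := vdm_down y
  simp only [show ∀ r, Function.update y r (y r - 1) = dn y r from fun _ => rfl] at h
  simp only [vdm_dn_eq hy, ← Finset.mul_sum] at h
  rw [mul_comm] at h
  have := mul_right_cancel₀ (vdm_pos' hy).ne' h
  rw [this]; push_cast; rfl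

theorem term_nonneg {n : ℕ} {y : Fin n → ℕ} (hy : StrictMono y) {σ : ℝ} (h1 : -1 ≤ σ) (h2 : σ ≤ 1)
    {r i : Fin n} (h : i ≠ r) : 0 ≤ 1 + σ / ((y r : ℝ) - y i) := by
  rcases lt_or_gt_of_ne h with h | h
  · have : (y i : ℝ) + 1 ≤ y r := by exact_mod_cast hy h
    have : -1 ≤ σ / ((y r : ℝ) - y i) := by rw [le_div_iff₀ (by linarith)]; linarith
    linarith
  · have : (y r : ℝ) + 1 ≤ y i := by exact_mod_cast hy h
    have : -1 ≤ σ / ((y r : ℝ) - y i) := by rw [le_div_iff_of_neg (by linarith)]; linarith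
    linarith

theorem fac_nonneg {n : ℕ} {y : Fin n → ℕ} (hy : StrictMono y) {σ : ℝ} (h1 : -1 ≤ σ) (h2 : σ ≤ 1)
    (r : Fin n) : 0 ≤ fac σ y r :=
  Finset.prod_nonneg fun _ hi => term_nonneg hy h1 h2 (Finset.ne_of_mem_erase hi)

theorem Pw_nonneg {n : ℕ} {y : Fin n → ℕ} (hy : StrictMono y) (r : Fin n) : 0 ≤ Pw y r :=
  mul_nonneg (by positivity) (fac_nonneg hy (by norm_num) le_rfl r)

theorem Qw_nonneg {n : ℕ} {y : Fin n → ℕ} (hy : StrictMono y) (r : Fin n) : 0 ≤ Qw y r :=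
  mul_nonneg (by positivity) (fac_nonneg hy le_rfl (by norm_num) r)

theorem prod_le_of_sum {ι : Type*} (B : Finset ι) (a b t : ι → ℝ) (ha : ∀ i ∈ B, 0 ≤ a i)
    (hb : ∀ i ∈ B, 0 ≤ b i) (h : ∀ i ∈ B, a i ≤ b i * (1 + t i)) (ht : ∑ i ∈ B, t i ≤ 0) :
    ∏ i ∈ B, a i ≤ ∏ i ∈ B, b i := by
  calc ∏ i ∈ B, a i ≤ ∏ i ∈ B, (b i * Real.exp (t i)) :=
        Finset.prod_le_prod ha fun i hi => (h i hi).trans
          (mul_le_mul_of_nonneg_left (by linarith [Real.add_one_le_exp (t i)]) (hb i hi))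
    _ = (∏ i ∈ B, b i) * Real.exp (∑ i ∈ B, t i) := by
        rw [Finset.prod_mul_distrib, Real.exp_sum]
    _ ≤ (∏ i ∈ B, b i) * 1 :=
        mul_le_mul_of_nonneg_left (Real.exp_le_one_iff.2 ht) (Finset.prod_nonneg hb)
    _ = _ := mul_one _

/-- `E` is majorised by `D` on `B`, in dual form. -/
def Maj {ι : Type*} (B : Finset ι) (D E : ι → ℝ) : Prop :=
  ∀ c : ι → ℝ, (∀ i ∈ B, ∀ j ∈ B, E i ≤ E j → c i ≤ c j) → ∑ i ∈ B, (E i - D i) * c i ≤ 0

theorem Maj.conv {ι : Type*} {B : Finset ι} {D E : ι → ℝ} (h : Maj B D E)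
    (hD : ∀ i ∈ B, 1 ≤ D i) (hE : ∀ i ∈ B, 1 ≤ E i) :
    ∏ i ∈ B, (1 + 1 / E i) ≤ ∏ i ∈ B, (1 + 1 / D i) := by
  refine prod_le_of_sum B _ _ (fun i => (E i - D i) * (-(1 / (E i * (E i + 1))))) ?_ ?_ ?_ ?_
  · intro i hi; have := hE i hi; positivity
  · intro i hi; have := hD i hi; positivity
  · intro i hi
    have h1 := hD i hi
    have h2 := hE i hi
    rw [← sub_nonneg]
    have : (1 + 1 / D i) * (1 + (E i - D i) * (-(1 / (E i * (E i + 1))))) - (1 + 1 / E i) =
        (E i - D i) ^ 2 / (D i * E i * (E i + 1)) := by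
      field_simp; ring
    rw [this]; positivity
  · refine h _ fun i hi j hj hij => ?_
    have h1 := hE i hi
    rw [neg_le_neg_iff]
    exact one_div_le_one_div_of_le (by positivity) (by nlinarith)

theorem Maj.conc {ι : Type*} {B : Finset ι} {D E : ι → ℝ} (h : Maj B D E)
    (hD : ∀ i ∈ B, 1 ≤ D i) (hE : ∀ i ∈ B, 1 ≤ E i) :
    ∏ i ∈ B, (1 - 1 / D i) ≤ ∏ i ∈ B, (1 - 1 / E i) := by
  have nn : ∀ v : ℝ, 1 ≤ v → 0 ≤ 1 - 1 / v := fun v hv => by
    have : 1 / v ≤ 1 := by rw [div_le_one (by linarith)]; exact hv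
    linarith
  by_cases h0 : ∃ i ∈ B, E i ≤ 1
  · obtain ⟨i0, hi0, hE0⟩ := h0
    have h1 := h (fun i => if E i ≤ 1 then -1 else 0) fun i _ j _ hij => by
      split_ifs with a b b
      · exact le_rfl
      · norm_num
      · exact absurd (hij.trans b) a
      · exact le_rfl
    have h2 : ∀ i ∈ B, 0 ≤ (E i - D i) * (if E i ≤ 1 then (-1 : ℝ) else 0) := fun i hi => by
      split_ifs with a
      · linarith [hD i hi]
      · simp
    have h3 := Finset.single_le_sum h2 hi0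
    simp only [hE0, if_true] at h3
    have h4 : D i0 = 1 := by linarith [hD i0 hi0, hE i0 hi0]
    rw [Finset.prod_eq_zero hi0 (by rw [h4]; norm_num)]
    exact Finset.prod_nonneg fun i hi => nn _ (hE i hi)
  · push Not at h0
    refine prod_le_of_sum B _ _ (fun i => (E i - D i) * (-(1 / (E i * (E i - 1))))) ?_ ?_ ?_ ?_
    · intro i hi; exact nn _ (hD i hi)
    · intro i hi; exact nn _ (hE i hi)
    · intro i hi
      have h1 := hD i hi
      have h2 := h0 i hi
      have h3 : 0 < E i - 1 := by linarith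
      rw [← sub_nonneg]
      have : (1 - 1 / E i) * (1 + (E i - D i) * (-(1 / (E i * (E i - 1))))) - (1 - 1 / D i) =
          (E i - D i) ^ 2 / (D i * E i * E i) := by
        field_simp; ring
      rw [this]; positivity
    · refine h _ fun i hi j hj hij => ?_
      have h1 := h0 i hi
      have h3 : 0 < E i - 1 := by linarith
      rw [neg_le_neg_iff]
      exact one_div_le_one_div_of_le (by positivity) (by nlinarith)

theorem fac_cmp {n : ℕ} {x z : Fin n → ℕ} (hz : StrictMono z) {σ : ℝ}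
    (h1 : -1 ≤ σ) (h2 : σ ≤ 1) (B : Finset (Fin n)) {r : Fin n} (hr : r ∉ B)
    (hB : ∀ i, i ∉ B → x i = z i)
    (h : ∏ i ∈ B, (1 + σ / ((x r : ℝ) - x i)) ≤ ∏ i ∈ B, (1 + σ / ((z r : ℝ) - z i))) :
    fac σ x r ≤ fac σ z r := by
  have hs : B ⊆ univ.erase r := fun i hi =>
    Finset.mem_erase.2 ⟨fun e => hr (e ▸ hi), mem_univ _⟩
  unfold fac
  rw [← Finset.prod_sdiff hs, ← Finset.prod_sdiff hs]
  have : ∏ i ∈ univ.erase r \ B, (1 + σ / ((x r : ℝ) - x i)) =
      ∏ i ∈ univ.erase r \ B, (1 + σ / ((z r : ℝ) - z i)) :=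
    Finset.prod_congr rfl fun i hi => by rw [hB r hr, hB i (Finset.mem_sdiff.1 hi).2]
  rw [this]
  exact mul_le_mul_of_nonneg_left h (Finset.prod_nonneg fun i hi =>
    term_nonneg hz h1 h2 (Finset.ne_of_mem_erase (Finset.mem_sdiff.1 hi).1))

theorem block_above {n : ℕ} {x z : Fin n → ℕ} (hx : StrictMono x) (hz : StrictMono z)
    (e : Fin n → ℝ) {lo hi : ℕ} (hl : lo ≤ hi) (hlo : ps e lo = 0) (hhi : ps e hi = 0)
    (hp : ∀ t, 0 ≤ ps e t) (he : ∀ i ∈ blk n lo hi, (z i : ℝ) - x i = e i)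
    (hB : ∀ i, i ∉ blk n lo hi → x i = z i) {r : Fin n} (hr : hi ≤ r.val) :
    fac 1 z r ≤ fac 1 x r ∧ fac (-1) x r ≤ fac (-1) z r := by
  have hrB : r ∉ blk n lo hi := fun h => by have := (mem_blk.1 h).2; omega
  have hM : Maj (blk n lo hi) (fun i => (x r : ℝ) - x i) (fun i => (z r : ℝ) - z i) := by
    intro c hc
    have := abel_block e (fun i => -c i) hl hlo hhi hp fun i j a b d => by
      have hij : i.val ≤ j.val := b
      have : (z i : ℝ) ≤ z j := by exact_mod_cast hz.monotone b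
      exact neg_le_neg (hc j (mem_blk.2 ⟨by omega, d⟩) i (mem_blk.2 ⟨a, by omega⟩) (by linarith))
    refine le_of_eq_of_le (Finset.sum_congr rfl fun i hi => ?_) this
    rw [← he i hi, hB r hrB]; ring
  have lt : ∀ {w : Fin n → ℕ}, StrictMono w → ∀ i ∈ blk n lo hi, (1 : ℝ) ≤ (w r : ℝ) - w i := by
    intro w hw i hi
    have h1 : i < r := by have := (mem_blk.1 hi).2; exact Fin.lt_def.2 (by omega)
    have : (w i : ℝ) + 1 ≤ w r := by exact_mod_cast hw h1
    linarith
  constructor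
  · exact fac_cmp hx (by norm_num) le_rfl _ hrB (fun i hi => (hB i hi).symm)
      (hM.conv (lt hx) (lt hz))
  · refine fac_cmp hz le_rfl (by norm_num) _ hrB hB ?_
    have := hM.conc (lt hx) (lt hz)
    simpa only [neg_div, ← sub_eq_add_neg] using this

theorem block_below {n : ℕ} {x z : Fin n → ℕ} (hx : StrictMono x) (hz : StrictMono z)
    (e : Fin n → ℝ) {lo hi : ℕ} (hl : lo ≤ hi) (hlo : ps e lo = 0) (hhi : ps e hi = 0)
    (hp : ∀ t, 0 ≤ ps e t) (he : ∀ i ∈ blk n lo hi, (z i : ℝ) - x i = e i)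
    (hB : ∀ i, i ∉ blk n lo hi → x i = z i) {r : Fin n} (hr : r.val < lo) :
    fac 1 x r ≤ fac 1 z r ∧ fac (-1) z r ≤ fac (-1) x r := by
  have hrB : r ∉ blk n lo hi := fun h => by have := (mem_blk.1 h).1; omega
  have hM : Maj (blk n lo hi) (fun i => (x i : ℝ) - x r) (fun i => (z i : ℝ) - z r) := by
    intro c hc
    have := abel_block e c hl hlo hhi hp fun i j a b d => by
      have hij : i.val ≤ j.val := b
      have : (z i : ℝ) ≤ z j := by exact_mod_cast hz.monotone b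
      exact hc i (mem_blk.2 ⟨a, by omega⟩) j (mem_blk.2 ⟨by omega, d⟩) (by linarith)
    refine le_of_eq_of_le (Finset.sum_congr rfl fun i hi => ?_) this
    rw [← he i hi, hB r hrB]; ring
  have lt : ∀ {w : Fin n → ℕ}, StrictMono w → ∀ i ∈ blk n lo hi, (1 : ℝ) ≤ (w i : ℝ) - w r := by
    intro w hw i hi
    have h1 : r < i := by have := (mem_blk.1 hi).1; exact Fin.lt_def.2 (by omega)
    have : (w r : ℝ) + 1 ≤ w i := by exact_mod_cast hw h1
    linarith
  have fl : ∀ (σ a b : ℝ), 1 + σ / (a - b) = 1 + (-σ) / (b - a) := fun σ a b => by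
    rw [← neg_sub a b, neg_div_neg_eq]
  constructor
  · refine fac_cmp hz (by norm_num) le_rfl _ hrB hB ?_
    have := hM.conc (lt hx) (lt hz)
    simp only [fl 1 (x r), fl 1 (z r)]
    simpa only [neg_div, ← sub_eq_add_neg] using this
  · refine fac_cmp hx le_rfl (by norm_num) _ hrB (fun i hi => (hB i hi).symm) ?_
    have := hM.conv (lt hx) (lt hz)
    simp only [fl (-1) (x r), fl (-1) (z r), neg_neg]
    exact this

end Pool.Agent.Lib.MP_cb200a_pr
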