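import Pool.Agent.Lib.MP_cb200a_pr.Ops

set_option autoImplicit false

open Finset

namespace Pool.Agent.Lib.MP_cb200a_pr

theorem vdm_eq {N : ℕ} (y : Fin N → ℕ) :
    vdm y = ∏ i, ∏ j, if i < j then ((y j : ℝ) - y i) else 1 := by
  unfold vdm
  rw [Matrix.det_vandermonde]
  refine Finset.prod_congr rfl fun i _ => ?_
  rw [← Finset.prod_filter]
  congr 1
  ext j; simp

/-- Vandermonde determinant with an extra particle at `x`. -/
noncomputable def vx {N : ℕ} (x : ℕ) (y : Fin N → ℕ) : ℝ :=
  vdm (Fin.snoc y x : Fin (N + 1) → ℕ)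

theorem vx_eq {N : ℕ} (x : ℕ) (y : Fin N → ℕ) : vx x y = vdm y * ∏ i, ((x : ℝ) - y i) := by
  unfold vx
  rw [vdm_eq, vdm_eq, Fin.prod_univ_castSucc, ← Finset.prod_mul_distrib]
  simp [Fin.prod_univ_castSucc, Fin.castSucc_lt_last, (Fin.le_last _).not_gt]

theorem inj_of_vdm {N : ℕ} {y : Fin N → ℕ} (h : vdm y ≠ 0) : Function.Injective y := by
  intro i j hij
  by_contra hne
  apply h
  unfold vdm
  rw [Matrix.det_vandermonde_eq_zero_iff]
  exact ⟨i, j, by simp [hij], hne⟩

theorem le_of_strictMono {N : ℕ} {y : Fin N → ℕ} (h : StrictMono y) (i : Fin N) : (i : ℕ) ≤ y i := by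
  obtain ⟨i, hi⟩ := i
  induction i with
  | zero => simp
  | succ i ih =>
    have h1 := ih (by omega)
    have h2 : y ⟨i, by omega⟩ < y ⟨i + 1, hi⟩ := h (by simp [Fin.lt_def])
    simp only at h1 ⊢
    omega

theorem sum_fin_id (n : ℕ) : ∑ j : Fin n, (j : ℕ) = n.choose 2 := by
  rw [Fin.sum_univ_eq_sum_range (fun j => j) n, Finset.sum_range_id, Nat.choose_two_right]

theorem strictMono_sort {N : ℕ} {y : Fin N → ℕ} (h : Function.Injective y) :
    StrictMono (y ∘ Tuple.sort y) :=
  (Tuple.monotone_sort y).strictMono_of_injective (h.comp (Tuple.sort y).injective)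

theorem low_of_inj {N : ℕ} {y : Fin N → ℕ} (h : Function.Injective y) :
    N.choose 2 ≤ ∑ i, y i := by
  rw [← Equiv.sum_comp (Tuple.sort y) y, ← sum_fin_id]
  exact Finset.sum_le_sum fun i _ => le_of_strictMono (strictMono_sort h) i

theorem choose_succ_two (N : ℕ) : (N + 1).choose 2 = N.choose 2 + N := by
  rw [Nat.choose_succ_succ' N 1]; simp; ring

theorem vx_low {N : ℕ} {x : ℕ} {y : Fin N → ℕ} (h : ∑ i, y i < N.choose 2) : vx x y = 0 := by
  by_contra hne
  rw [vx_eq] at hne
  have := low_of_inj (inj_of_vdm (left_ne_zero_of_mul hne))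
  omega

theorem vx_low' {N : ℕ} {x : ℕ} {y : Fin N → ℕ} (h : ∑ i, y i + x < N.choose 2 + N) :
    vx x y = 0 := by
  by_contra hne
  have := low_of_inj (inj_of_vdm hne)
  rw [Fin.sum_univ_castSucc, choose_succ_two] at this
  simp at this
  omega

theorem vx_mul_low {N : ℕ} {x : ℕ} {y : Fin N → ℕ} (h : ∑ i, y i + x = N.choose 2 + N)
    (hx : x < N) : vx x y * vx (x + 1) y = 0 := by
  by_contra hne
  have h1 := inj_of_vdm (left_ne_zero_of_mul hne)
  have h2 := inj_of_vdm (right_ne_zero_of_mul hne)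
  have h3 : Function.Injective (Fin.snoc (Fin.snoc y x : Fin (N + 1) → ℕ) (x + 1) :
      Fin (N + 2) → ℕ) := by
    rw [Fin.snoc_injective_iff] at h2 ⊢
    refine ⟨h1, ?_⟩
    rintro ⟨i, hi⟩
    induction i using Fin.lastCases with
    | last => simp at hi
    | cast i => exact h2.2 ⟨i, by simpa using hi⟩
  have := low_of_inj h3
  rw [Fin.sum_univ_castSucc, Fin.sum_univ_castSucc, choose_succ_two, choose_succ_two] at this
  simp at this
  omega

theorem vx_down {N : ℕ} (x : ℕ) (y : Fin N → ℕ) :
    ∑ i, (y i : ℝ) * vx x (Function.update y i (y i - 1)) =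
      (((∑ i, y i : ℕ) : ℝ) + x - (N.choose 2 : ℕ) - N) * vx x y - x * vx (x - 1) y := by
  have := vdm_down (Fin.snoc y x : Fin (N + 1) → ℕ)
  rw [Fin.sum_univ_castSucc, Fin.sum_univ_castSucc, choose_succ_two] at this
  simp only [Fin.snoc_castSucc, Fin.snoc_last, ← Fin.snoc_update, Fin.update_snoc_last] at this
  unfold vx
  push_cast at this ⊢
  linarith

theorem vx_up {N : ℕ} (x : ℕ) (y : Fin N → ℕ) :
    ∑ i, ((y i : ℝ) + 1) * vx x (Function.update y i (y i + 1)) =
      (((∑ i, y i : ℕ) : ℝ) + x - (N.choose 2 : ℕ) - N + ((N : ℝ) + 1) ^ 2) * vx x y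
        - (x + 1) * vx (x + 1) y := by
  have := vdm_up (Fin.snoc y x : Fin (N + 1) → ℕ)
  rw [Fin.sum_univ_castSucc, Fin.sum_univ_castSucc, choose_succ_two] at this
  simp only [Fin.snoc_castSucc, Fin.snoc_last, ← Fin.snoc_update, Fin.update_snoc_last] at this
  unfold vx
  push_cast at this ⊢
  linarith

/-- The restriction of `vx x` to excess level `m`. -/
noncomputable def vec (N m x : ℕ) : (Fin N → ℕ) → ℝ :=
  fun y => if ∑ i, y i = N.choose 2 + m then vx x y else 0

theorem vec_hom (N m x : ℕ) : Hom (N.choose 2 + m) (vec N m x) := by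
  intro y hy; simp [vec, hy]

theorem vec_U (N m x : ℕ) : opU N (vec N m x) =
    ((m : ℝ) + 1 + x - N) • vec N (m + 1) x - (x : ℝ) • vec N (m + 1) (x - 1) := by
  funext y
  by_cases hy : ∑ i, y i = N.choose 2 + (m + 1)
  · have h := vx_down x y
    rw [hy] at h
    simp only [Pi.sub_apply, Pi.smul_apply, smul_eq_mul, vec, hy, if_true, opU_apply]
    have : ∑ i, (y i : ℝ) * (if ∑ k, Function.update y i (y i - 1) k = N.choose 2 + m then
        vx x (Function.update y i (y i - 1)) else 0) =
        ∑ i, (y i : ℝ) * vx x (Function.update y i (y i - 1)) := by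
      refine Finset.sum_congr rfl fun i _ => ?_
      rcases Nat.eq_zero_or_pos (y i) with h0 | h0
      · simp [h0]
      · rw [if_pos]
        have := sum_update y i (y i - 1)
        omega
    rw [this, h]; push_cast; ring
  · rw [(vec_hom N m x).up y (by rw [add_assoc]; exact hy)]
    simp [vec, hy]

theorem vec_U0 (N x : ℕ) : ((x : ℝ) - N) • vec N 0 x - (x : ℝ) • vec N 0 (x - 1) = 0 := by
  funext y
  by_cases hy : ∑ i, y i = N.choose 2 + 0
  · have h := vx_down x y
    rw [hy] at h
    simp only [Pi.sub_apply, Pi.smul_apply, smul_eq_mul, vec, hy, if_true, Pi.zero_apply]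
    have : ∑ i, (y i : ℝ) * vx x (Function.update y i (y i - 1)) = 0 := by
      refine Finset.sum_eq_zero fun i _ => ?_
      rcases Nat.eq_zero_or_pos (y i) with h0 | h0
      · simp [h0]
      · rw [vx_low, mul_zero]
        have := sum_update y i (y i - 1)
        omega
    rw [this] at h
    push_cast at h
    linarith
  · simp only [add_zero] at hy
    simp [vec, hy]

theorem vec_D (N m x : ℕ) : opD N (vec N (m + 1) x) =
    ((m : ℝ) + x - N + ((N : ℝ) + 1) ^ 2) • vec N m x - ((x : ℝ) + 1) • vec N m (x + 1) := by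
  funext y
  have hs : ∀ i, ∑ k, Function.update y i (y i + 1) k = ∑ k, y k + 1 := fun i => by
    have := sum_update y i (y i + 1)
    omega
  by_cases hy : ∑ i, y i = N.choose 2 + m
  · have h := vx_up x y
    rw [hy] at h
    simp only [Pi.sub_apply, Pi.smul_apply, smul_eq_mul, vec, hy, if_true, opD_apply, hs,
      add_assoc]
    rw [h]; push_cast; ring
  · have hy' : ¬ (∑ i, y i + 1 = N.choose 2 + (m + 1)) := by omega
    simp [vec, hy, opD_apply, hs, hy']

theorem vec_D0 (N x : ℕ) : opD N (vec N 0 x) = 0 := by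
  funext y
  have hs : ∀ i, ∑ k, Function.update y i (y i + 1) k = ∑ k, y k + 1 := fun i => by
    have := sum_update y i (y i + 1)
    omega
  simp only [opD_apply, vec, Pi.zero_apply, hs]
  by_cases h : ∑ k, y k + 1 = N.choose 2 + 0
  · simp only [h, if_true]
    rw [vx_up, vx_low (by omega), vx_low (by omega)]
    ring
  · simp only [h, if_false]
    simp

/-- Unnormalised Clebsch-Gordan (Hahn type) coefficients. -/
noncomputable def pp (l : ℕ) (κ : ℝ) : ℕ → ℕ → ℝ
  | 0, x => (x.choose l : ℕ)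
  | a + 1, x => (κ + l + 1 + a + x) * pp l κ a x - ((x : ℝ) + 1) * pp l κ a (x + 1)

theorem pp_R0 (l : ℕ) (κ : ℝ) (x : ℕ) :
    ((x : ℝ) - l) * pp l κ 0 x - x * pp l κ 0 (x - 1) = 0 := by
  simp only [pp]
  rcases x with _ | x
  · rcases l with _ | l <;> simp
  · simp only [Nat.add_sub_cancel]
    rcases le_or_gt l (x + 1) with h | h
    · have := Nat.choose_mul_succ_eq x l
      have h2 : ((x.choose l * (x + 1) : ℕ) : ℝ) = (((x + 1).choose l * (x + 1 - l) : ℕ) : ℝ) := by
        rw [this]
      push_cast [Nat.cast_sub h] at h2 ⊢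
      linarith
    · rw [Nat.choose_eq_zero_of_lt h, Nat.choose_eq_zero_of_lt (by omega)]; simp

theorem pp_R1 (l : ℕ) (κ : ℝ) (a : ℕ) : ∀ x : ℕ,
    ((a : ℝ) + x - l) * pp l κ a x - x * pp l κ a (x - 1) =
      a * (κ + a - 1) * pp l κ (a - 1) x := by
  induction a with
  | zero => intro x; have := pp_R0 l κ x; simpa using this
  | succ a ih =>
    intro x
    have h1 := ih x
    have h2 := ih (x + 1)
    simp only [Nat.add_sub_cancel] at h2 ⊢
    have h3 : (a : ℝ) * (κ + a - 1) * pp l κ a x = a * (κ + a - 1) *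
        ((κ + l + a + x) * pp l κ (a - 1) x - ((x : ℝ) + 1) * pp l κ (a - 1) (x + 1)) := by
      rcases a with _ | a
      · simp
      · simp only [Nat.add_sub_cancel, pp]; push_cast; ring
    have h4 : (x : ℝ) * pp l κ (a + 1) (x - 1) =
        x * ((κ + l + a + x) * pp l κ a (x - 1) - x * pp l κ a x) := by
      rcases x with _ | x
      · simp
      · simp only [Nat.add_sub_cancel, pp]; push_cast; ring
    rw [h4]
    simp only [pp]
    push_cast at h2 ⊢
    linear_combination (κ + l + a + x) * h1 - ((x : ℝ) + 1) * h2 - h3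

/-- lowest weights -/
noncomputable def kap (N s : ℕ) : ℝ := (N : ℝ) ^ 2 + 2 * s

theorem kap_eq (N s : ℕ) : 2 * ((N.choose 2 + s : ℕ) : ℝ) + N = kap N s := by
  unfold kap
  push_cast
  rw [Nat.cast_choose_two]; ring

theorem nrm_pos {κ : ℝ} (h : 0 < κ) (a : ℕ) : 0 < nrm κ a := by
  induction a with
  | zero => simp [nrm]
  | succ a ih => rw [nrm]; positivity

theorem kap_pos {N : ℕ} (hN : 0 < N) (s : ℕ) : 0 < kap N s := by
  unfold kap; positivity

/-- normalised coefficient -/
noncomputable def bb (N s a x : ℕ) : ℝ := pp (N - s) (kap N s) a x / nrm (kap N s) a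

theorem bb_R1 {N s : ℕ} (hN : 0 < N) (hs : s ≤ N) (a x : ℕ) :
    ((a : ℝ) + 1 + s + x - N) * bb N s (a + 1) x - x * bb N s (a + 1) (x - 1) = bb N s a x := by
  have h := pp_R1 (N - s) (kap N s) (a + 1) x
  have h1 := nrm_pos (kap_pos hN s) a
  have h2 := kap_pos hN s
  simp only [Nat.add_sub_cancel, Nat.cast_sub hs] at h
  unfold bb
  rw [nrm]
  push_cast at h
  field_simp
  linear_combination h

theorem bb_R0 {N s : ℕ} (hs : s ≤ N) (x : ℕ) :
    ((s : ℝ) + x - N) * bb N s 0 x - x * bb N s 0 (x - 1) = 0 := by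
  have h := pp_R0 (N - s) (kap N s) x
  simp only [Nat.cast_sub hs] at h
  unfold bb
  simp only [nrm, div_one]
  linear_combination h

theorem bb_R2 {N s : ℕ} (hN : 0 < N) (hs : s ≤ N) (a x : ℕ) :
    ((a : ℝ) + 1) * (kap N s + a) * bb N s (a + 1) x =
      ((a : ℝ) + s + x - N + ((N : ℝ) + 1) ^ 2) * bb N s a x - ((x : ℝ) + 1) * bb N s a (x + 1) := by
  have h1 := nrm_pos (kap_pos hN s) a
  have h2 := kap_pos hN s
  unfold bb
  rw [nrm, pp, Nat.cast_sub hs]
  field_simp
  unfold kap
  ring

theorem ode_unique {V : Type*} [AddCommGroup V] [Module ℝ V] (r : ℕ) (d : ℕ → V)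
    (h : ∀ x : ℕ, ((x : ℝ) - r) • d x - (x : ℝ) • d (x - 1) = 0) (h0 : d r = 0) (x : ℕ) :
    d x = 0 := by
  induction x with
  | zero =>
    rcases Nat.eq_zero_or_pos r with hr | hr
    · rw [← hr]; exact h0
    · have := h 0
      simp only [Nat.cast_zero, zero_smul, sub_zero, zero_sub, smul_eq_zero, neg_eq_zero,
        Nat.cast_eq_zero] at this
      rcases this with h1 | h1
      · omega
      · exact h1
  | succ x ih =>
    by_cases hr : x + 1 = r
    · rw [hr]; exact h0
    · have := h (x + 1)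
      rw [Nat.add_sub_cancel, ih, smul_zero, sub_zero, smul_eq_zero] at this
      rcases this with h1 | h1
      · exfalso; apply hr
        have : ((x + 1 : ℕ) : ℝ) = r := by linarith
        exact_mod_cast this
      · exact h1

theorem decomp {N : ℕ} (hN : 0 < N) (M : ℕ) (hM : M ≤ N) :
    ∃ η : ℕ → (Fin N → ℕ) → ℝ, (∀ s ≤ M, Hom (N.choose 2 + s) (η s) ∧ opD N (η s) = 0) ∧
      ∀ m ≤ M, ∀ x, vec N m x =
        ∑ s ∈ range (m + 1), bb N s (m - s) x • (opU N ^ (m - s)) (η s) := by
  induction M with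
  | zero =>
    refine ⟨fun _ => vec N 0 N, fun s hs => ?_, fun m hm x => ?_⟩
    · obtain rfl : s = 0 := by omega
      exact ⟨vec_hom N 0 N, vec_D0 N N⟩
    · obtain rfl : m = 0 := by omega
      simp only [zero_add, range_one, sum_singleton, tsub_self, pow_zero, Module.End.one_apply]
      rw [← sub_eq_zero]
      refine ode_unique N (fun x => vec N 0 x - bb N 0 0 x • vec N 0 N) (fun x => ?_) ?_ x
      · have h1 := vec_U0 N x
        have h2 := bb_R0 (N := N) (s := 0) (Nat.zero_le _) x
        simp only [Nat.cast_zero, zero_add] at h2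
        have : ((x : ℝ) - N) • (vec N 0 x - bb N 0 0 x • vec N 0 N) -
            (x : ℝ) • (vec N 0 (x - 1) - bb N 0 0 (x - 1) • vec N 0 N) =
            (((x : ℝ) - N) • vec N 0 x - (x : ℝ) • vec N 0 (x - 1)) -
            (((x : ℝ) - N) * bb N 0 0 x - x * bb N 0 0 (x - 1)) • vec N 0 N := by module
        rw [this, h1, h2]; simp
      · simp [bb, pp, nrm]
  | succ M ih =>
    obtain ⟨η, hη, hv⟩ := ih (by omega)
    set A : ℕ → (Fin N → ℕ) → ℝ := fun x =>
      ∑ s ∈ range (M + 1), bb N s (M + 1 - s) x • (opU N ^ (M + 1 - s)) (η s) with hA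
    set e := vec N (M + 1) (N - (M + 1)) - A (N - (M + 1)) with he
    have hAU : ∀ x : ℕ, ((M : ℝ) + 1 + x - N) • A x - (x : ℝ) • A (x - 1) = opU N (vec N M x) := by
      intro x
      rw [hv M le_rfl x, map_sum]
      simp only [hA, Finset.smul_sum, ← Finset.sum_sub_distrib, smul_smul, ← sub_smul]
      refine Finset.sum_congr rfl fun s hs => ?_
      have hs' : s ≤ M := by have := mem_range.1 hs; omega
      rw [map_smul, ← Module.End.mul_apply, ← pow_succ', show M + 1 - s = M - s + 1 by omega,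
        ← bb_R1 hN (by omega) (M - s) x, Nat.cast_sub hs']
      congr 2; ring
    have hAD : ∀ x : ℕ, opD N (A x) = opD N (vec N (M + 1) x) := by
      intro x
      rw [vec_D, hv M le_rfl x, hv M le_rfl (x + 1)]
      simp only [hA, map_sum, Finset.smul_sum, ← Finset.sum_sub_distrib, smul_smul, ← sub_smul]
      refine Finset.sum_congr rfl fun s hs => ?_
      have hs' : s ≤ M := by have := mem_range.1 hs; omega
      rw [map_smul, show M + 1 - s = M - s + 1 by omega, down_pow (hη s hs').1 (hη s hs').2,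
        smul_smul, kap_eq, mul_comm, bb_R2 hN (by omega) (M - s) x, Nat.cast_sub hs']
      congr 2; ring
    have hAh : ∀ x, Hom (N.choose 2 + (M + 1)) (A x) := by
      intro x y hy
      simp only [hA, Finset.sum_apply, Pi.smul_apply, smul_eq_mul]
      refine Finset.sum_eq_zero fun s hs => ?_
      have hs' : s ≤ M := by have := mem_range.1 hs; omega
      rw [(hη s hs').1.pow (M + 1 - s) y (by omega), mul_zero]
    refine ⟨Function.update η (M + 1) e, fun s hs => ?_, fun m hm x => ?_⟩
    · rcases Nat.lt_or_ge s (M + 1) with h | h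
      · rw [Function.update_of_ne (by omega)]; exact hη s (by omega)
      · obtain rfl : s = M + 1 := by omega
        rw [Function.update_self]
        refine ⟨fun y hy => ?_, ?_⟩
        · simp only [he, Pi.sub_apply, vec_hom N (M + 1) _ y hy, hAh _ y hy, sub_zero]
        · rw [he, map_sub, hAD, sub_self]
    · rcases Nat.lt_or_ge m (M + 1) with h | h
      · rw [hv m (by omega) x]
        refine Finset.sum_congr rfl fun s hs => ?_
        rw [Function.update_of_ne (by have := mem_range.1 hs; omega)]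
      · obtain rfl : m = M + 1 := by omega
        rw [Finset.sum_range_succ]
        have h1 : ∑ s ∈ range (M + 1), bb N s (M + 1 - s) x •
            (opU N ^ (M + 1 - s)) (Function.update η (M + 1) e s) = A x := by
          refine Finset.sum_congr rfl fun s hs => ?_
          rw [Function.update_of_ne (by have := mem_range.1 hs; omega)]
        rw [h1, Function.update_self, Nat.sub_self, pow_zero, Module.End.one_apply, ← sub_eq_zero]
        refine ode_unique (N - (M + 1))
          (fun x => vec N (M + 1) x - (A x + bb N (M + 1) 0 x • e)) (fun x => ?_) ?_ x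
        · have h1 := vec_U N M x
          have h2 := bb_R0 (N := N) (s := M + 1) hM x
          have h3 := hAU x
          have h4 : (x : ℝ) - ((N - (M + 1) : ℕ) : ℝ) = (M : ℝ) + 1 + x - N := by
            rw [Nat.cast_sub hM]; push_cast; ring
          push_cast at h2
          rw [h4]
          have : ((M : ℝ) + 1 + x - N) • (vec N (M + 1) x - (A x + bb N (M + 1) 0 x • e)) -
              (x : ℝ) • (vec N (M + 1) (x - 1) - (A (x - 1) + bb N (M + 1) 0 (x - 1) • e)) =
              (((M : ℝ) + 1 + x - N) • vec N (M + 1) x - (x : ℝ) • vec N (M + 1) (x - 1)) -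
              (((M : ℝ) + 1 + x - N) • A x - (x : ℝ) • A (x - 1)) -
              (((M : ℝ) + 1 + x - N) * bb N (M + 1) 0 x - x * bb N (M + 1) 0 (x - 1)) • e := by
            module
          rw [this, ← h1, h3, h2]; simp
        · simp [bb, pp, nrm, he]

theorem ip_sum_left {N : ℕ} (S : ℕ) (t : Finset ℕ) (c : ℕ → ℝ) (F : ℕ → (Fin N → ℕ) → ℝ)
    (G : (Fin N → ℕ) → ℝ) :
    ip S (∑ s ∈ t, c s • F s) G = ∑ s ∈ t, c s * ip S (F s) G := by
  unfold ip
  simp only [Finset.sum_apply, Pi.smul_apply, smul_eq_mul, Finset.sum_mul, Finset.mul_sum]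
  rw [Finset.sum_comm]
  simp only [mul_assoc]

/-- squared norm of `vec`. -/
noncomputable def ww (N m x : ℕ) : ℝ :=
  ∑ y ∈ Finset.Nat.antidiagonalTuple N (N.choose 2 + m), vx x y ^ 2

theorem ip_vec (N m x x' : ℕ) : ip (N.choose 2 + m) (vec N m x) (vec N m x') =
    ∑ y ∈ Finset.Nat.antidiagonalTuple N (N.choose 2 + m), vx x y * vx x' y := by
  unfold ip
  refine Finset.sum_congr rfl fun y hy => ?_
  rw [Finset.Nat.mem_antidiagonalTuple] at hy
  simp [vec, hy]

theorem ip_vec_self (N m x : ℕ) : ip (N.choose 2 + m) (vec N m x) (vec N m x) = ww N m x := by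
  rw [ip_vec, ww]; simp only [sq]

theorem ip_sub_smul {N : ℕ} (S : ℕ) (a b : ℝ) (F G H : (Fin N → ℕ) → ℝ) :
    ip S (a • F - b • G) H = a * ip S F H - b * ip S G H := by
  unfold ip
  simp only [Pi.sub_apply, Pi.smul_apply, smul_eq_mul, Finset.mul_sum, ← Finset.sum_sub_distrib]
  refine Finset.sum_congr rfl fun y _ => by ring

theorem ww_edge {N : ℕ} (s : ℕ) (hs : s ≤ N) : ww N s (N - s) = ww N 0 N := by
  induction s with
  | zero => simp
  | succ s ih =>
    rw [← ih (by omega)]
    obtain ⟨x, rfl⟩ : ∃ x, N = x + (s + 1) := ⟨N - (s + 1), by omega⟩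
    rw [Nat.add_sub_cancel, show x + (s + 1) - s = x + 1 by omega]
    set N := x + (s + 1) with hN
    have h := ip_adj (N.choose 2 + s) (vec N s (x + 1)) (vec N (s + 1) x)
    rw [vec_U, vec_D, add_assoc, ip_sub_smul, ip_comm (N.choose 2 + s), ip_sub_smul,
      Nat.add_sub_cancel, ip_vec_self, ip_vec_self, ip_vec, ip_vec] at h
    have h1 : ∑ y ∈ Finset.Nat.antidiagonalTuple N (N.choose 2 + (s + 1)),
        vx (x + 1) y * vx x y = 0 := by
      refine Finset.sum_eq_zero fun y hy => ?_
      rw [Finset.Nat.mem_antidiagonalTuple] at hy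
      rw [mul_comm, vx_mul_low (by omega) (by omega)]
    have h2 : ∑ y ∈ Finset.Nat.antidiagonalTuple N (N.choose 2 + s),
        vx x y * vx (x + 1) y = 0 := by
      refine Finset.sum_eq_zero fun y hy => ?_
      rw [Finset.Nat.mem_antidiagonalTuple] at hy
      rw [vx_low' (by omega), zero_mul]
    rw [h1, h2] at h
    push_cast at h
    have hx : (0 : ℝ) < (x : ℝ) + 1 := by positivity
    have : ((x : ℝ) + 1) * ww N (s + 1) x = ((x : ℝ) + 1) * ww N s (x + 1) := by linarith
    exact mul_left_cancel₀ hx.ne' this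

/-- The exact sum-of-squares formula for the one-point function at fixed total. -/
theorem parseval {N : ℕ} (hN : 0 < N) :
    ∃ c : ℕ → ℝ, c 0 = ww N 0 N ∧ (∀ s ≤ N, 0 ≤ c s ∧ c s ≤ c 0) ∧
      ∀ m ≤ N, ∀ x, ww N m x = ∑ s ∈ range (m + 1),
        c s * (pp (N - s) (kap N s) (m - s) x ^ 2 / nrm (kap N s) (m - s)) := by
  obtain ⟨η, hη, hv⟩ := decomp hN N le_rfl
  have key : ∀ m ≤ N, ∀ x, ww N m x = ∑ s ∈ range (m + 1),
      ip (N.choose 2 + s) (η s) (η s) *
        (pp (N - s) (kap N s) (m - s) x ^ 2 / nrm (kap N s) (m - s)) := by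
    intro m hm x
    rw [← ip_vec_self, hv m hm x, ip_sum_left]
    refine Finset.sum_congr rfl fun s hs => ?_
    have hs' : s ≤ m := by have := mem_range.1 hs; omega
    rw [ip_comm, ip_sum_left, Finset.sum_eq_single s]
    · have := ip_pow_same (hη s (by omega)).1 (hη s (by omega)).2 (m - s)
      rw [show N.choose 2 + s + (m - s) = N.choose 2 + m by omega, kap_eq] at this
      rw [this]
      have h1 := nrm_pos (kap_pos hN s) (m - s)
      unfold bb
      field_simp
    · intro r hr hrs
      have hr' : r ≤ m := by have := mem_range.1 hr; omega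
      rcases lt_or_gt_of_ne hrs with h | h
      · have := ip_pow_ne (η r) (hη s (by omega)).1 (hη s (by omega)).2 (s - r - 1) (m - s)
          (N.choose 2 + r)
        rw [show N.choose 2 + r + (s - r - 1) + 1 + (m - s) = N.choose 2 + m by omega,
          show s - r - 1 + 1 + (m - s) = m - r by omega] at this
        rw [this, mul_zero]
      · have := ip_pow_ne (η s) (hη r (by omega)).1 (hη r (by omega)).2 (r - s - 1) (m - r)
          (N.choose 2 + s)
        rw [show N.choose 2 + s + (r - s - 1) + 1 + (m - r) = N.choose 2 + m by omega,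
          show r - s - 1 + 1 + (m - r) = m - s by omega] at this
        rw [ip_comm, this, mul_zero]
    · intro h; exact absurd hs h
  have hnn : ∀ s, 0 ≤ ip (N.choose 2 + s) (η s) (η s) := fun s =>
    Finset.sum_nonneg fun y _ => mul_self_nonneg _
  have h0 : ip (N.choose 2 + 0) (η 0) (η 0) = ww N 0 N := by
    have := key 0 (Nat.zero_le _) N
    simp [pp, nrm] at this
    simp [this]
  refine ⟨fun s => ip (N.choose 2 + s) (η s) (η s), h0, fun s hs => ⟨hnn s, ?_⟩, key⟩
  simp only [h0]
  rw [← ww_edge s hs, key s hs, Finset.sum_range_succ]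
  have : 0 ≤ ∑ r ∈ range s, ip (N.choose 2 + r) (η r) (η r) *
      (pp (N - r) (kap N r) (s - r) (N - s) ^ 2 / nrm (kap N r) (s - r)) :=
    Finset.sum_nonneg fun r _ => mul_nonneg (hnn r)
      (div_nonneg (sq_nonneg _) (nrm_pos (kap_pos hN r) _).le)
  simp [pp, nrm]
  linarith

end Pool.Agent.Lib.MP_cb200a_pr
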