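import Pool.Agent.Lib.MP_cb200a_pr.Sorted

set_option autoImplicit false

open Finset Nat

namespace Pool.Agent.Lib.MP_cb200a_pr

theorem om_mono {κ κ' : ℝ} (h0 : 0 < κ) (h : κ ≤ κ') (a : ℕ) : om κ a ≤ om κ' a := by
  induction a with
  | zero => simp [om]
  | succ a ih =>
    have := om_pos (h0.trans_le h) a
    rw [om, om]; gcongr

theorem om_down {κ : ℝ} (h0 : 0 < κ) {a m : ℕ} (h : a + 1 ≤ m) :
    om κ a ≤ om κ (a + 1) * (m / κ) := by
  have h1 := om_pos h0 a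
  have h2 : (a : ℝ) + 1 ≤ m := by exact_mod_cast h
  rw [om, mul_assoc]
  refine le_mul_of_one_le_right h1.le ?_
  rw [_root_.div_mul_div_comm, one_le_div (by positivity)]
  have : (0 : ℝ) ≤ a := Nat.cast_nonneg a
  nlinarith

theorem om_down_pow {κ : ℝ} (h0 : 0 < κ) (m d : ℕ) (h : d ≤ m) :
    om κ (m - d) ≤ om κ m * (m / κ) ^ d := by
  induction d with
  | zero => simp
  | succ d ih =>
    have := om_down h0 (a := m - (d + 1)) (m := m) (by omega)
    rw [show m - (d + 1) + 1 = m - d by omega] at this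
    calc _ ≤ _ := this
      _ ≤ om κ m * (m / κ) ^ d * (m / κ) := by gcongr; exact ih (by omega)
      _ = _ := by ring

theorem geo_sum (A : ℕ → ℝ) (M : ℕ) (h0 : ∀ i, 0 ≤ A i) (h : ∀ i < M, A (i + 1) ≤ A i / 4) :
    ∑ i ∈ range M, A (i + 1) ≤ A 0 / 3 := by
  have : ∀ n ≤ M, ∑ i ∈ range n, A (i + 1) + A n / 3 ≤ A 0 / 3 := by
    intro n hn
    induction n with
    | zero => simp
    | succ n ih =>
      rw [Finset.sum_range_succ]
      have := ih (by omega)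
      have := h n (by omega)
      linarith
  have h1 := this M le_rfl
  have := h0 M
  linarith

theorem pow_small (j : ℕ) (h : 32 ≤ j) : (j : ℝ) * (83 / 100) ^ (j + 1) ≤ 3 / 10 := by
  induction j, h using Nat.le_induction with
  | base => norm_num
  | succ j hj ih =>
    have : (32 : ℝ) ≤ j := by exact_mod_cast hj
    have h0 : (0 : ℝ) ≤ (83 / 100) ^ (j + 1) := by positivity
    push_cast
    rw [pow_succ _ (j + 1)]
    nlinarith

theorem exp_const : 3 / 32 * Real.exp 1 ^ 2 * Real.exp (13 / 80) ≤ 83 / 100 := by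
  have h1 := Real.exp_one_lt_d9
  have h2 := Real.exp_bound_div_one_sub_of_interval (x := 13 / 80) (by norm_num) (by norm_num)
  have h3 := Real.exp_pos 1
  calc 3 / 32 * Real.exp 1 ^ 2 * Real.exp (13 / 80)
      ≤ 3 / 32 * 2.7182818286 ^ 2 * (1 / (1 - 13 / 80)) := by gcongr
    _ ≤ _ := by norm_num

theorem tail_small {N m j : ℕ} (hk : m + j ≤ N) (hJ2 : 16 * (m + j) ≤ j ^ 2) (hm : j + 2 ≤ m) :
    (((j + N).choose (j + 1) : ℕ) : ℝ) ^ 2 * ((m : ℝ) / (N : ℝ) ^ 2) ^ (j + 1) *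
      Real.exp (13 / 80 * j) ≤ 3 / 10 / j := by
  have hj : 32 ≤ j := by nlinarith
  have hj' : (32 : ℝ) ≤ j := by exact_mod_cast hj
  have hk' : (m : ℝ) + j ≤ N := by exact_mod_cast hk
  have hJ2' : 16 * ((m : ℝ) + j) ≤ (j : ℝ) ^ 2 := by exact_mod_cast hJ2
  have hm' : (j : ℝ) + 2 ≤ m := by exact_mod_cast hm
  have hN : (0 : ℝ) < N := by linarith
  have h1 : (((j + N).choose (j + 1) : ℕ) : ℝ) ≤
      (((j : ℝ) + N) * Real.exp 1 / (j + 1)) ^ (j + 1) := by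
    have a1 := Nat.choose_le_pow_div (α := ℝ) (j + 1) (j + N)
    have a2 := Real.pow_div_factorial_le_exp ((j : ℝ) + 1) (by positivity) (j + 1)
    have a3 : Real.exp ((j : ℝ) + 1) = Real.exp 1 ^ (j + 1) := by
      rw [← Real.exp_nat_mul]; push_cast; ring_nf
    have a4 : (0 : ℝ) < ((j + 1)! : ℕ) := by exact_mod_cast Nat.factorial_pos _
    refine a1.trans ?_
    push_cast
    rw [div_pow, mul_pow, div_le_div_iff₀ a4 (by positivity), mul_assoc]
    rw [div_le_iff₀ a4, a3] at a2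
    gcongr
  have h2 : Real.exp (13 / 80 * j) ≤ Real.exp (13 / 80) ^ (j + 1) := by
    rw [← Real.exp_nat_mul]; apply Real.exp_le_exp.2; push_cast; linarith
  have h3 : (((j : ℝ) + N) / (j + 1)) ^ 2 * ((m : ℝ) / (N : ℝ) ^ 2) ≤ 3 / 32 := by
    rw [div_pow, _root_.div_mul_div_comm, div_le_div_iff₀ (by positivity) (by norm_num)]
    have b1 : ((j : ℝ) + N) * m ≤ N * (m + j) := by nlinarith
    have b2 : (j : ℝ) + N ≤ 3 / 2 * N := by linarith
    have b3 : ((j : ℝ) + N) ^ 2 * m ≤ 3 / 2 * N * (N * (m + j)) := by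
      calc ((j : ℝ) + N) ^ 2 * m = (j + N) * ((j + N) * m) := by ring
        _ ≤ _ := by gcongr
    have b4 : 16 * ((m : ℝ) + j) * N ^ 2 ≤ ((j : ℝ) + 1) ^ 2 * N ^ 2 := by
      gcongr; nlinarith
    nlinarith
  rw [le_div_iff₀ (by linarith), mul_comm]
  refine le_trans ?_ (pow_small j hj)
  gcongr
  calc _ ≤ ((((j : ℝ) + N) * Real.exp 1 / (j + 1)) ^ (j + 1)) ^ 2 *
        ((m : ℝ) / (N : ℝ) ^ 2) ^ (j + 1) * Real.exp (13 / 80) ^ (j + 1) := by gcongr
    _ = ((((j : ℝ) + N) / (j + 1)) ^ 2 * ((m : ℝ) / (N : ℝ) ^ 2) * Real.exp 1 ^ 2 *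
        Real.exp (13 / 80)) ^ (j + 1) := by
        rw [← pow_mul, mul_comm (j + 1) 2, pow_mul, ← mul_pow, ← mul_pow]
        congr 1; ring
    _ ≤ _ := by
        refine pow_le_pow_left₀ (by positivity) (le_trans ?_ exp_const) _
        gcongr

theorem sw_upper {N b J : ℕ} (hk : b + J ≤ N) (hJ : 16 ≤ J) (hJ2 : 16 * (b + J) ≤ J ^ 2) :
    sw N b (J + N) ≤
      20 / 17 * (sw N 0 N * ((((J + N).choose N : ℕ) : ℝ) ^ 2 * om ((N : ℝ) ^ 2) b)) := by
  have h := ww_upper hk hJ hJ2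
  rw [ww_eq, ww_eq] at h
  have a4 : (0 : ℝ) < (N ! : ℕ) := by exact_mod_cast Nat.factorial_pos _
  apply le_of_mul_le_mul_left _ a4
  linarith

theorem sw_lower {N b J : ℕ} (hk : b + J ≤ N) (hJ : 16 ≤ J) (hJ2 : 16 * (b + J) ≤ J ^ 2) :
    sw N 0 N * ((((J + N).choose N : ℕ) : ℝ) ^ 2 * om ((N : ℝ) ^ 2) b) *
      Real.exp (-(13 / 80 * J)) ≤ sw N b (J + N) := by
  have h := ww_lower hk hJ hJ2
  rw [ww_eq, ww_eq] at h
  have a4 : (0 : ℝ) < (N ! : ℕ) := by exact_mod_cast Nat.factorial_pos _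
  apply le_of_mul_le_mul_left _ a4
  linarith

theorem sw_conc {N b J : ℕ} (hk : b + 1 + J ≤ N) (hJ2 : 16 * (b + 1 + J) ≤ J ^ 2) :
    sw N b (J + 1 + N) * sw N (b + 2) (J - 1 + N) ≤
      (1 - 1 / 4 / (J : ℝ)) * sw N (b + 1) (J + N) ^ 2 := by
  have h := ww_conc hk hJ2
  rw [ww_eq, ww_eq, ww_eq] at h
  have a4 : (0 : ℝ) < ((N ! : ℕ) : ℝ) ^ 2 := by
    have : (0 : ℝ) < (N ! : ℕ) := by exact_mod_cast Nat.factorial_pos _
    positivity
  apply le_of_mul_le_mul_left _ a4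
  linarith

theorem tw_ge {N m j : ℕ} (hk : m + j ≤ N) (hj : 16 ≤ j) (hJ2 : 16 * (m + j) ≤ j ^ 2) :
    (1 - 1 / 8 / (j : ℝ)) * sw N m (j + N) ≤ tw N m (j + N) := by
  obtain ⟨N, rfl⟩ : ∃ N', N = N' + 1 := ⟨N - 1, by omega⟩
  have hb := bad_le N m j
  have hj' : (16 : ℝ) ≤ j := by exact_mod_cast hj
  have hs := sw_nonneg (N + 1) m (j + (N + 1))
  rcases Nat.lt_or_ge m (j + 2) with hm | hm
  · rw [show m - 1 - j = 0 by omega, Finset.sum_range_zero, add_zero] at hb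
    have : 0 ≤ 1 / 8 / (j : ℝ) * sw (N + 1) m (j + (N + 1)) := by positivity
    linarith
  have hl := sw_lower hk hj hJ2
  have ht := tail_small hk hJ2 hm
  set κ : ℝ := ((N + 1 : ℕ) : ℝ) ^ 2 with hκ
  have hκ0 : 0 < κ := by rw [hκ]; positivity
  have hN0 : (0 : ℝ) < N := by exact_mod_cast (by omega : 0 < N)
  set A : ℕ → ℝ := fun i => (((j + i + (N + 1)).choose (N + 1) : ℕ) : ℝ) ^ 2 * om κ (m - 1 - j - i)
    with hA
  have hA0 : ∀ i, 0 ≤ A i := fun i => mul_nonneg (sq_nonneg _) (om_pos hκ0 _).le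
  have hA1 : ∀ i < m - 1 - j, A (i + 1) ≤ A i / 4 := by
    intro i hi
    simp only [hA]
    have c1 := om_down hκ0 (a := m - 1 - j - (i + 1)) (m := m) (by omega)
    rw [show m - 1 - j - (i + 1) + 1 = m - 1 - j - i by omega] at c1
    have c2 := Nat.choose_mul_succ_eq (j + i + (N + 1)) (N + 1)
    rw [show j + i + (N + 1) + 1 - (N + 1) = j + i + 1 by omega,
      show j + i + (N + 1) + 1 = j + (i + 1) + (N + 1) by omega] at c2
    have c3 : (((j + (i + 1) + (N + 1)).choose (N + 1) : ℕ) : ℝ) =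
        ((j + i + (N + 1)).choose (N + 1) : ℕ) * (((j : ℝ) + (i + 1) + (N + 1)) / (j + i + 1)) := by
      rw [← mul_div_assoc, eq_div_iff (by positivity)]
      exact_mod_cast c2.symm
    have c4 : (((j : ℝ) + (i + 1) + (N + 1)) / (j + i + 1)) ^ 2 * (m / κ) ≤ 1 / 4 := by
      rw [div_pow, _root_.div_mul_div_comm, div_le_div_iff₀ (by positivity) (by norm_num), hκ]
      have d1 : (j : ℝ) + (i + 1) ≤ N + 1 := by exact_mod_cast (by omega : j + (i + 1) ≤ N + 1)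
      have d2 : 16 * ((m : ℝ) + j) ≤ (j : ℝ) ^ 2 := by exact_mod_cast hJ2
      have d3 : (0 : ℝ) ≤ i := Nat.cast_nonneg i
      have d4 : ((j : ℝ) + (i + 1) + (N + 1)) ^ 2 ≤ (2 * (N + 1)) ^ 2 :=
        pow_le_pow_left₀ (by positivity) (by linarith) 2
      have d5 : 16 * (m : ℝ) ≤ ((j : ℝ) + i + 1) ^ 2 := by nlinarith
      push_cast
      calc _ ≤ (2 * ((N : ℝ) + 1)) ^ 2 * m * 4 := by gcongr
        _ = 1 * ((16 * m) * ((N : ℝ) + 1) ^ 2) := by ring
        _ ≤ _ := by gcongr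
    have c5 := (om_pos hκ0 (m - 1 - j - i)).le
    rw [c3]
    calc _ ≤ (((j + i + (N + 1)).choose (N + 1) : ℕ) * (((j : ℝ) + (i + 1) + (N + 1)) /
          (j + i + 1))) ^ 2 * (om κ (m - 1 - j - i) * (m / κ)) := by gcongr
      _ = (((j + i + (N + 1)).choose (N + 1) : ℕ) : ℝ) ^ 2 * om κ (m - 1 - j - i) *
          ((((j : ℝ) + (i + 1) + (N + 1)) / (j + i + 1)) ^ 2 * (m / κ)) := by ring
      _ ≤ (((j + i + (N + 1)).choose (N + 1) : ℕ) : ℝ) ^ 2 * om κ (m - 1 - j - i) * (1 / 4) := by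
          gcongr
      _ = _ := by ring
  have hg := geo_sum A (m - 1 - j) hA0 hA1
  set B : ℝ := 20 / 17 * (sw (N + 1) 0 (N + 1) * (((j + (N + 1)).choose (j + 1) : ℕ) : ℝ) ^ 2)
    with hB
  have hB0 : 0 ≤ B := by have := sw_nonneg (N + 1) 0 (N + 1); positivity
  have hsum : ∑ i ∈ range (m - 1 - j),
      (((j + 1 + i + (N + 1)).descFactorial (N + 1) : ℕ) : ℝ) ^ 2 *
        sw N (m - 2 - j - i) (j + (N + 1)) ≤ ∑ i ∈ range (m - 1 - j), B * A (i + 1) := by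
    refine Finset.sum_le_sum fun i hi => ?_
    have hi' := mem_range.1 hi
    have u1 := sw_upper (N := N) (b := m - 2 - j - i) (J := j + 1) (by omega) (by omega)
      (by nlinarith [Nat.sub_le (m - 2 - j) i, Nat.sub_le (m - 2) j, Nat.sub_le m 2,
        (by omega : m - 2 - j - i + (j + 1) ≤ m + j)])
    rw [show j + 1 + N = j + (N + 1) by omega] at u1
    have u2 : om ((N : ℝ) ^ 2) (m - 2 - j - i) ≤ om κ (m - 2 - j - i) :=
      om_mono (by positivity) (by rw [hκ]; push_cast; nlinarith) _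
    have u3 : (j + (N + 1)).choose N = (j + (N + 1)).choose (j + 1) :=
      Nat.choose_symm_of_eq_add (by omega)
    have u4 := sw_nonneg N 0 N
    rw [Nat.descFactorial_eq_factorial_mul_choose, hB, sw_zero, ← u3]
    simp only [hA]
    rw [show j + (i + 1) + (N + 1) = j + 1 + i + (N + 1) by omega,
      show m - 1 - j - (i + 1) = m - 2 - j - i by omega]
    push_cast
    calc _ ≤ ((((N + 1)! : ℕ) : ℝ) * ((j + 1 + i + (N + 1)).choose (N + 1) : ℕ)) ^ 2 *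
          (20 / 17 * (sw N 0 N * ((((j + (N + 1)).choose N : ℕ) : ℝ) ^ 2 *
            om κ (m - 2 - j - i)))) := by
          refine mul_le_mul_of_nonneg_left (u1.trans ?_) (sq_nonneg _)
          gcongr
      _ = _ := by ring
  rw [← Finset.mul_sum] at hsum
  have hA2 : A 0 ≤ (((j + (N + 1)).choose (N + 1) : ℕ) : ℝ) ^ 2 * (om κ m * (m / κ) ^ (j + 1)) := by
    simp only [hA, add_zero, Nat.sub_zero]
    have := om_down_pow hκ0 m (j + 1) (by omega)
    rw [show m - (j + 1) = m - 1 - j by omega] at this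
    gcongr
  set Z : ℝ := sw (N + 1) 0 (N + 1) *
    ((((j + (N + 1)).choose (N + 1) : ℕ) : ℝ) ^ 2 * om κ m) * Real.exp (-(13 / 80 * j)) with hZ
  have hZ0 : 0 ≤ Z := by
    have := sw_nonneg (N + 1) 0 (N + 1)
    have := (om_pos hκ0 m).le
    positivity
  have hfin : B * (A 0 / 3) ≤ 1 / 8 / (j : ℝ) * sw (N + 1) m (j + (N + 1)) := by
    calc B * (A 0 / 3) ≤ B * ((((j + (N + 1)).choose (N + 1) : ℕ) : ℝ) ^ 2 *
          (om κ m * (m / κ) ^ (j + 1)) / 3) := by gcongr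
      _ = 20 / 51 * Z * ((((j + (N + 1)).choose (j + 1) : ℕ) : ℝ) ^ 2 * ((m : ℝ) / κ) ^ (j + 1) *
          Real.exp (13 / 80 * j)) := by
          rw [hZ, hB, Real.exp_neg]
          have := Real.exp_pos (13 / 80 * (j : ℝ))
          field_simp
          ring
      _ ≤ 20 / 51 * Z * (3 / 10 / j) :=
          mul_le_mul_of_nonneg_left ht (mul_nonneg (by norm_num) hZ0)
      _ = 2 / 17 / j * Z := by ring
      _ ≤ _ := mul_le_mul (div_le_div_of_nonneg_right (by norm_num) (by linarith)) hl hZ0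
          (div_nonneg (by norm_num) (by linarith))
  have := mul_le_mul_of_nonneg_left hg hB0
  linarith

/-- Log-concavity of the top particle in the upper range. -/
theorem tw_conc {N b J : ℕ} (hk : b + 1 + J ≤ N) (hJ2 : 16 * (b + 1 + J) ≤ J ^ 2) :
    tw N (b + 2) (J - 1 + N) * tw N b (J + 1 + N) ≤ tw N (b + 1) (J + N) ^ 2 := by
  have hJ : 16 ≤ J := by nlinarith
  have hJ' : (16 : ℝ) ≤ J := by exact_mod_cast hJ
  have h1 := sw_conc hk hJ2
  have h2 := tw_ge hk hJ hJ2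
  have h3 := sw_nonneg N (b + 1) (J + N)
  have ey : (1 / 4 / (J : ℝ)) = 2 * (1 / 8 / J) := by ring
  have hy0 : 0 ≤ 1 / 8 / (J : ℝ) := by positivity
  have hy1 : 1 / 8 / (J : ℝ) ≤ 1 := by rw [div_le_one (by positivity)]; linarith
  rw [ey] at h1
  generalize 1 / 8 / (J : ℝ) = y at *
  calc _ ≤ sw N (b + 2) (J - 1 + N) * sw N b (J + 1 + N) :=
        mul_le_mul (tw_le _ _ _) (tw_le _ _ _) (tw_nonneg _ _ _) (sw_nonneg _ _ _)
    _ ≤ (1 - 2 * y) * sw N (b + 1) (J + N) ^ 2 := by rw [mul_comm]; exact h1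
    _ ≤ (1 - y) ^ 2 * sw N (b + 1) (J + N) ^ 2 := by gcongr; nlinarith
    _ = ((1 - y) * sw N (b + 1) (J + N)) ^ 2 := by ring
    _ ≤ _ := pow_le_pow_left₀ (mul_nonneg (by linarith) h3) h2 2

end Pool.Agent.Lib.MP_cb200a_pr
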