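import Pool.Agent.Lib.MP_cb200a_pr.Core

set_option autoImplicit false

open Finset Nat

namespace Pool.Agent.Lib.MP_cb200a_pr.Chen

variable {m : ℕ}

theorem total_le {n : ℕ} (s : ℕ) :
    ∑ κ ∈ Finset.Nat.antidiagonalTuple n s, ff (fun _ _ => True) κ ≤ (s ! : ℝ) := by
  classical
  induction s with
  | zero =>
    rw [Finset.Nat.antidiagonalTuple_zero_right, Finset.sum_singleton, ff,
      if_pos (show Monotone (0 : Fin n → ℕ) from monotone_const), cnt_zero]
    simp
  | succ s ih =>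
    have h1 := tele_step (n := n) (Q := fun _ _ => True) (K := 0) (fun _ _ _ _ _ _ => Iff.rfl)
      (fun κ => if Monotone κ then 1 else 0) (fun κ h => if_neg h) (Nat.zero_le s)
    have h2 : ∀ κ : Fin n → ℕ, ff (fun _ _ => True) κ * (if Monotone κ then 1 else 0) =
        ff (fun _ _ => True) κ := fun κ => by
      unfold ff; split_ifs <;> simp
    simp only [h2] at h1
    rw [h1, Nat.factorial_succ]
    push_cast
    refine le_trans ?_ (mul_le_mul_of_nonneg_left ih (by positivity))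
    rw [Finset.mul_sum]
    refine Finset.sum_le_sum fun κ hκ => ?_
    rw [Finset.Nat.mem_antidiagonalTuple] at hκ
    rw [mul_comm]
    refine mul_le_mul_of_nonneg_right ?_ (by unfold ff; split_ifs <;> simp)
    rw [Finset.sum_boole]
    have : #(univ.filter fun x => Monotone (up κ x)) ≤ #(range (s + 1)) := by
      refine Finset.card_le_card_of_injOn (fun x => n - 1 - x.val) ?_ ?_
      · intro x hx
        simp only [coe_filter, mem_univ, true_and, Set.mem_ofPred_eq] at hx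
        have := row_bound hx (sum_up κ x) (i := x) (by rw [up_self]; omega)
        simp only [coe_range, Set.mem_Iio]
        omega
      · intro x _ y _ e
        have := x.isLt
        have := y.isLt
        simp only at e
        exact Fin.ext (by omega)
    rw [card_range] at this
    exact_mod_cast this

theorem SS_le (m k j : ℕ) : SS m k j ≤ (k ! : ℝ) ^ 2 := by
  classical
  refine (Finset.sum_sq_le_sq_sum_of_nonneg fun _ _ => Nat.cast_nonneg _).trans ?_
  refine pow_le_pow_left₀ (Finset.sum_nonneg fun _ _ => Nat.cast_nonneg _) ?_ 2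
  refine le_trans ?_ (total_le (n := m + 1) k)
  have h1 := sum_ff (m := m) (k := k) (j := j) (Ev k j) (fun _ => le_rfl) fun _ => 1
  calc _ = ∑ κ ∈ sh m k j, (cnt (Ev k j) κ : ℝ) * 1 := by
        refine Finset.sum_congr rfl fun κ hκ => ?_
        obtain ⟨h1, -, h3⟩ := mem_sh.1 hκ
        rw [cnt_ev h1, if_pos h3, mul_one]
    _ ≤ _ := by
        rw [← h1]
        refine Finset.sum_le_sum fun κ hκ => ?_
        rw [Finset.Nat.mem_antidiagonalTuple] at hκ
        unfold ff
        rw [cnt_ev hκ, PP]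
        split_ifs <;> simp

/-- the unnormalised weight of top row `j` -/
noncomputable def WW (m k j : ℕ) : ℝ := ∑ κ ∈ sh m k j, vdm (hh κ) ^ 2

theorem WW_nonneg (m k j : ℕ) : 0 ≤ WW m k j := Finset.sum_nonneg fun _ _ => sq_nonneg _

theorem WW_bound (m k j : ℕ) :
    (vdm (hh (0 : Fin (m + 1) → ℕ)) / k !) ^ 2 * (((m + 1 - k : ℕ) : ℝ) ^ (2 * k) * SS m k j) ≤
      WW m k j ∧ WW m k j ≤
    (vdm (hh (0 : Fin (m + 1) → ℕ)) / k !) ^ 2 * (((m + 1 + k : ℕ) : ℝ) ^ (2 * k) * SS m k j) := by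
  have hV := vdm_pos (κ := (0 : Fin (m + 1) → ℕ)) monotone_const
  unfold WW SS
  simp only [Finset.mul_sum]
  constructor
  · refine Finset.sum_le_sum fun κ hκ => ?_
    obtain ⟨h1, h2, -⟩ := mem_sh.1 hκ
    rw [pow_mul', ← mul_pow, ← mul_pow]
    exact pow_le_pow_left₀ (by positivity) (vdm_bound h2 h1).1 2
  · refine Finset.sum_le_sum fun κ hκ => ?_
    obtain ⟨h1, h2, -⟩ := mem_sh.1 hκ
    rw [pow_mul', ← mul_pow, ← mul_pow]
    exact pow_le_pow_left₀ (vdm_pos h2).le (vdm_bound h2 h1).2 2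

theorem sh_empty {k j : ℕ} (h : k < j ∨ (j = 0 ∧ 0 < k)) : sh m k j = ∅ := by
  refine Finset.eq_empty_of_forall_notMem fun κ hκ => ?_
  obtain ⟨h1, h2, h3⟩ := mem_sh.1 hκ
  rcases h with h | ⟨h, h'⟩
  · have := low_last κ; omega
  · rw [Finset.sum_eq_zero fun i _ => by have := h2 (Fin.le_last i); omega] at h1
    omega

theorem ratio_bound {n k : ℕ} (hk : 1 ≤ k) (hn : 16 * k ^ 2 * k ! ^ 2 ≤ n) {S : ℝ} (hS0 : 0 ≤ S)
    (hS : S ≤ (k ! : ℝ) ^ 2) :
    ((n + k : ℕ) : ℝ) ^ (8 * k) * (S - 1) ≤ ((n - k : ℕ) : ℝ) ^ (8 * k) * S := by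
  have hf : 1 ≤ k ! := Nat.factorial_pos k
  have hkn : k ≤ n := by nlinarith [Nat.one_le_pow 2 _ hf]
  have hk' : (1 : ℝ) ≤ k := by exact_mod_cast hk
  have hn' : 16 * (k : ℝ) ^ 2 * (k ! : ℝ) ^ 2 ≤ n := by exact_mod_cast hn
  have hkn' : (k : ℝ) ≤ n := by exact_mod_cast hkn
  have hp : (0 : ℝ) < n + k := by linarith
  have h1 : ((n - k : ℕ) : ℝ) = ((n : ℝ) + k) * (1 + -(2 * k / (n + k))) := by
    rw [Nat.cast_sub hkn]; field_simp; ring
  have h2 := one_add_mul_le_pow (a := -(2 * k / ((n : ℝ) + k))) (by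
    have : 2 * k / ((n : ℝ) + k) ≤ 2 := by rw [div_le_iff₀ hp]; linarith
    linarith) (8 * k)
  rw [h1, mul_pow, mul_assoc]
  push_cast at h2 ⊢
  refine mul_le_mul_of_nonneg_left ?_ (by positivity)
  refine le_trans ?_ (mul_le_mul_of_nonneg_right h2 hS0)
  have h3 : 8 * (k : ℝ) * (2 * k / (n + k)) * S ≤ 1 := by
    rw [← mul_div_assoc, div_mul_eq_mul_div, div_le_one hp]
    nlinarith [mul_le_mul_of_nonneg_left hS (by positivity : (0 : ℝ) ≤ 16 * k ^ 2)]
  linarith

theorem WW_conc {k : ℕ} (hn : 16 * k ^ 2 * k ! ^ 2 ≤ m + 1) (j : ℕ) :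
    WW m k j * WW m k (j + 2) ≤ WW m k (j + 1) ^ 2 := by
  by_cases h : 1 ≤ j ∧ j + 2 ≤ k
  · have hf : 1 ≤ k ! := Nat.factorial_pos k
    have hkm : k ≤ m := by nlinarith [Nat.one_le_pow 2 _ hf]
    have h1 := core hkm h.1 h.2
    have h2 := ratio_bound (by omega) hn (SS_nonneg m k (j + 1)) (SS_le m k (j + 1))
    have s1 := SS_nonneg m k j
    have s2 := SS_nonneg m k (j + 1)
    have s3 := SS_nonneg m k (j + 2)
    have hlo : (0 : ℝ) < ((m + 1 - k : ℕ) : ℝ) := by exact_mod_cast (by omega : 0 < m + 1 - k)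
    have b1 := (WW_bound m k j).2
    have b2 := (WW_bound m k (j + 1)).1
    have b3 := (WW_bound m k (j + 2)).2
    rw [show 8 * k = 2 * k * 4 by ring, pow_mul _ (2 * k), pow_mul _ (2 * k)] at h2
    rw [show 4 * k = 2 * k * 2 by ring, pow_mul _ (2 * k), pow_mul _ (2 * k)] at h1
    have hlo' : 0 < ((m + 1 - k : ℕ) : ℝ) ^ (2 * k) := by positivity
    have hhi' : 0 ≤ ((m + 1 + k : ℕ) : ℝ) ^ (2 * k) := by positivity
    generalize ((m + 1 - k : ℕ) : ℝ) ^ (2 * k) = lo at *
    generalize ((m + 1 + k : ℕ) : ℝ) ^ (2 * k) = hi at *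
    have hc : 0 ≤ (vdm (hh (0 : Fin (m + 1) → ℕ)) / k !) ^ 2 := sq_nonneg _
    generalize (vdm (hh (0 : Fin (m + 1) → ℕ)) / k !) ^ 2 = c at *
    have h3 : hi ^ 2 * (SS m k j * SS m k (j + 2)) ≤ (lo * SS m k (j + 1)) ^ 2 := by
      refine le_of_mul_le_mul_left ?_ (by positivity : 0 < lo ^ 2)
      calc _ = hi ^ 2 * (lo ^ 2 * (SS m k j * SS m k (j + 2))) := by ring
        _ ≤ hi ^ 2 * (hi ^ 2 * (SS m k (j + 1) * (SS m k (j + 1) - 1))) :=
            mul_le_mul_of_nonneg_left h1 (by positivity)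
        _ = SS m k (j + 1) * (hi ^ 4 * (SS m k (j + 1) - 1)) := by ring
        _ ≤ SS m k (j + 1) * (lo ^ 4 * SS m k (j + 1)) := mul_le_mul_of_nonneg_left h2 s2
        _ = _ := by ring
    calc _ ≤ (c * (hi * SS m k j)) * (c * (hi * SS m k (j + 2))) :=
          mul_le_mul b1 b3 (WW_nonneg _ _ _) (by positivity)
      _ = c ^ 2 * (hi ^ 2 * (SS m k j * SS m k (j + 2))) := by ring
      _ ≤ c ^ 2 * (lo * SS m k (j + 1)) ^ 2 := by gcongr
      _ = (c * (lo * SS m k (j + 1))) ^ 2 := by ring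
      _ ≤ _ := pow_le_pow_left₀ (by positivity) b2 2
  · have : WW m k j * WW m k (j + 2) = 0 := by
      unfold WW
      by_cases h2 : k < j + 2
      · rw [sh_empty (j := j + 2) (Or.inl h2)]; simp
      · rw [sh_empty (j := j) (Or.inr (by omega))]; simp
    rw [this]; exact sq_nonneg _

theorem strict_gap {n : ℕ} {y : Fin n → ℕ} (hy : StrictMono y) {i j : Fin n} (h : i ≤ j) :
    y i + j ≤ y j + i := by
  obtain ⟨j, hj⟩ := j
  obtain ⟨i, hi⟩ := i
  simp only [Fin.mk_le_mk] at h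
  induction j, h using Nat.le_induction with
  | base => exact le_rfl
  | succ j _ ih =>
    have h1 := ih (by omega)
    have h2 := hy (a := ⟨j, by omega⟩) (b := ⟨j + 1, hj⟩) (by simp)
    simp only at h1 ⊢
    omega

theorem num_eq' (m k : ℕ) (w : (Fin (m + 1) → Fin (k + (m + 1) * m / 2 + 1)) → ℝ)
    (hw : ∀ h : Fin (m + 1) → Fin (k + (m + 1) * m / 2 + 1),
      w h = ∏ i : Fin (m + 1), ∏ j : Fin (m + 1),
        (if i < j then (((h j : ℕ) : ℝ) - ((h i : ℕ) : ℝ)) ^ 2 else 1)) (t : ℤ) :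
    ∑ h ∈ Finset.univ.filter
      (fun h : Fin (m + 1) → Fin (k + (m + 1) * m / 2 + 1) =>
        (∀ a b : Fin (m + 1), a < b → h a < h b) ∧
        (∑ i : Fin (m + 1), (h i : ℕ)) = k + (m + 1) * m / 2 ∧
        ((h (Fin.last m) : ℕ) : ℤ) = t), w h = if t < m then 0 else WW m k (t - m).toNat := by
  classical
  have hs : ∀ κ : Fin (m + 1) → ℕ, ∑ i, hh κ i = ∑ i, κ i + (m + 1) * m / 2 := fun κ => by
    have := sum_hh κ
    rw [Nat.choose_two_right, Nat.add_sub_cancel] at this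
    exact_mod_cast this
  have hback : ∀ h : Fin (m + 1) → Fin (k + (m + 1) * m / 2 + 1),
      (∀ a b : Fin (m + 1), a < b → h a < h b) →
      hh (fun i => (h i : ℕ) - i) = fun i => (h i : ℕ) := fun h h1 => by
    funext i
    have := strict_gap (y := fun i => (h i : ℕ)) (fun a b hab => h1 a b hab) (Fin.zero_le i)
    simp only [hh, Fin.val_zero] at this ⊢
    omega
  split_ifs with ht
  · refine Finset.sum_eq_zero fun h hh' => ?_
    simp only [Finset.mem_filter, mem_univ, true_and] at hh'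
    have := congrFun (hback h hh'.1) (Fin.last m)
    simp only [hh, Fin.val_last] at this
    omega
  · unfold WW
    refine Finset.sum_bij (fun h _ => fun i => (h i : ℕ) - i) ?_ ?_ ?_ ?_
    · intro h hh'
      simp only [Finset.mem_filter, mem_univ, true_and] at hh'
      obtain ⟨h1, h2, h3⟩ := hh'
      have h4 := hs fun i => (h i : ℕ) - i
      rw [hback h h1] at h4
      beta_reduce at h4
      refine mem_sh.2 ⟨by omega, fun a b hab => ?_, ?_⟩
      · have := strict_gap (y := fun i => (h i : ℕ)) (fun a b hab => h1 a b hab) hab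
        simp only at this ⊢
        omega
      · simp only [Fin.val_last]; omega
    · intro h hh1 g hg1 e
      simp only [Finset.mem_filter, mem_univ, true_and] at hh1 hg1
      have e1 := hback h hh1.1
      rw [e, hback g hg1.1] at e1
      funext i
      exact Fin.ext (congrFun e1 i).symm
    · intro κ hκ
      obtain ⟨h1, h2, h3⟩ := mem_sh.1 hκ
      have hlt : ∀ i, hh κ i < k + (m + 1) * m / 2 + 1 := fun i => by
        have h4 := hs κ
        have h5 : hh κ i ≤ ∑ i, hh κ i :=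
          Finset.single_le_sum (fun _ _ => Nat.zero_le _) (mem_univ i)
        omega
      refine ⟨fun i => ⟨hh κ i, hlt i⟩, ?_, by funext i; simp [hh]⟩
      simp only [Finset.mem_filter, mem_univ, true_and]
      refine ⟨fun a b hab => ?_, by rw [hs, h1], ?_⟩
      · have h4 := h2 hab.le
        have h5 : a.val < b.val := hab
        rw [Fin.lt_def]
        simp only [hh]
        omega
      · simp only [hh, Fin.val_last]; omega
    · intro h hh'
      simp only [Finset.mem_filter, mem_univ, true_and] at hh'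
      rw [hw, hback h hh'.1, vdm_eq, ← Finset.prod_pow]
      refine Finset.prod_congr rfl fun i _ => ?_
      rw [← Finset.prod_pow]
      refine Finset.prod_congr rfl fun j _ => ?_
      split_ifs <;> simp

theorem large :
    ∀ m k : ℕ, 16 * k ^ 2 * k ! ^ 2 ≤ m + 1 →
    ∀ w : (Fin (m + 1) → Fin (k + (m + 1) * m / 2 + 1)) → ℝ,
    (∀ h : Fin (m + 1) → Fin (k + (m + 1) * m / 2 + 1),
      w h = ∏ i : Fin (m + 1), ∏ j : Fin (m + 1),
        (if i < j then (((h j : ℕ) : ℝ) - ((h i : ℕ) : ℝ)) ^ 2 else 1)) →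
    ∀ P : ℤ → ℝ,
    (∀ t : ℤ, P t =
      (∑ h ∈ Finset.univ.filter
          (fun h : Fin (m + 1) → Fin (k + (m + 1) * m / 2 + 1) =>
            (∀ a b : Fin (m + 1), a < b → h a < h b) ∧
            (∑ i : Fin (m + 1), (h i : ℕ)) = k + (m + 1) * m / 2 ∧
            ((h (Fin.last m) : ℕ) : ℤ) = t), w h) /
      (∑ h ∈ Finset.univ.filter
          (fun h : Fin (m + 1) → Fin (k + (m + 1) * m / 2 + 1) =>
            (∀ a b : Fin (m + 1), a < b → h a < h b) ∧
            (∑ i : Fin (m + 1), (h i : ℕ)) = k + (m + 1) * m / 2), w h)) →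
    ∀ j : ℤ, P (j - 1) * P (j + 1) ≤ P j ^ 2 := by
  intro m k hk w hw P hP j
  rw [hP, hP, hP, num_eq' m k w hw, num_eq' m k w hw, num_eq' m k w hw,
    _root_.div_mul_div_comm, _root_.div_pow, ← sq]
  refine div_le_div_of_nonneg_right ?_ (sq_nonneg _)
  by_cases h : j - 1 < m
  · rw [if_pos h, zero_mul]; exact sq_nonneg _
  · rw [if_neg h, if_neg (by omega), if_neg (by omega),
      show (j + 1 - m).toNat = (j - 1 - m).toNat + 2 by omega,
      show (j - m).toNat = (j - 1 - m).toNat + 1 by omega]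
    exact WW_conc hk _

end Pool.Agent.Lib.MP_cb200a_pr.Chen
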