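import Pool.Agent.Lib.MP_cb200a_pr.Final

set_option autoImplicit false

open Finset

namespace Pool.Agent.Lib.MP_cb200a_pr

theorem half_eq (m : ℕ) : (m + 1) * m / 2 = m.choose 2 + m := by
  rw [← choose_succ_two, Nat.choose_two_right, Nat.add_sub_cancel]

theorem num_zero (m k : ℕ) (w : (Fin (m + 1) → Fin (k + (m + 1) * m / 2 + 1)) → ℝ) (t : ℤ)
    (ht : (k : ℤ) + m < t) :
    ∑ h ∈ Finset.univ.filter
      (fun h : Fin (m + 1) → Fin (k + (m + 1) * m / 2 + 1) =>
        (∀ a b : Fin (m + 1), a < b → h a < h b) ∧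
        (∑ i : Fin (m + 1), (h i : ℕ)) = k + (m + 1) * m / 2 ∧
        ((h (Fin.last m) : ℕ) : ℤ) = t), w h = 0 := by
  refine Finset.sum_eq_zero fun h hh => ?_
  exfalso
  simp only [Finset.mem_filter, mem_univ, true_and] at hh
  obtain ⟨h1, h2, h3⟩ := hh
  have h4 : StrictMono fun i : Fin m => (h i.castSucc : ℕ) := fun a b hab =>
    h1 _ _ (by simpa using hab)
  have h5 := low_of_inj h4.injective
  rw [Fin.sum_univ_castSucc] at h2
  have := half_eq m
  omega

theorem num_eq (m k : ℕ) (w : (Fin (m + 1) → Fin (k + (m + 1) * m / 2 + 1)) → ℝ)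
    (hw : ∀ h : Fin (m + 1) → Fin (k + (m + 1) * m / 2 + 1),
      w h = ∏ i : Fin (m + 1), ∏ j : Fin (m + 1),
        (if i < j then (((h j : ℕ) : ℝ) - ((h i : ℕ) : ℝ)) ^ 2 else 1))
    (b J : ℕ) (hb : b + J = k) (t : ℤ) (ht : t = J + m) :
    ∑ h ∈ Finset.univ.filter
      (fun h : Fin (m + 1) → Fin (k + (m + 1) * m / 2 + 1) =>
        (∀ a b : Fin (m + 1), a < b → h a < h b) ∧
        (∑ i : Fin (m + 1), (h i : ℕ)) = k + (m + 1) * m / 2 ∧
        ((h (Fin.last m) : ℕ) : ℤ) = t), w h = tw m b (J + m) := by
  classical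
  have hh := half_eq m
  unfold tw
  refine Finset.sum_bij (fun h _ => fun i : Fin m => (h i.castSucc : ℕ)) ?_ ?_ ?_ ?_
  · intro h hh'
    simp only [Finset.mem_filter, mem_univ, true_and] at hh'
    obtain ⟨h1, h2, h3⟩ := hh'
    rw [Fin.sum_univ_castSucc] at h2
    simp only [Finset.mem_filter, mem_srt]
    refine ⟨⟨by omega, fun a b hab => h1 _ _ (by simpa using hab)⟩, fun i => ?_⟩
    have : (h i.castSucc : ℕ) < h (Fin.last m) := h1 _ _ (Fin.castSucc_lt_last i)
    omega
  · intro h hh1 g hg1 e
    simp only [Finset.mem_filter, mem_univ, true_and] at hh1 hg1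
    funext i
    apply Fin.ext
    induction i using Fin.lastCases with
    | last => have := hh1.2.2; have := hg1.2.2; omega
    | cast i => exact congrFun e i
  · intro y hy
    simp only [Finset.mem_filter, mem_srt] at hy
    obtain ⟨⟨h1, h2⟩, h3⟩ := hy
    have hlt : ∀ i, (Fin.snoc y (J + m) : Fin (m + 1) → ℕ) i < k + (m + 1) * m / 2 + 1 := by
      intro i
      induction i using Fin.lastCases with
      | last => simp only [Fin.snoc_last]; omega
      | cast i => simp only [Fin.snoc_castSucc]; have := h3 i; omega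
    refine ⟨fun i => ⟨_, hlt i⟩, ?_, by funext i; simp⟩
    simp only [Finset.mem_filter, mem_univ, true_and]
    refine ⟨fun a b hab => ?_, ?_, ?_⟩
    · rw [Fin.lt_def]
      simp only
      induction b using Fin.lastCases with
      | last =>
        induction a using Fin.lastCases with
        | last => exact absurd hab (lt_irrefl _)
        | cast a => simpa using h3 a
      | cast b =>
        induction a using Fin.lastCases with
        | last => exact absurd hab (Fin.le_last _).not_gt
        | cast a => simpa using h2 (by simpa using hab)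
    · rw [Fin.sum_univ_castSucc]
      simp only [Fin.snoc_castSucc, Fin.snoc_last]
      omega
    · simp [ht]
  · intro h hh'
    simp only [Finset.mem_filter, mem_univ, true_and] at hh'
    obtain ⟨h1, h2, h3⟩ := hh'
    have e : (Fin.snoc (fun i : Fin m => (h i.castSucc : ℕ)) (J + m) : Fin (m + 1) → ℕ) =
        fun i => (h i : ℕ) := by
      funext i
      induction i using Fin.lastCases with
      | last => simp only [Fin.snoc_last]; omega
      | cast i => simp
    rw [hw, vx, e, vdm_eq, ← Finset.prod_pow]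
    refine Finset.prod_congr rfl fun i _ => ?_
    rw [← Finset.prod_pow]
    refine Finset.prod_congr rfl fun j _ => ?_
    split_ifs <;> simp

end Pool.Agent.Lib.MP_cb200a_pr
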