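import Mathlib

set_option autoImplicit false

open Finset Polynomial

namespace Pool.Agent.Lib.MP_cb200a_pr

/-- Vandermonde determinant of a tuple of natural numbers. -/
noncomputable def vdm {N : ℕ} (y : Fin N → ℕ) : ℝ :=
  (Matrix.vandermonde fun i => (y i : ℝ)).det

theorem row_sum {n : ℕ} (v c w e : Fin n → ℝ) (p : Fin n → ℝ[X])
    (hd : ∀ i, (p i).natDegree = i) (hm : ∀ i, Monic (p i))
    (h : ∀ i j, c i * (p j).eval (w i) = (v i + e j) * (p j).eval (v i)) :
    ∑ i, c i * (Matrix.vandermonde (Function.update v i (w i))).det =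
      (∑ i, v i + ∑ j, e j) * (Matrix.vandermonde v).det := by
  have key : ∀ u : Fin n → ℝ, (Matrix.vandermonde u).det =
      ∑ σ : Equiv.Perm (Fin n), ((Equiv.Perm.sign σ : ℤ) : ℝ) * ∏ i, (p (σ i)).eval (u i) := by
    intro u
    rw [Matrix.det_eval_matrixOfPolynomials_eq_det_vandermonde u p hd hm, ← Matrix.det_transpose,
      Matrix.det_apply']
    simp
  simp_rw [key, Finset.mul_sum]
  rw [Finset.sum_comm]
  refine Finset.sum_congr rfl fun σ _ => ?_
  have h2 : ∀ i, c i * ∏ i', (p (σ i')).eval (Function.update v i (w i) i') =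
      (v i + e (σ i)) * ∏ i', (p (σ i')).eval (v i') := by
    intro i
    rw [← Finset.mul_prod_erase univ _ (mem_univ i),
      ← Finset.mul_prod_erase univ (fun i' => (p (σ i')).eval (v i')) (mem_univ i)]
    have : ∏ x ∈ univ.erase i, (p (σ x)).eval (Function.update v i (w i) x) =
        ∏ x ∈ univ.erase i, (p (σ x)).eval (v x) := by
      refine Finset.prod_congr rfl fun x hx => ?_
      rw [Function.update_of_ne (Finset.ne_of_mem_erase hx)]
    rw [this, Function.update_self, ← mul_assoc, h, mul_assoc]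
  have h3 : ∑ j, e j = ∑ i, e (σ i) := (Equiv.sum_comp σ e).symm
  rw [h3, ← Finset.sum_add_distrib, Finset.sum_mul]
  refine Finset.sum_congr rfl fun i _ => ?_
  rw [mul_left_comm, h2, mul_left_comm]

theorem sum_fin_cast (n : ℕ) : ∑ j : Fin n, ((j : ℕ) : ℝ) = ((n.choose 2 : ℕ) : ℝ) := by
  have : ∑ j : Fin n, (j : ℕ) = n.choose 2 := by
    rw [Fin.sum_univ_eq_sum_range (fun j => j) n, Finset.sum_range_id, Nat.choose_two_right]
  rw [← this]; push_cast; rfl

theorem vdm_down {N : ℕ} (y : Fin N → ℕ) :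
    ∑ i, (y i : ℝ) * vdm (Function.update y i (y i - 1)) =
      (((∑ i, y i : ℕ) : ℝ) - (N.choose 2 : ℕ)) * vdm y := by
  have := row_sum (fun i => (y i : ℝ)) (fun i => (y i : ℝ)) (fun i => (y i : ℝ) - 1)
    (fun j => -((j : ℕ) : ℝ)) (fun j => descPochhammer ℝ j)
    (fun i => descPochhammer_natDegree ℝ i) (fun i => monic_descPochhammer ℝ i) (by
      intro i j
      have h1 := descPochhammer_succ_eval (S := ℝ) j (y i : ℝ)
      rw [descPochhammer_succ_left] at h1
      simp only [eval_mul, eval_X, eval_comp, eval_sub, eval_one] at h1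
      rw [h1]; ring)
  rw [Finset.sum_neg_distrib, sum_fin_cast] at this
  unfold vdm
  push_cast
  rw [sub_eq_add_neg, ← this]
  refine Finset.sum_congr rfl fun i _ => ?_
  rcases Nat.eq_zero_or_pos (y i) with h | h
  · simp [h]
  · congr 3
    funext k
    by_cases hk : k = i
    · subst hk; simp [Nat.cast_sub h]
    · simp [Function.update_of_ne hk]

theorem vdm_up {N : ℕ} (y : Fin N → ℕ) :
    ∑ i, ((y i : ℝ) + 1) * vdm (Function.update y i (y i + 1)) =
      (((∑ i, y i : ℕ) : ℝ) - (N.choose 2 : ℕ) + (N : ℝ) ^ 2) * vdm y := by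
  have := row_sum (fun i => (y i : ℝ)) (fun i => (y i : ℝ) + 1) (fun i => (y i : ℝ) + 1)
    (fun j => ((j : ℕ) : ℝ) + 1) (fun j => (ascPochhammer ℝ j).comp (X + C 1))
    (fun i => by
      rw [natDegree_comp, ascPochhammer_natDegree, natDegree_X_add_C, mul_one])
    (fun i => (monic_ascPochhammer ℝ i).comp_X_add_C 1) (by
      intro i j
      have h1 := ascPochhammer_succ_eval (S := ℝ) j ((y i : ℝ) + 1)
      rw [ascPochhammer_succ_left] at h1
      simp only [eval_mul, eval_X, eval_comp, eval_add, eval_one, eval_C] at h1 ⊢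
      rw [h1]; ring)
  rw [Finset.sum_add_distrib, sum_fin_cast] at this
  have h2 : ((N.choose 2 : ℕ) : ℝ) * 2 = N * (N - 1) := by
    rw [Nat.cast_choose_two]; ring
  unfold vdm
  push_cast
  have h3 : (∑ i, (y i : ℝ)) - (N.choose 2 : ℕ) + (N : ℝ) ^ 2 =
      ∑ i, (y i : ℝ) + ((N.choose 2 : ℕ) + ∑ _i : Fin N, (1 : ℝ)) := by
    simp only [Finset.sum_const, card_univ, Fintype.card_fin, nsmul_eq_mul, mul_one]
    nlinarith
  rw [h3, ← this]
  refine Finset.sum_congr rfl fun i _ => ?_
  congr 3
  funext k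
  by_cases hk : k = i
  · subst hk; simp
  · simp [Function.update_of_ne hk]

/-- The raising operator. -/
noncomputable def opU (N : ℕ) : Module.End ℝ ((Fin N → ℕ) → ℝ) where
  toFun F y := ∑ i, (y i : ℝ) * F (Function.update y i (y i - 1))
  map_add' F G := by funext y; simp [mul_add, Finset.sum_add_distrib]
  map_smul' c F := by funext y; simp [Finset.mul_sum, mul_left_comm]

/-- The lowering operator. -/
noncomputable def opD (N : ℕ) : Module.End ℝ ((Fin N → ℕ) → ℝ) where
  toFun F y := ∑ i, ((y i : ℝ) + 1) * F (Function.update y i (y i + 1))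
  map_add' F G := by funext y; simp [mul_add, Finset.sum_add_distrib]
  map_smul' c F := by funext y; simp [Finset.mul_sum, mul_left_comm]

theorem opU_apply {N : ℕ} (F : (Fin N → ℕ) → ℝ) (y : Fin N → ℕ) :
    opU N F y = ∑ i, (y i : ℝ) * F (Function.update y i (y i - 1)) := rfl

theorem opD_apply {N : ℕ} (F : (Fin N → ℕ) → ℝ) (y : Fin N → ℕ) :
    opD N F y = ∑ i, ((y i : ℝ) + 1) * F (Function.update y i (y i + 1)) := rfl

/-- Inner product on a level. -/
noncomputable def ip {N : ℕ} (S : ℕ) (F G : (Fin N → ℕ) → ℝ) : ℝ :=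
  ∑ y ∈ Finset.Nat.antidiagonalTuple N S, F y * G y

theorem sum_update {N : ℕ} (y : Fin N → ℕ) (i : Fin N) (a : ℕ) :
    ∑ k, Function.update y i a k + y i = ∑ k, y k + a := by
  rw [Finset.sum_update_of_mem (mem_univ i), ← Finset.add_sum_erase univ y (mem_univ i),
    Finset.sdiff_singleton_eq_erase]
  ring

theorem ip_adj {N : ℕ} (S : ℕ) (F G : (Fin N → ℕ) → ℝ) :
    ip (S + 1) (opU N F) G = ip S F (opD N G) := by
  unfold ip
  simp only [opU_apply, opD_apply, Finset.sum_mul, Finset.mul_sum]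
  rw [Finset.sum_comm, Finset.sum_comm (s := Finset.Nat.antidiagonalTuple N S)]
  refine Finset.sum_congr rfl fun i _ => ?_
  symm
  refine Finset.sum_bij_ne_zero (fun z _ _ => Function.update z i (z i + 1)) ?_ ?_ ?_ ?_
  · intro z hz _
    rw [Finset.Nat.mem_antidiagonalTuple] at hz ⊢
    have := sum_update z i (z i + 1)
    omega
  · intro a _ _ b _ _ hab
    funext k
    have := congrFun hab k
    by_cases hk : k = i
    · subst hk; simpa using this
    · simpa [Function.update_of_ne hk] using this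
  · intro y hy hne
    have hpos : 0 < y i := by
      rcases Nat.eq_zero_or_pos (y i) with h | h
      · simp [h] at hne
      · exact h
    rw [Finset.Nat.mem_antidiagonalTuple] at hy
    have hup : Function.update (Function.update y i (y i - 1)) i
        (Function.update y i (y i - 1) i + 1) = y := by
      simp [Nat.sub_add_cancel hpos]
    refine ⟨Function.update y i (y i - 1), ?_, ?_, hup⟩
    · rw [Finset.Nat.mem_antidiagonalTuple]
      have := sum_update y i (y i - 1)
      omega
    · rw [hup]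
      simp only [Function.update_self, Nat.cast_sub hpos, Nat.cast_one, sub_add_cancel]
      intro h; apply hne; linarith
  · intro z _ _
    simp
    ring

theorem ip_comm {N : ℕ} (S : ℕ) (F G : (Fin N → ℕ) → ℝ) : ip S F G = ip S G F := by
  unfold ip; simp only [mul_comm]

theorem commut {N : ℕ} (F : (Fin N → ℕ) → ℝ) (y : Fin N → ℕ) :
    opD N (opU N F) y = opU N (opD N F) y + (2 * ((∑ i, y i : ℕ) : ℝ) + N) * F y := by
  simp only [opU_apply, opD_apply, Finset.mul_sum]
  rw [Finset.sum_comm (f := fun i k => (y i : ℝ) * _)]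
  have h0 : (2 * ((∑ i, y i : ℕ) : ℝ) + N) * F y = ∑ i, (2 * (y i : ℝ) + 1) * F y := by
    rw [← Finset.sum_mul, Finset.sum_add_distrib, ← Finset.mul_sum]; simp
  rw [h0, ← Finset.sum_add_distrib]
  refine Finset.sum_congr rfl fun i _ => ?_
  rw [← Finset.add_sum_erase univ _ (mem_univ i), ← Finset.add_sum_erase univ _ (mem_univ i)]
  have h1 : ∑ k ∈ univ.erase i, ((y i : ℝ) + 1) * (((Function.update y i (y i + 1) k : ℕ) : ℝ) *
      F (Function.update (Function.update y i (y i + 1)) k
        (Function.update y i (y i + 1) k - 1))) =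
      ∑ k ∈ univ.erase i, (y k : ℝ) * ((((Function.update y k (y k - 1) i : ℕ) : ℝ) + 1) *
      F (Function.update (Function.update y k (y k - 1)) i
        (Function.update y k (y k - 1) i + 1))) := by
    refine Finset.sum_congr rfl fun k hk => ?_
    have hki := Finset.ne_of_mem_erase hk
    rw [Function.update_of_ne hki, Function.update_of_ne hki.symm, Function.update_comm hki.symm]
    ring
  rw [h1]
  simp only [Function.update_self, Function.update_idem, Nat.add_sub_cancel, Function.update_eq_self]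
  rcases Nat.eq_zero_or_pos (y i) with h | h
  · simp [h]; ring
  · rw [Nat.sub_add_cancel h, Nat.cast_sub h]
    simp only [Function.update_eq_self]
    push_cast
    ring

/-- `F` is supported on level `S`. -/
def Hom {N : ℕ} (S : ℕ) (F : (Fin N → ℕ) → ℝ) : Prop := ∀ y, ∑ i, y i ≠ S → F y = 0

theorem Hom.up {N S : ℕ} {F : (Fin N → ℕ) → ℝ} (h : Hom S F) : Hom (S + 1) (opU N F) := by
  intro y hy
  rw [opU_apply]
  refine Finset.sum_eq_zero fun i _ => ?_
  rcases Nat.eq_zero_or_pos (y i) with h0 | h0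
  · simp [h0]
  · rw [h, mul_zero]
    have := sum_update y i (y i - 1)
    omega

theorem Hom.pow {N S : ℕ} {F : (Fin N → ℕ) → ℝ} (h : Hom S F) (a : ℕ) :
    Hom (S + a) ((opU N ^ a) F) := by
  induction a with
  | zero => simpa using h
  | succ a ih => rw [pow_succ', Module.End.mul_apply]; exact ih.up

theorem Hom.comm {N S : ℕ} {F : (Fin N → ℕ) → ℝ} (h : Hom S F) :
    opD N (opU N F) =
      opU N (opD N F) + (2 * (S : ℝ) + N) • F := by
  funext y
  rw [commut]
  by_cases hy : ∑ i, y i = S
  · simp [hy]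
  · simp [h y hy]

theorem down_pow {N S : ℕ} {F : (Fin N → ℕ) → ℝ} (h : Hom S F) (hD : opD N F = 0) (a : ℕ) :
    opD N ((opU N ^ (a + 1)) F) = (((a : ℝ) + 1) * (2 * (S : ℝ) + N + a)) • (opU N ^ a) F := by
  induction a with
  | zero => simp [h.comm, hD]
  | succ a ih =>
    rw [pow_succ' _ (a + 1), Module.End.mul_apply, (h.pow (a + 1)).comm, ih, map_smul,
      ← Module.End.mul_apply, ← pow_succ', ← add_smul]
    congr 1
    push_cast; ring

/-- `a! (κ)_a`. -/
noncomputable def nrm (κ : ℝ) : ℕ → ℝ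
  | 0 => 1
  | a + 1 => ((a : ℝ) + 1) * (κ + a) * nrm κ a

theorem ip_smul_right {N : ℕ} (S : ℕ) (c : ℝ) (F G : (Fin N → ℕ) → ℝ) :
    ip S F (c • G) = c * ip S F G := by
  unfold ip; simp [Finset.mul_sum, mul_left_comm]

theorem ip_pow_same {N S : ℕ} {F : (Fin N → ℕ) → ℝ} (h : Hom S F) (hD : opD N F = 0) (a : ℕ) :
    ip (S + a) ((opU N ^ a) F) ((opU N ^ a) F) = nrm (2 * (S : ℝ) + N) a * ip S F F := by
  induction a with
  | zero => simp [nrm]
  | succ a ih =>
    conv_lhs => enter [2]; rw [pow_succ', Module.End.mul_apply]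
    rw [← add_assoc, ip_adj, down_pow h hD, ip_smul_right, ih, nrm]
    ring

theorem ip_pow_ne {N S : ℕ} {G : (Fin N → ℕ) → ℝ} (F : (Fin N → ℕ) → ℝ) (h : Hom S G)
    (hD : opD N G = 0) (d b T : ℕ) :
    ip (T + d + 1 + b) ((opU N ^ (d + 1 + b)) F) ((opU N ^ b) G) = 0 := by
  induction b with
  | zero =>
    rw [add_zero, add_zero, pow_succ', Module.End.mul_apply, ip_adj]
    simp [hD, ip]
  | succ b ih =>
    rw [← add_assoc, ← add_assoc (d + 1), pow_succ' _ (d + 1 + b), Module.End.mul_apply, ip_adj,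
      down_pow h hD, ip_smul_right, ih, mul_zero]

end Pool.Agent.Lib.MP_cb200a_pr
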