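import Pool.Agent.Lib.MP_cb200a_pr.Decomp

set_option autoImplicit false

open Finset

namespace Pool.Agent.Lib.MP_cb200a_pr

/-- One step of the ratio recursion; `v = k - a`. -/
noncomputable def stp (k l κ a d : ℝ) : ℝ :=
  (l ^ 2 * (k + 1) + (k - a + l + 1) ^ 2 * a * (d / (1 - d))) / ((k - a) * (k - a + 1) * (κ + a))

/-- The defect sequence. -/
noncomputable def dd (k l κ : ℝ) : ℕ → ℝ
  | 0 => stp k l κ 0 0
  | a + 1 => stp k l κ ((a : ℝ) + 1) (dd k l κ a)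

theorem g_le {d : ℝ} (h0 : 0 ≤ d) (h1 : d ≤ 3 / 40) : 0 ≤ d / (1 - d) ∧ d / (1 - d) ≤ 3 / 37 := by
  have : 0 < 1 - d := by linarith
  refine ⟨by positivity, ?_⟩
  rw [div_le_iff₀ this]; linarith

theorem beta_num {k l N a : ℝ} (hl0 : 0 ≤ l) (hl : l ≤ N) (hk : k ≤ N) (ha : a = 0 ∨ 1 ≤ a)
    (hv : 1 ≤ k - a) (hv2 : 16 * k ≤ (k - a) ^ 2) :
    (k - a + l + 1) ^ 2 * a ≤ 2 * k * N ^ 2 := by
  rcases ha with rfl | ha
  · have : 0 ≤ k := by linarith
    simp only [mul_zero]; positivity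
  · set b := k - a + 1 with hb
    have hak : a = k + 1 - b := by linarith
    have h1 : k - a + l + 1 ≤ b + N := by linarith
    have h2 : b ≤ k := by linarith
    have h3 : (b + N) * a ≤ N * k := by
      have : b * a ≤ k * (b - 1) := by nlinarith
      have : k * (b - 1) ≤ N * (b - 1) := by nlinarith
      nlinarith
    have h4 : (k - a + l + 1) ^ 2 ≤ (b + N) ^ 2 := by
      apply pow_le_pow_left₀ (by linarith) h1
    calc (k - a + l + 1) ^ 2 * a ≤ (b + N) ^ 2 * a := by gcongr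
      _ = (b + N) * ((b + N) * a) := by ring
      _ ≤ (2 * N) * (N * k) := by gcongr <;> nlinarith
      _ = 2 * k * N ^ 2 := by ring

theorem stp_bound {k l κ N a d : ℝ} (hl0 : 0 ≤ l) (hl : l ≤ N) (hk : k ≤ N) (hκ : N ^ 2 ≤ κ)
    (ha : a = 0 ∨ 1 ≤ a) (hv : 1 ≤ k - a) (hv2 : 16 * k ≤ (k - a) ^ 2) (h0 : 0 ≤ d)
    (h1 : d ≤ 3 / 40) : 0 ≤ stp k l κ a d ∧ stp k l κ a d ≤ 6 / 5 * (k / (k - a) ^ 2) := by
  obtain ⟨g0, g1⟩ := g_le h0 h1
  have ha0 : 0 ≤ a := by rcases ha with h | h <;> linarith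
  have hk0 : 1 ≤ k := by linarith
  have hN : 1 ≤ N := by linarith
  have hκ0 : 0 < κ := by nlinarith
  have hb := beta_num hl0 hl hk ha hv hv2
  set v := k - a with hvd
  have hvk : v ≤ k := by linarith
  unfold stp
  rw [← hvd]
  refine ⟨by positivity, ?_⟩
  rw [div_le_iff₀ (by positivity)]
  have e1 : 6 / 5 * (k / v ^ 2) * (v * (v + 1) * (κ + a)) = 6 / 5 * (k * (v + 1) / v) * (κ + a) := by
    field_simp
  have e2 : k + 1 ≤ k * (v + 1) / v := by
    rw [le_div_iff₀ (by linarith)]; nlinarith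
  have e3 : l ^ 2 ≤ κ + a := by nlinarith
  have e4 : (v + l + 1) ^ 2 * a * (d / (1 - d)) ≤ 2 * k * (κ + a) * (3 / 37) := by
    have : (v + l + 1) ^ 2 * a ≤ 2 * k * (κ + a) :=
      calc (v + l + 1) ^ 2 * a ≤ 2 * k * N ^ 2 := hb
        _ ≤ 2 * k * (κ + a) := by gcongr; linarith
    exact mul_le_mul this g1 g0 (by positivity)
  have e5 : l ^ 2 * (k + 1) ≤ (κ + a) * (k + 1) := by gcongr
  rw [e1]
  calc l ^ 2 * (k + 1) + (v + l + 1) ^ 2 * a * (d / (1 - d))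
      ≤ (κ + a) * (k + 1) + 2 * k * (κ + a) * (3 / 37) := by linarith
    _ ≤ 6 / 5 * (k + 1) * (κ + a) := by nlinarith
    _ ≤ 6 / 5 * (k * (v + 1) / v) * (κ + a) := by gcongr

theorem theta_le {k v : ℝ} (hv : 1 ≤ v) (hv2 : 16 * k ≤ v ^ 2) : 6 / 5 * (k / v ^ 2) ≤ 3 / 40 := by
  have : k / v ^ 2 ≤ 1 / 16 := by
    rw [div_le_iff₀ (by positivity)]; linarith
  linarith

theorem dd_bound {k l κ N J : ℝ} (hl0 : 0 ≤ l) (hl : l ≤ N) (hk : k ≤ N) (hκ : N ^ 2 ≤ κ)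
    (hJ : 1 ≤ J) (hJ2 : 16 * k ≤ J ^ 2) (a : ℕ) (ha : a + J ≤ k) :
    0 ≤ dd k l κ a ∧ dd k l κ a ≤ 6 / 5 * (k / (k - a) ^ 2) := by
  induction a with
  | zero =>
    simp only [Nat.cast_zero, zero_add] at ha ⊢
    exact stp_bound hl0 hl hk hκ (Or.inl rfl) (by linarith) (by nlinarith) le_rfl (by norm_num)
  | succ a ih =>
    push_cast at ha ⊢
    obtain ⟨h0, h1⟩ := ih (by linarith)
    have ha0 : (0 : ℝ) ≤ a := Nat.cast_nonneg a
    exact stp_bound hl0 hl hk hκ (Or.inr (by linarith)) (by linarith) (by nlinarith) h0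
      (h1.trans (theta_le (by linarith) (by nlinarith)))

theorem dd_le {k l κ N J : ℝ} (hl0 : 0 ≤ l) (hl : l ≤ N) (hk : k ≤ N) (hκ : N ^ 2 ≤ κ)
    (hJ : 1 ≤ J) (hJ2 : 16 * k ≤ J ^ 2) (a : ℕ) (ha : a + J ≤ k) : dd k l κ a ≤ 3 / 40 :=
  (dd_bound hl0 hl hk hκ hJ hJ2 a ha).2.trans (theta_le (by linarith) (by nlinarith))

theorem stp_mono {k l l' κ κ' a d d' : ℝ} (hl0 : 0 ≤ l') (hl : l' ≤ l) (hκ : κ ≤ κ') (hkκ : k ≤ κ)
    (ha : 0 ≤ a) (hv : 1 ≤ k - (a + 1)) (h0 : 0 ≤ d') (hd : d' ≤ d) (h1 : d < 1) :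
    stp k l' κ' a d' ≤ stp k l κ (a + 1) d := by
  obtain ⟨v, hvd⟩ : ∃ v, v = k - (a + 1) := ⟨_, rfl⟩
  have hka : k - a = v + 1 := by linarith
  unfold stp
  rw [hka, ← hvd]
  have hk0 : 0 < k := by linarith
  have hκ0 : 0 < κ := by linarith
  have hl1 : 0 ≤ l := by linarith
  have hv0 : 0 < v := by linarith
  have hg : d' / (1 - d') ≤ d / (1 - d) := by
    apply div_le_div₀ (by linarith) hd (by linarith) (by linarith)
  have hg0 : 0 ≤ d' / (1 - d') := div_nonneg h0 (by linarith)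
  rw [add_div, add_div]
  apply add_le_add
  · apply div_le_div₀ (by positivity) (by gcongr) (by positivity)
    have : v * (κ + (a + 1)) ≤ (v + 1 + 1) * (κ' + a) := by nlinarith
    calc v * (v + 1) * (κ + (a + 1)) = (v + 1) * (v * (κ + (a + 1))) := by ring
      _ ≤ (v + 1) * ((v + 1 + 1) * (κ' + a)) := by gcongr
      _ = _ := by ring
  · have e1 : (v + 1 + l' + 1) ^ 2 * a * (d' / (1 - d')) / ((v + 1) * (v + 1 + 1) * (κ' + a)) =
        (1 + l' / (v + 2)) * (1 + (l' + 1) / (v + 1)) * (a / (κ' + a)) * (d' / (1 - d')) := by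
      have : κ' + a ≠ 0 := by linarith
      generalize d' / (1 - d') = g
      field_simp
      ring
    have e2 : (v + l + 1) ^ 2 * (a + 1) * (d / (1 - d)) / (v * (v + 1) * (κ + (a + 1))) =
        (1 + l / (v + 1)) * (1 + (l + 1) / v) * ((a + 1) / (κ + (a + 1))) * (d / (1 - d)) := by
      generalize d / (1 - d) = g
      field_simp
      ring
    rw [e1, e2]
    have e3 : a / (κ' + a) ≤ (a + 1) / (κ + (a + 1)) := by
      rw [div_le_div_iff₀ (by linarith) (by linarith)]; nlinarith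
    have : 0 ≤ a / (κ' + a) := div_nonneg ha (by linarith)
    gcongr <;> linarith

theorem dd_mono {k l l' κ κ' N J : ℝ} (hl0 : 0 ≤ l') (hl' : l' ≤ l) (hl : l ≤ N) (hk : k ≤ N)
    (hκ : N ^ 2 ≤ κ) (hκ' : κ ≤ κ') (hJ : 1 ≤ J) (hJ2 : 16 * k ≤ J ^ 2) (a : ℕ)
    (ha : a + 1 + J ≤ k) : dd k l' κ' a ≤ dd k l κ (a + 1) := by
  have hkκ : k ≤ κ := by
    have : (0 : ℝ) ≤ a := Nat.cast_nonneg a
    nlinarith
  induction a with
  | zero =>
    simp only [Nat.cast_zero, zero_add] at ha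
    have h0 := dd_bound (le_trans hl0 hl') hl hk hκ hJ hJ2 0 (by simp; linarith)
    have h1 := dd_le (le_trans hl0 hl') hl hk hκ hJ hJ2 0 (by simp; linarith)
    have := stp_mono (k := k) (a := 0) (d := dd k l κ 0) (d' := 0) hl0 hl' hκ' hkκ le_rfl
      (by linarith) le_rfl h0.1 (by linarith)
    simpa [dd] using this
  | succ a ih =>
    push_cast at ha
    have ha0 : (0 : ℝ) ≤ a := Nat.cast_nonneg a
    have h0 := dd_bound hl0 (hl'.trans hl) hk (hκ.trans hκ') hJ hJ2 a (by linarith)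
    have h1 := dd_le (le_trans hl0 hl') hl hk hκ hJ hJ2 (a + 1) (by push_cast; linarith)
    have := stp_mono (k := k) (a := (a : ℝ) + 1) hl0 hl' hκ' hkκ (by linarith)
      (by linarith) h0.1 (ih (by linarith)) (by linarith)
    rw [dd, dd]
    push_cast
    exact this

theorem diff_s1 {k l A N v : ℝ} (hl1 : 1 ≤ l) (hl : l ≤ N) (hv : 16 ≤ v) (hvk : v + 1 ≤ k)
    (hk : k ≤ N) (hAN : N ^ 2 ≤ A) :
    (k + 1) / (v + 1) * (2 * (l ^ 2 / (A + 1)) / (v * (v + 2)) +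
      (l ^ 2 / A) / (v * (A + 1)) + (2 * l - 1) / ((v + 2) * (A + 1))) ≤ 5 * (k / v ^ 3) := by
  have hv0 : 0 < v := by linarith
  have hvN : v ≤ N := by linarith
  have hA0 : 0 < A := by nlinarith
  have t1 : (k + 1) / (v + 1) ≤ k / v := by
    rw [div_le_div_iff₀ (by linarith) hv0]; nlinarith
  have hlA : l ^ 2 ≤ A := le_trans (pow_le_pow_left₀ (by linarith) hl 2) hAN
  have hvA : v ≤ A := by nlinarith
  have hlv : l * v ≤ A := by
    have : l * v ≤ N * N := mul_le_mul hl hvN hv0.le (by linarith)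
    nlinarith
  have t2 : 2 * (l ^ 2 / (A + 1)) / (v * (v + 2)) ≤ 2 / v ^ 2 := by
    have : l ^ 2 / (A + 1) ≤ 1 := by rw [div_le_one (by linarith)]; linarith
    apply div_le_div₀ (by norm_num) (by linarith) (by positivity) (by nlinarith)
  have t3 : (l ^ 2 / A) / (v * (A + 1)) ≤ 1 / v ^ 2 := by
    have : l ^ 2 / A ≤ 1 := by rw [div_le_one hA0]; linarith
    apply div_le_div₀ (by norm_num) this (by positivity)
    have := mul_le_mul_of_nonneg_left hvA hv0.le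
    nlinarith
  have t4 : (2 * l - 1) / ((v + 2) * (A + 1)) ≤ 2 / v ^ 2 := by
    rw [div_le_div_iff₀ (by positivity) (by positivity)]
    have h1 := mul_le_mul_of_nonneg_left hlv hv0.le
    have h2 : 0 ≤ v ^ 2 := by positivity
    have h3 : 2 * ((v + 2) * (A + 1)) = 2 * (v * A) + (2 * v + 4 * A + 4) := by ring
    have h4 : (2 * l - 1) * v ^ 2 = 2 * (v * (l * v)) - v ^ 2 := by ring
    rw [h3, h4]
    linarith
  have hp : 0 ≤ (2 * l - 1) / ((v + 2) * (A + 1)) := div_nonneg (by linarith) (by positivity)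
  calc _ ≤ k / v * (2 / v ^ 2 + 1 / v ^ 2 + 2 / v ^ 2) := by
        apply mul_le_mul t1 (by linarith) (by positivity) (div_nonneg (by linarith) hv0.le)
    _ = 5 * (k / v ^ 3) := by field_simp; ring

theorem diff_s2 {k l A N v a : ℝ} (hl1 : 1 ≤ l) (hl : l ≤ N) (hv : 16 ≤ v) (ha : 0 ≤ a)
    (hvk : v + (a + 1) = k) (hk : k ≤ N) (hAN : N ^ 2 ≤ A) :
    (v + l + 1) ^ 2 / (A + 1) * (1 / ((v + 1) * (v + 2)) +
      2 * (a + 1) / (v * (v + 1) * (v + 2)) + (a + 1) / (v * (v + 1) * A)) ≤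
      4 * (9 / 4 * (k / v ^ 3)) := by
  have hv0 : 0 < v := by linarith
  have hvN : v ≤ N := by linarith
  have hA0 : 0 < A := by nlinarith
  have u1 : (v + l + 1) ^ 2 / (A + 1) ≤ 4 := by
    rw [div_le_iff₀ (by linarith)]
    have : v + l + 1 ≤ 2 * N := by linarith
    have : (v + l + 1) ^ 2 ≤ (2 * N) ^ 2 := pow_le_pow_left₀ (by linarith) this 2
    nlinarith
  have u2 : 1 / ((v + 1) * (v + 2)) ≤ v / v ^ 3 := by
    have : v / v ^ 3 = 1 / v ^ 2 := by field_simp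
    rw [this]
    apply div_le_div_of_nonneg_left (by norm_num) (by positivity); nlinarith
  have u3 : 2 * (a + 1) / (v * (v + 1) * (v + 2)) ≤ 2 * (a + 1) / v ^ 3 := by
    apply div_le_div_of_nonneg_left (by linarith) (by positivity)
    have : v ^ 3 = v * v * v := by ring
    rw [this]; gcongr <;> linarith
  have u4 : (a + 1) / (v * (v + 1) * A) ≤ 1 / v ^ 3 := by
    rw [div_le_div_iff₀ (by positivity) (by positivity)]
    have h1 : (a + 1) * v ≤ N * N := mul_le_mul (by linarith) hvN hv0.le (by linarith)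
    have h2 : (a + 1) * v ≤ A := by nlinarith
    calc (a + 1) * v ^ 3 = v * v * ((a + 1) * v) := by ring
      _ ≤ v * (v + 1) * A := by gcongr; linarith
      _ = _ := by ring
  have u5 : v / v ^ 3 + 2 * (a + 1) / v ^ 3 + 1 / v ^ 3 ≤ 9 / 4 * (k / v ^ 3) := by
    rw [← add_div, ← add_div, ← mul_div_assoc]
    apply div_le_div_of_nonneg_right _ (by positivity)
    linarith
  apply mul_le_mul u1 (by linarith) (by positivity) (by norm_num)

theorem diff_split {k l A v a g g' : ℝ} (hv : 0 < v) (hA : 0 < A) :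
    (l ^ 2 * (k + 1) + (v + l + 1) ^ 2 * (a + 1) * g) / (v * (v + 1) * A) -
      ((l - 1) ^ 2 * (k + 1) + (v + 1 + (l - 1) + 1) ^ 2 * a * g') /
        ((v + 1) * (v + 1 + 1) * (A + 1)) =
      (k + 1) / (v + 1) * (2 * (l ^ 2 / (A + 1)) / (v * (v + 2)) + (l ^ 2 / A) / (v * (A + 1)) +
          (2 * l - 1) / ((v + 2) * (A + 1))) +
        (v + l + 1) ^ 2 / (A + 1) * (1 / ((v + 1) * (v + 2)) + 2 * (a + 1) / (v * (v + 1) * (v + 2))
          + (a + 1) / (v * (v + 1) * A)) * g +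
        (v + 1 + (l - 1) + 1) ^ 2 * a / ((v + 1) * (v + 2) * (A + 1)) * (g - g') := by
  field_simp
  ring

theorem g_lip {d d' e : ℝ} (h1 : d ≤ 3 / 40) (h1' : d' ≤ 3 / 40) (he0 : 0 ≤ e) (he : d - d' ≤ e) :
    d / (1 - d) - d' / (1 - d') ≤ 1600 / 1369 * e := by
  have e1 : d / (1 - d) - d' / (1 - d') = (d - d') / ((1 - d) * (1 - d')) := by
    have : 1 - d ≠ 0 := by linarith
    have : 1 - d' ≠ 0 := by linarith
    field_simp; ring
  rw [e1, div_le_iff₀ (mul_pos (by linarith) (by linarith))]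
  have : 1369 / 1600 ≤ (1 - d) * (1 - d') := by nlinarith
  nlinarith

theorem stp_diff {k l κ N a d d' : ℝ} (hl1 : 1 ≤ l) (hl : l ≤ N) (hk : k ≤ N) (hκ : N ^ 2 ≤ κ)
    (ha : a = 0 ∨ 1 ≤ a) (hv : 16 ≤ k - (a + 1)) (hv2 : 16 * k ≤ (k - (a + 1)) ^ 2)
    (h0 : 0 ≤ d) (h1 : d ≤ 3 / 40) (h1' : d' ≤ 3 / 40)
    (he : d - d' ≤ 7 * (k / (k - (a + 1)) ^ 3)) :
    stp k l κ (a + 1) d - stp k (l - 1) (κ + 2) a d' ≤ 7 * (k / (k - (a + 1)) ^ 3) := by
  have ha0 : 0 ≤ a := by rcases ha with h | h <;> linarith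
  have hb := beta_num (k := k) (l := l - 1) (N := N) (a := a) (by linarith) (by linarith) hk ha
    (by linarith) (by nlinarith)
  obtain ⟨v, hvd⟩ : ∃ v, v = k - (a + 1) := ⟨_, rfl⟩
  have hka : k - a = v + 1 := by linarith
  unfold stp
  rw [hka] at hb ⊢
  rw [← hvd] at hv hv2 he ⊢
  obtain ⟨A, hA⟩ : ∃ A, A = κ + (a + 1) := ⟨_, rfl⟩
  have hA' : κ + 2 + a = A + 1 := by linarith
  rw [hA', ← hA]
  have hAN : N ^ 2 ≤ A := by linarith
  have hA0 : 0 < A := lt_of_lt_of_le (pow_pos (by linarith) 2) hAN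
  have hv0 : 0 < v := by linarith
  have hk0 : 0 ≤ k := by linarith
  obtain ⟨g0, g1⟩ := g_le h0 h1
  have hθ : 0 ≤ k / v ^ 3 := by positivity
  have hgd := g_lip h1 h1' (by positivity) he
  generalize d / (1 - d) = g at *
  generalize d' / (1 - d') = g' at *
  rw [diff_split hv0 hA0]
  have s1 := diff_s1 hl1 hl hv (by linarith) hk hAN
  have s2 := mul_le_mul (diff_s2 hl1 hl hv ha0 (by linarith) hk hAN) g1 g0 (by positivity)
  have w1 : (v + 1 + (l - 1) + 1) ^ 2 * a / ((v + 1) * (v + 2) * (A + 1)) ≤ 1 / 8 := by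
    rw [div_le_iff₀ (by positivity)]
    have : 2 * k * N ^ 2 ≤ 2 * k * (A + 1) := by gcongr; linarith
    have h5 : 16 * k ≤ (v + 1) * (v + 2) := by nlinarith
    have : 16 * k * (A + 1) ≤ (v + 1) * (v + 2) * (A + 1) := by gcongr
    linarith
  have w0 : 0 ≤ (v + 1 + (l - 1) + 1) ^ 2 * a / ((v + 1) * (v + 2) * (A + 1)) := by positivity
  have s3 : (v + 1 + (l - 1) + 1) ^ 2 * a / ((v + 1) * (v + 2) * (A + 1)) * (g - g') ≤
      1 / 8 * (1600 / 1369 * (7 * (k / v ^ 3))) := by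
    calc _ ≤ (v + 1 + (l - 1) + 1) ^ 2 * a / ((v + 1) * (v + 2) * (A + 1)) *
          (1600 / 1369 * (7 * (k / v ^ 3))) := by gcongr
      _ ≤ _ := by gcongr
  linarith

theorem dd_diff {k l κ N J : ℝ} (hl1 : 1 ≤ l) (hl : l ≤ N) (hk : k ≤ N) (hκ : N ^ 2 ≤ κ)
    (hJ : 16 ≤ J) (hJ2 : 16 * k ≤ J ^ 2) (a : ℕ) (ha : a + 1 + J ≤ k) :
    dd k l κ (a + 1) - dd k (l - 1) (κ + 2) a ≤ 7 * (k / (k - (a + 1)) ^ 3) := by
  induction a with
  | zero =>
    simp only [Nat.cast_zero, zero_add] at ha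
    have h0 := dd_bound (by linarith) hl hk hκ (by linarith) hJ2 0 (by simp; linarith)
    have h1 := dd_le (by linarith) hl hk hκ (by linarith) hJ2 0 (by simp; linarith)
    have := stp_diff (k := k) (a := 0) (d := dd k l κ 0) (d' := dd k l κ 0) hl1 hl hk hκ
      (Or.inl rfl) (by linarith) (by nlinarith) h0.1 h1 h1 (by
        have : 0 ≤ k := by linarith
        have : 0 ≤ k - (0 + 1) := by linarith
        rw [sub_self]; positivity)
    simpa [dd, stp] using this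
  | succ a ih =>
    push_cast at ha
    have ha0 : (0 : ℝ) ≤ a := Nat.cast_nonneg a
    have h0 := dd_bound (by linarith) hl hk hκ (by linarith) hJ2 (a + 1) (by push_cast; linarith)
    have h1 := dd_le (by linarith) hl hk hκ (by linarith) hJ2 (a + 1) (by push_cast; linarith)
    have h1' := dd_le (k := k) (l := l - 1) (κ := κ + 2) (by linarith) (by linarith) hk
      (by linarith) (by linarith) hJ2 a (by linarith)
    have := stp_diff (k := k) (a := (a : ℝ) + 1) hl1 hl hk hκ (Or.inr (by linarith))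
      (by linarith) (by nlinarith) h0.1 h1 h1' ((ih (by linarith)).trans (by
        have : 0 ≤ k := by linarith
        have : 0 < k - (a + 1 + 1) := by linarith
        gcongr; linarith))
    rw [dd, dd]
    push_cast
    exact this

end Pool.Agent.Lib.MP_cb200a_pr
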