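import Pool.Agent.Lib.MP_cb200a_pr.Conc

set_option autoImplicit false

open Finset Nat

namespace Pool.Agent.Lib.MP_cb200a_pr

open Classical in
/-- strictly increasing tuples with given sum -/
noncomputable def srt (N S : ℕ) : Finset (Fin N → ℕ) :=
  (Finset.Nat.antidiagonalTuple N S).filter StrictMono

theorem mem_srt {N S : ℕ} {y : Fin N → ℕ} : y ∈ srt N S ↔ ∑ i, y i = S ∧ StrictMono y := by
  unfold srt
  rw [Finset.mem_filter, Finset.Nat.mem_antidiagonalTuple]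

theorem sum_symm {N S : ℕ} (G : (Fin N → ℕ) → ℝ)
    (h1 : ∀ (y : Fin N → ℕ) (σ : Equiv.Perm (Fin N)), G (y ∘ σ) = G y)
    (h2 : ∀ y, G y ≠ 0 → Function.Injective y) :
    ∑ y ∈ Finset.Nat.antidiagonalTuple N S, G y = (N ! : ℝ) * ∑ y ∈ srt N S, G y := by
  classical
  have e1 : ∑ y ∈ Finset.Nat.antidiagonalTuple N S, G y =
      ∑ y ∈ (Finset.Nat.antidiagonalTuple N S).filter Function.Injective, G y := by
    rw [Finset.sum_filter_of_ne fun y _ hy => h2 y hy]
  have e2 : (N ! : ℝ) * ∑ y ∈ srt N S, G y =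
      ∑ p ∈ (univ : Finset (Equiv.Perm (Fin N))) ×ˢ srt N S, G (p.2 ∘ p.1) := by
    rw [Finset.sum_product]
    simp [h1, Fintype.card_perm]
  rw [e1, e2]
  symm
  refine Finset.sum_bij (fun p _ => p.2 ∘ p.1) ?_ ?_ ?_ (fun _ _ => rfl)
  · rintro ⟨σ, z⟩ hp
    obtain ⟨hz1, hz2⟩ := mem_srt.1 (Finset.mem_product.1 hp).2
    rw [Finset.mem_filter, Finset.Nat.mem_antidiagonalTuple]
    refine ⟨?_, hz2.injective.comp σ.injective⟩
    rw [← hz1]; exact Equiv.sum_comp σ z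
  · rintro ⟨σ, z⟩ hp ⟨τ, w⟩ hq h
    obtain ⟨-, hz2⟩ := mem_srt.1 (Finset.mem_product.1 hp).2
    obtain ⟨-, hw2⟩ := mem_srt.1 (Finset.mem_product.1 hq).2
    simp only at h hz2 hw2
    have a1 : (z ∘ σ) ∘ σ.symm = z := by funext i; simp
    have a2 : (z ∘ σ) ∘ τ.symm = w := by rw [h]; funext i; simp
    have a3 : z = w := by
      have := Tuple.unique_monotone (f := z ∘ σ) (σ := σ.symm) (τ := τ.symm)
        (by rw [a1]; exact hz2.monotone) (by rw [a2]; exact hw2.monotone)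
      rwa [a1, a2] at this
    subst a3
    have a4 : σ = τ := Equiv.ext fun i => hz2.injective (congrFun h i)
    rw [a4]
  · intro y hy
    rw [Finset.mem_filter, Finset.Nat.mem_antidiagonalTuple] at hy
    refine ⟨((Tuple.sort y).symm, y ∘ Tuple.sort y), ?_, ?_⟩
    · rw [Finset.mem_product, mem_srt]
      refine ⟨mem_univ _, ?_, strictMono_sort hy.2⟩
      rw [← hy.1]; exact Equiv.sum_comp (Tuple.sort y) y
    · funext i; simp

theorem vdm_perm_sq {N : ℕ} (y : Fin N → ℕ) (σ : Equiv.Perm (Fin N)) :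
    vdm (y ∘ σ) ^ 2 = vdm y ^ 2 := by
  unfold vdm
  have : (Matrix.vandermonde fun i => ((y ∘ σ) i : ℝ)) =
      (Matrix.vandermonde fun i => (y i : ℝ)).submatrix σ id := by
    ext i j; simp
  rw [this, Matrix.det_permute, mul_pow]
  rcases Int.units_eq_one_or (Equiv.Perm.sign σ) with h | h <;> simp [h]

noncomputable def sw (N m x : ℕ) : ℝ := ∑ y ∈ srt N (N.choose 2 + m), vx x y ^ 2

theorem ww_eq (N m x : ℕ) : ww N m x = (N ! : ℝ) * sw N m x := by
  refine sum_symm (fun y => vx x y ^ 2) (fun y σ => ?_) (fun y hy => ?_)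
  · simp only [vx_eq, mul_pow, vdm_perm_sq]
    congr 2
    exact Equiv.prod_comp σ (fun i => (x : ℝ) - y i)
  · rw [vx_eq] at hy
    exact inj_of_vdm (left_ne_zero_of_mul (pow_ne_zero_iff (by norm_num) |>.1 hy))

theorem sw_nonneg (N m x : ℕ) : 0 ≤ sw N m x := Finset.sum_nonneg fun _ _ => sq_nonneg _

theorem srt_zero (N : ℕ) : srt N (N.choose 2 + 0) = {fun i : Fin N => (i : ℕ)} := by
  ext y
  rw [mem_srt, Finset.mem_singleton, add_zero]
  constructor
  · rintro ⟨h1, h2⟩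
    have := (Finset.sum_eq_sum_iff_of_le (s := univ) (f := fun i : Fin N => (i : ℕ)) (g := y)
      fun i _ => le_of_strictMono h2 i).1 (by rw [sum_fin_id, h1])
    funext i; exact (this i (mem_univ _)).symm
  · rintro rfl
    exact ⟨sum_fin_id N, fun a b h => h⟩

theorem prod_desc (x N : ℕ) (h : N ≤ x) :
    ∏ i : Fin N, ((x : ℝ) - ((i : ℕ) : ℝ)) = (x.descFactorial N : ℕ) := by
  rw [Nat.descFactorial_eq_prod_range, Fin.prod_univ_eq_prod_range (fun i => (x : ℝ) - (i : ℝ)) N]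
  push_cast
  refine Finset.prod_congr rfl fun i hi => ?_
  rw [Nat.cast_sub (by have := mem_range.1 hi; omega)]

theorem sw_zero (N : ℕ) : sw (N + 1) 0 (N + 1) = ((N + 1)! : ℝ) ^ 2 * sw N 0 N := by
  unfold sw
  rw [srt_zero, srt_zero, Finset.sum_singleton, Finset.sum_singleton, vx_eq,
    prod_desc _ _ le_rfl, Nat.descFactorial_self, mul_pow, mul_comm]
  congr 2
  unfold vx
  congr 1
  funext i
  induction i using Fin.lastCases <;> simp

theorem sum_le_of_inj {α β : Type*} [DecidableEq β] (s : Finset α) (t : Finset β) (f : α → ℝ)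
    (g : β → ℝ) (ψ : α → β) (hm : ∀ a ∈ s, ψ a ∈ t) (hi : Set.InjOn ψ s)
    (hf : ∀ a ∈ s, f a ≤ g (ψ a)) (hg : ∀ b ∈ t, 0 ≤ g b) : ∑ a ∈ s, f a ≤ ∑ b ∈ t, g b := by
  calc ∑ a ∈ s, f a ≤ ∑ a ∈ s, g (ψ a) := Finset.sum_le_sum hf
    _ = ∑ b ∈ s.image ψ, g b := (Finset.sum_image hi).symm
    _ ≤ _ := Finset.sum_le_sum_of_subset_of_nonneg
      (fun b hb => by obtain ⟨a, ha, rfl⟩ := Finset.mem_image.1 hb; exact hm a ha)
      fun b hb _ => hg b hb

theorem vx_snoc_le {N x x' : ℕ} {y : Fin N → ℕ} (hy : StrictMono y) (hyx : ∀ i, y i < x')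
    (hx : N ≤ x) (hxx : x < x') :
    vx x (Fin.snoc y x' : Fin (N + 1) → ℕ) ^ 2 ≤
      ((x'.descFactorial (N + 1) : ℕ) : ℝ) ^ 2 * vx x y ^ 2 := by
  have e : vx x (Fin.snoc y x' : Fin (N + 1) → ℕ) ^ 2 =
      (((x' : ℝ) - x) * ∏ i, ((x' : ℝ) - y i)) ^ 2 * vx x y ^ 2 := by
    rw [vx_eq, Fin.prod_univ_castSucc]
    simp only [Fin.snoc_castSucc, Fin.snoc_last]
    change (vx x' y * _) ^ 2 = _
    rw [vx_eq, vx_eq]; ring
  rw [e]
  have h0 : ∀ i, (0 : ℝ) ≤ (x' : ℝ) - y i := fun i => by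
    have : (y i : ℝ) < x' := by exact_mod_cast hyx i
    linarith
  have h1 : ∏ i, ((x' : ℝ) - y i) ≤ (x'.descFactorial N : ℕ) := by
    rw [← prod_desc x' N (by omega)]
    refine Finset.prod_le_prod (fun i _ => h0 i) fun i _ => ?_
    have : ((i : ℕ) : ℝ) ≤ y i := by exact_mod_cast le_of_strictMono hy i
    linarith
  have h2 : (x : ℝ) < x' := by exact_mod_cast hxx
  have h3 : (N : ℝ) ≤ x := by exact_mod_cast hx
  have h4 := Finset.prod_nonneg (s := univ) fun i _ => h0 i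
  rw [Nat.descFactorial_succ, Nat.cast_mul, Nat.cast_sub (by omega)]
  have h5 : (0 : ℝ) ≤ (x' : ℝ) - x := by linarith
  have h6 : (0 : ℝ) ≤ (x' : ℝ) - N := by linarith
  gcongr

open Classical in
/-- configurations whose top particle is at `x` -/
noncomputable def tw (N m x : ℕ) : ℝ :=
  ∑ y ∈ (srt N (N.choose 2 + m)).filter (fun y => ∀ i, y i < x), vx x y ^ 2

theorem tw_nonneg (N m x : ℕ) : 0 ≤ tw N m x := Finset.sum_nonneg fun _ _ => sq_nonneg _

theorem tw_le (N m x : ℕ) : tw N m x ≤ sw N m x :=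
  Finset.sum_le_sum_of_subset_of_nonneg (Finset.filter_subset _ _) fun _ _ _ => sq_nonneg _

theorem bad_le (N m j : ℕ) : sw (N + 1) m (j + (N + 1)) ≤ tw (N + 1) m (j + (N + 1)) +
    ∑ i ∈ range (m - 1 - j), (((j + 1 + i + (N + 1)).descFactorial (N + 1) : ℕ) : ℝ) ^ 2 *
      sw N (m - 2 - j - i) (j + (N + 1)) := by
  classical
  set x := j + (N + 1) with hx
  unfold sw tw
  rw [← Finset.sum_filter_add_sum_filter_not (srt (N + 1) ((N + 1).choose 2 + m))
    (fun y => ∀ i, y i < x)]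
  refine add_le_add (le_of_eq (by congr)) ?_
  rw [← Finset.sum_filter_ne_zero]
  simp only [Finset.mul_sum]
  rw [Finset.sum_sigma']
  refine sum_le_of_inj _ _ _ _ (fun y => (⟨y (Fin.last N) - (x + 1), Fin.init y⟩ :
    Σ _ : ℕ, Fin N → ℕ)) ?_ ?_ ?_ (fun _ _ => by positivity)
  all_goals
    have hfact : ∀ y ∈ ((srt (N + 1) ((N + 1).choose 2 + m)).filter
        (fun y => ¬ ∀ i, y i < x)).filter (fun y => vx x y ^ 2 ≠ 0),
        x < y (Fin.last N) ∧ StrictMono (Fin.init y) ∧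
        (∀ i, Fin.init y i < y (Fin.last N)) ∧
        ∑ i, Fin.init y i + y (Fin.last N) = N.choose 2 + N + m := by
      intro y hy
      simp only [Finset.mem_filter, mem_srt] at hy
      obtain ⟨⟨⟨h1, h2⟩, h3⟩, h4⟩ := hy
      refine ⟨?_, fun a b h => h2 (by simpa using h), fun i => h2 (Fin.castSucc_lt_last i), ?_⟩
      · push Not at h3
        obtain ⟨i, hi⟩ := h3
        have h5 : y i ≤ y (Fin.last N) := h2.monotone (Fin.le_last i)
        refine lt_of_le_of_ne (hi.trans h5) fun h => h4 ?_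
        rw [vx_eq, Finset.prod_eq_zero (mem_univ (Fin.last N)) (by rw [h, sub_self])]
        simp
      · rw [Fin.sum_univ_castSucc, choose_succ_two] at h1
        exact h1
  · intro y hy
    obtain ⟨h1, h2, h3, h4⟩ := hfact y hy
    have h5 := low_of_inj h2.injective
    rw [Finset.mem_sigma, mem_range, mem_srt]
    refine ⟨by simp only; omega, by simp only; omega, h2⟩
  · intro y hy z hz h
    obtain ⟨h1, -⟩ := hfact y hy
    obtain ⟨h2, -⟩ := hfact z hz
    simp only [Sigma.mk.injEq, heq_eq_eq] at h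
    rw [← Fin.snoc_init_self y, ← Fin.snoc_init_self z, h.2, show y (Fin.last N) = z (Fin.last N) by omega]
  · intro y hy
    obtain ⟨h1, h2, h3, h4⟩ := hfact y hy
    have := vx_snoc_le h2 h3 (by omega : N ≤ x) h1
    rw [Fin.snoc_init_self] at this
    simp only
    rwa [show j + 1 + (y (Fin.last N) - (x + 1)) + (N + 1) = y (Fin.last N) by omega]

end Pool.Agent.Lib.MP_cb200a_pr
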