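import Pool.Agent.Lib.MP_cb200a_pr.AD
import Pool.Agent.Lib.MP_cb200a_pr.Link

set_option autoImplicit false

open Finset Nat Polynomial

namespace Pool.Agent.Lib.MP_cb200a_pr.Chen

variable {n : ℕ}

/-- particle positions of a shape -/
def hh (κ : Fin n → ℕ) : Fin n → ℕ := fun i => κ i + i

/-- number of standard fillings -/
noncomputable def PP (κ : Fin n → ℕ) : ℕ := cnt (fun _ _ => True) κ

theorem vdm_zero {y : Fin n → ℕ} {i i' : Fin n} (h : i ≠ i') (e : y i = y i') : vdm y = 0 := by
  unfold vdm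
  rw [Matrix.det_vandermonde_eq_zero_iff]
  exact ⟨i, i', by rw [e], h⟩

theorem vdm_pos {κ : Fin n → ℕ} (h : Monotone κ) : 0 < vdm (hh κ) := by
  rw [vdm_eq]
  refine Finset.prod_pos fun i _ => Finset.prod_pos fun j _ => ?_
  split_ifs with hij
  · have h1 := h hij.le
    have h2 : i.val < j.val := hij
    have : hh κ i < hh κ j := by unfold hh; omega
    have : (hh κ i : ℝ) < hh κ j := by exact_mod_cast this
    linarith
  · exact one_pos

theorem hh_dn {κ : Fin n → ℕ} {x : Fin n} (h : 0 < κ x) :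
    hh (dn κ x) = Function.update (hh κ) x (hh κ x - 1) := by
  funext i
  by_cases hi : i = x
  · subst hi; simp only [hh, dn_self, Function.update_self]; omega
  · simp only [hh, dn_ne κ hi, Function.update_of_ne hi]

theorem hh_up (κ : Fin n → ℕ) (x : Fin n) :
    hh (up κ x) = Function.update (hh κ) x (hh κ x + 1) := by
  funext i
  by_cases hi : i = x
  · subst hi; simp only [hh, up_self, Function.update_self]; omega
  · simp only [hh, up_ne κ hi, Function.update_of_ne hi]

theorem valid_of {κ : Fin n → ℕ} (hκ : Monotone κ) {x : Fin n} (h0 : 0 < κ x)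
    (h : ∀ x' : Fin n, x'.val + 1 = x.val → κ x' < κ x) : Valid κ x := by
  refine ⟨h0, fun y z hyz => ?_⟩
  by_cases hz : z = x
  · subst hz
    rcases eq_or_lt_of_le hyz with e | e
    · rw [e]
    · rw [dn_self, dn_ne κ (ne_of_lt e)]
      have hz1 : z.val - 1 < n := by omega
      have e' : y.val < z.val := e
      have h1 : κ y ≤ κ ⟨z.val - 1, hz1⟩ := hκ (by rw [Fin.le_def]; simp only; omega)
      have h2 := h ⟨z.val - 1, hz1⟩ (by simp only; omega)
      omega
  · rw [dn_ne κ hz]
    exact (dn_le κ x y).trans (hκ hyz)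

theorem le_up (κ : Fin n → ℕ) (x y : Fin n) : κ y ≤ up κ x y := by
  by_cases h : y = x
  · subst h; rw [up_self]; omega
  · rw [up_ne κ h]

theorem mono_up_of {κ : Fin n → ℕ} (hκ : Monotone κ) {x : Fin n}
    (h : ∀ x' : Fin n, x.val + 1 = x'.val → κ x < κ x') : Monotone (up κ x) := by
  intro y z hyz
  by_cases hy : y = x
  · subst hy
    rcases eq_or_lt_of_le hyz with e | e
    · rw [e]
    · rw [up_self, up_ne κ (ne_of_gt e)]
      have e' : y.val < z.val := e
      have hz1 : y.val + 1 < n := by omega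
      have h1 : κ ⟨y.val + 1, hz1⟩ ≤ κ z := hκ (by rw [Fin.le_def]; simp only; omega)
      have h2 := h ⟨y.val + 1, hz1⟩ rfl
      omega
  · rw [up_ne κ hy]
    exact (hκ hyz).trans (le_up κ x z)

theorem sum_dn {κ : Fin n → ℕ} {x : Fin n} (h : 0 < κ x) : ∑ i, dn κ x i + 1 = ∑ i, κ i := by
  have := sum_update κ x (κ x - 1)
  unfold dn
  omega

theorem sum_up (κ : Fin n → ℕ) (x : Fin n) : ∑ i, up κ x i = ∑ i, κ i + 1 := by
  have := sum_update κ x (κ x + 1)
  unfold up
  omega

theorem sum_hh (κ : Fin n → ℕ) : ((∑ i, hh κ i : ℕ) : ℝ) = (∑ i, κ i : ℕ) + (n.choose 2 : ℕ) := by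
  unfold hh
  rw [Finset.sum_add_distrib, Nat.cast_add, ← sum_fin_cast]
  push_cast; rfl

theorem prod_update' (f : ℕ → ℝ) (y : Fin n → ℕ) (x : Fin n) (v : ℕ) (c : ℝ)
    (h : f (y x) = c * f v) : ∏ i, f (y i) = c * ∏ i, f (Function.update y x v i) := by
  rw [← Finset.mul_prod_erase univ _ (mem_univ x),
    ← Finset.mul_prod_erase univ (fun i => f (Function.update y x v i)) (mem_univ x),
    Function.update_self, h, mul_assoc]
  congr 2
  exact Finset.prod_congr rfl fun i hi => by rw [Function.update_of_ne (Finset.ne_of_mem_erase hi)]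

theorem exists_pos {κ : Fin n → ℕ} {s : ℕ} (h : ∑ i, κ i = s + 1) : ∃ x, 0 < κ x := by
  by_contra hne
  push Not at hne
  rw [Finset.sum_eq_zero fun i _ => by have := hne i; omega] at h
  omega

theorem PP_formula (s : ℕ) : ∀ κ : Fin n → ℕ, Monotone κ → ∑ i, κ i = s →
    (PP κ : ℝ) * (∏ i, ((hh κ i)! : ℝ)) * vdm (hh (0 : Fin n → ℕ)) =
      (s ! : ℝ) * vdm (hh κ) * ∏ i, ((hh (0 : Fin n → ℕ) i)! : ℝ) := by
  classical
  induction s with
  | zero =>
    intro κ _ h
    obtain rfl : κ = 0 := by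
      funext i
      exact (Finset.sum_eq_zero_iff.1 h) i (mem_univ i)
    rw [PP, cnt_zero]; simp [mul_comm]
  | succ s ih =>
    intro κ hκ h
    have h1 := vdm_down (hh κ)
    rw [sum_hh, h, add_sub_cancel_right] at h1
    rw [PP, cnt_rec _ hκ (exists_pos h) (fun _ _ _ _ => Iff.rfl), Nat.factorial_succ]
    push_cast at h1 ⊢
    rw [mul_comm ((s : ℝ) + 1), mul_assoc (s ! : ℝ), ← h1, Finset.mul_sum, Finset.sum_mul,
      Finset.sum_mul, Finset.sum_mul]
    refine Finset.sum_congr rfl fun x _ => ?_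
    split_ifs with hv
    · have h2 := ih (dn κ x) hv.2 (by have := sum_dn hv.1; omega)
      have h0 := hv.1
      rw [prod_update' (fun t => (t ! : ℝ)) (hh κ) x (hh κ x - 1) (hh κ x) (by
        have : hh κ x = hh κ x - 1 + 1 := by unfold hh; omega
        conv_lhs => rw [this, Nat.factorial_succ, ← this]
        push_cast; rfl), ← hh_dn hv.1]
      unfold PP at h2
      linear_combination (hh κ x : ℝ) * h2
    · have h3 : (hh κ x : ℝ) * vdm (Function.update (hh κ) x (hh κ x - 1)) = 0 := by
        by_cases hx : ∃ x' : Fin n, x'.val + 1 = x.val ∧ κ x' = κ x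
        · obtain ⟨x', e1, e2⟩ := hx
          have hne : x' ≠ x := fun e => by rw [e] at e1; omega
          rw [vdm_zero hne, mul_zero]
          rw [Function.update_self, Function.update_of_ne hne]
          unfold hh; omega
        · push Not at hx
          have h4 : ∀ x' : Fin n, x'.val + 1 = x.val → κ x' < κ x := fun x' e =>
            lt_of_le_of_ne (hκ (by rw [Fin.le_def]; omega)) (hx x' e)
          have h5 : κ x = 0 := by
            by_contra hne
            exact hv (valid_of hκ (by omega) h4)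
          have h6 : x.val = 0 := by
            by_contra hne
            have := h4 ⟨x.val - 1, by omega⟩ (by simp only; omega)
            omega
          have : hh κ x = 0 := by unfold hh; omega
          rw [this]; simp
      rw [h3]; simp

theorem adj (s : ℕ) (f g : (Fin n → ℕ) → ℝ) :
    ∑ κ ∈ Finset.Nat.antidiagonalTuple n (s + 1), ∑ x, (if 0 < κ x then f (dn κ x) * g κ else 0) =
      ∑ κ ∈ Finset.Nat.antidiagonalTuple n s, ∑ x, f κ * g (up κ x) := by
  rw [Finset.sum_comm, Finset.sum_comm (s := Finset.Nat.antidiagonalTuple n s)]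
  refine Finset.sum_congr rfl fun x _ => ?_
  rw [← Finset.sum_filter]
  symm
  refine Finset.sum_bij' (fun κ _ => up κ x) (fun κ _ => dn κ x) ?_ ?_ ?_ ?_ ?_
  · intro κ hκ
    rw [Finset.Nat.mem_antidiagonalTuple] at hκ
    rw [mem_filter, Finset.Nat.mem_antidiagonalTuple, sum_up, up_self]
    omega
  · intro κ hκ
    rw [mem_filter, Finset.Nat.mem_antidiagonalTuple] at hκ
    rw [Finset.Nat.mem_antidiagonalTuple]
    have := sum_dn hκ.2
    omega
  · intro κ _; exact dn_up κ x
  · intro κ hκ; exact up_dn (mem_filter.1 hκ).2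
  · intro κ _; rw [dn_up]

theorem vdm_up' (y : Fin n → ℕ) (M : ℝ) :
    ∑ i, (M - y i) * vdm (Function.update y i (y i + 1)) =
      (n * M - ((∑ i, y i : ℕ) : ℝ) - (n.choose 2 : ℕ)) * vdm y := by
  have := row_sum (fun i => (y i : ℝ)) (fun i => (y i : ℝ) - M) (fun i => (y i : ℝ) + 1)
    (fun j => ((j : ℕ) : ℝ) - M) (fun j => (ascPochhammer ℝ j).comp (X + C (-M)))
    (fun i => by
      rw [natDegree_comp, ascPochhammer_natDegree, natDegree_X_add_C, mul_one])
    (fun i => (monic_ascPochhammer ℝ i).comp_X_add_C (-M)) (by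
      intro i j
      have h1 := ascPochhammer_succ_eval (S := ℝ) j ((y i : ℝ) + -M)
      rw [ascPochhammer_succ_left] at h1
      simp only [eval_mul, eval_X, eval_comp, eval_add, eval_one, eval_C] at h1 ⊢
      rw [show (y i : ℝ) + 1 + -M = (y i : ℝ) + -M + 1 by ring]
      linear_combination h1)
  rw [Finset.sum_sub_distrib, sum_fin_cast] at this
  simp only [Finset.sum_const, Finset.card_univ, Fintype.card_fin, nsmul_eq_mul] at this
  have h4 : ∑ i, (M - y i) * vdm (Function.update y i (y i + 1)) =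
      -∑ i, ((y i : ℝ) - M) * (Matrix.vandermonde
        (Function.update (fun i => (y i : ℝ)) i ((y i : ℝ) + 1))).det := by
    rw [← Finset.sum_neg_distrib]
    refine Finset.sum_congr rfl fun i _ => ?_
    rw [← neg_mul, neg_sub]
    unfold vdm
    congr 3
    funext k
    by_cases hk : k = i
    · subst hk; simp
    · simp [Function.update_of_ne hk]
  rw [h4, this]
  unfold vdm
  push_cast
  ring

open Classical in
/-- weight of the completions to the rectangle -/
noncomputable def gg (b : ℕ) (κ : Fin n → ℕ) : ℝ :=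
  if Monotone κ ∧ ∀ i, κ i ≤ b then vdm (hh κ) / ∏ i, ((n + b - 1 - hh κ i)! : ℝ) else 0

theorem gg_up {b : ℕ} {κ : Fin n → ℕ} (hκ : Monotone κ) :
    ∑ x, gg b (up κ x) = ((n : ℝ) * b - (∑ i, κ i : ℕ)) * gg b κ := by
  by_cases hb : ∀ i, κ i ≤ b
  · rcases Nat.eq_zero_or_pos n with hn | hn
    · subst hn; simp
    have h1 := vdm_up' (hh κ) ((n + b - 1 : ℕ) : ℝ)
    have h2 : ((n.choose 2 : ℕ) : ℝ) * 2 = n * (n - 1) := by rw [Nat.cast_choose_two]; ring
    have h3 : (n : ℝ) * ((n + b - 1 : ℕ) : ℝ) - ((∑ i, hh κ i : ℕ) : ℝ) - (n.choose 2 : ℕ) =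
        (n : ℝ) * b - (∑ i, κ i : ℕ) := by
      rw [sum_hh, Nat.cast_sub (by omega)]
      push_cast
      linear_combination -h2
    rw [h3] at h1
    rw [gg, if_pos ⟨hκ, hb⟩, ← mul_div_assoc, ← h1, Finset.sum_div]
    refine Finset.sum_congr rfl fun x _ => ?_
    unfold gg
    split_ifs with hv
    · have h4 := hv.2 x
      rw [up_self] at h4
      have h5 := x.isLt
      have h6 : hh κ x + 1 ≤ n + b - 1 := by unfold hh; omega
      rw [prod_update' (fun t => ((n + b - 1 - t)! : ℝ)) (hh κ) x (hh κ x + 1)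
        (((n + b - 1 : ℕ) : ℝ) - hh κ x) (by
          rw [← Nat.cast_sub (by omega),
            show n + b - 1 - hh κ x = n + b - 1 - (hh κ x + 1) + 1 by omega, Nat.factorial_succ]
          push_cast; rfl), hh_up, mul_div_mul_left]
      have : (hh κ x : ℝ) < ((n + b - 1 : ℕ) : ℝ) := by exact_mod_cast h6
      linarith
    · symm
      rw [div_eq_zero_iff]
      left
      by_cases hx : ∃ x' : Fin n, x.val + 1 = x'.val ∧ κ x = κ x'
      · obtain ⟨x', e1, e2⟩ := hx
        have hne : x' ≠ x := fun e => by rw [e] at e1; omega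
        rw [vdm_zero hne, mul_zero]
        rw [Function.update_self, Function.update_of_ne hne]
        unfold hh; omega
      · push Not at hx
        have h4 : ∀ x' : Fin n, x.val + 1 = x'.val → κ x < κ x' := fun x' e =>
          lt_of_le_of_ne (hκ (by rw [Fin.le_def]; omega)) (hx x' e)
        have h5 : κ x = b := by
          by_contra hne
          refine hv ⟨mono_up_of hκ h4, fun i => ?_⟩
          by_cases hi : i = x
          · subst hi; rw [up_self]; have := hb i; omega
          · rw [up_ne κ hi]; exact hb i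
        have h6 : x.val + 1 = n := by
          by_contra hne
          have h7 := x.isLt
          have := h4 ⟨x.val + 1, by omega⟩ rfl
          have := hb ⟨x.val + 1, by omega⟩
          omega
        have : hh κ x = n + b - 1 := by unfold hh; omega
        rw [this]; simp
  · rw [gg, if_neg (fun h => hb h.2), mul_zero]
    refine Finset.sum_eq_zero fun x _ => ?_
    rw [gg, if_neg]
    exact fun h => hb fun i => (le_up κ x i).trans (h.2 i)

open Classical in
/-- counts extended by zero -/
noncomputable def ff (Q : (Fin n → ℕ) → (Fin n → ℕ → ℕ) → Prop) (κ : Fin n → ℕ) : ℝ :=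
  if Monotone κ then cnt Q κ else 0

/-- `Q` depends on the first `K` steps only -/
def Stable (Q : (Fin n → ℕ) → (Fin n → ℕ → ℕ) → Prop) (K : ℕ) : Prop :=
  ∀ κ : Fin n → ℕ, K < ∑ i, κ i → ∀ x a, Valid κ x → Good (dn κ x) a →
    (Q κ (put a x (κ x - 1) (low κ x)) ↔ Q (dn κ x) a)

theorem ff_rec {Q : (Fin n → ℕ) → (Fin n → ℕ → ℕ) → Prop} {K : ℕ} (hQ : Stable Q K)
    {κ : Fin n → ℕ} (hκ : Monotone κ) (hs : K < ∑ i, κ i) :
    ff Q κ = ∑ x, if 0 < κ x then ff Q (dn κ x) else 0 := by
  classical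
  rw [ff, if_pos hκ, cnt_rec Q hκ (exists_pos (s := ∑ i, κ i - 1) (by omega)) (hQ κ hs)]
  push_cast
  refine Finset.sum_congr rfl fun x _ => ?_
  unfold ff Valid
  by_cases h1 : 0 < κ x <;> by_cases h2 : Monotone (dn κ x) <;> simp [h1, h2]

theorem tele_step {Q : (Fin n → ℕ) → (Fin n → ℕ → ℕ) → Prop} {K : ℕ} (hQ : Stable Q K)
    (g : (Fin n → ℕ) → ℝ) (hg : ∀ κ, ¬Monotone κ → g κ = 0) {s : ℕ} (hs : K ≤ s) :
    ∑ κ ∈ Finset.Nat.antidiagonalTuple n (s + 1), ff Q κ * g κ =
      ∑ κ ∈ Finset.Nat.antidiagonalTuple n s, ff Q κ * ∑ x, g (up κ x) := by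
  simp only [Finset.mul_sum]
  rw [← adj]
  refine Finset.sum_congr rfl fun κ hκ => ?_
  rw [Finset.Nat.mem_antidiagonalTuple] at hκ
  by_cases hm : Monotone κ
  · rw [ff_rec hQ hm (by omega), Finset.sum_mul]
    refine Finset.sum_congr rfl fun x _ => ?_
    split_ifs <;> simp
  · simp [hg κ hm]

theorem tele {Q : (Fin n → ℕ) → (Fin n → ℕ → ℕ) → Prop} {K b : ℕ} (hQ : Stable Q K)
    (hK : K ≤ n * b) :
    (cnt Q (fun _ => b) : ℝ) * gg b (fun _ : Fin n => b) =
      ((n * b - K)! : ℝ) * ∑ κ ∈ Finset.Nat.antidiagonalTuple n K, ff Q κ * gg b κ := by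
  have key : ∀ d s, K ≤ s → s + d = n * b →
      (cnt Q (fun _ => b) : ℝ) * gg b (fun _ : Fin n => b) =
        (d ! : ℝ) * ∑ κ ∈ Finset.Nat.antidiagonalTuple n s, ff Q κ * gg b κ := by
    intro d
    induction d with
    | zero =>
      intro s _ hs
      rw [Finset.sum_eq_single (fun _ => b)]
      · rw [ff, if_pos monotone_const]; simp
      · intro κ hκ hne
        rw [Finset.Nat.mem_antidiagonalTuple] at hκ
        rw [gg, if_neg, mul_zero]
        rintro ⟨-, h2⟩
        apply hne
        have h3 : ∑ i, κ i = ∑ _i : Fin n, b := by simp; omega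
        funext i
        exact (Finset.sum_eq_sum_iff_of_le fun i _ => h2 i).1 h3 i (mem_univ i)
      · intro h
        exact absurd (by rw [Finset.Nat.mem_antidiagonalTuple]; simp; omega) h
    | succ d ih =>
      intro s h1 h2
      rw [ih (s + 1) (by omega) (by omega), tele_step hQ _
        (fun κ hκ => by rw [gg, if_neg fun h => hκ h.1]) h1, Nat.factorial_succ]
      push_cast
      rw [mul_comm ((d : ℝ) + 1), mul_assoc]
      congr 1
      rw [Finset.mul_sum]
      refine Finset.sum_congr rfl fun κ hκ => ?_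
      rw [Finset.Nat.mem_antidiagonalTuple] at hκ
      by_cases hm : Monotone κ
      · rw [gg_up hm, hκ]
        have : (n : ℝ) * b = s + (d + 1) := by exact_mod_cast h2.symm
        rw [this]; ring
      · simp [ff, hm]
  exact key _ K le_rfl (by omega)

end Pool.Agent.Lib.MP_cb200a_pr.Chen
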