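import Pool.Agent.Lib.MP_cb200a_pr.Seq

set_option autoImplicit false

open Finset

namespace Pool.Agent.Lib.MP_cb200a_pr

theorem pp_three (l : ℕ) (κ : ℝ) (a x : ℕ) :
    ((x : ℝ) + 1) * pp l κ (a + 1) x =
      (κ * ((x : ℝ) + 1 - l) + (2 * x + 3) * a - (l : ℝ) ^ 2) * pp l κ a (x + 1)
        - ((x : ℝ) + 2) * (a * (κ + a - 1)) * pp l κ (a - 1) (x + 2) := by
  have h1 := pp_R1 l κ a (x + 1)
  have h3 : (a : ℝ) * (κ + a - 1) * pp l κ a (x + 1) = a * (κ + a - 1) *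
      ((κ + l + a + x + 1) * pp l κ (a - 1) (x + 1) - ((x : ℝ) + 2) * pp l κ (a - 1) (x + 2)) := by
    rcases a with _ | a
    · simp
    · simp only [Nat.add_sub_cancel, pp]; push_cast; ring
  simp only [Nat.add_sub_cancel] at h1
  simp only [pp]
  push_cast at h1
  linear_combination -(κ + l + a + x + 1) * h1 + h3

/-- coefficients along an antidiagonal -/
noncomputable def PP (k l : ℕ) (κ : ℝ) (a : ℕ) : ℝ := pp l κ a (k + l - a)

noncomputable def TT (k l : ℕ) (κ : ℝ) (a : ℕ) : ℝ := PP k l κ a ^ 2 / nrm κ a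

noncomputable def RR (k l κ : ℝ) (a : ℕ) : ℝ :=
  ((a : ℝ) + 1) * (k - a + l) ^ 2 / ((κ + a) * (k - a) ^ 2 * (1 - dd k l κ a) ^ 2)

theorem PP_ratio {k l : ℕ} {κ N J : ℝ} (hl : (l : ℝ) ≤ N) (hk : (k : ℝ) ≤ N) (hκ : N ^ 2 ≤ κ)
    (hJ : 1 ≤ J) (hJ2 : 16 * (k : ℝ) ≤ J ^ 2) (a : ℕ) (ha : a + J ≤ k) :
    PP k l κ (a + 1) * ((k : ℝ) - a + l) = PP k l κ a * ((κ + a) * (k - a) * (1 - dd k l κ a)) := by
  have hl0 : (0 : ℝ) ≤ l := Nat.cast_nonneg l
  have hκ0 : 0 < κ := by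
    have : (0 : ℝ) ≤ a := Nat.cast_nonneg a
    nlinarith
  induction a with
  | zero =>
    simp only [Nat.cast_zero, zero_add] at ha
    have hk1 : 1 ≤ k := by exact_mod_cast (hJ.trans ha)
    obtain ⟨k, rfl⟩ : ∃ k', k = k' + 1 := ⟨k - 1, by omega⟩
    have := pp_three l κ 0 (k + l)
    unfold PP
    rw [show k + 1 + l - (0 + 1) = k + l by omega, show k + 1 + l - 0 = k + l + 1 by omega]
    simp only [dd, stp]
    push_cast at this ⊢
    simp only [sub_zero, add_zero, mul_zero, zero_mul]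
    field_simp
    linear_combination this
  | succ a ih =>
    have ha' : a + 2 ≤ k := by
      have : ((a + 2 : ℕ) : ℝ) ≤ k := by push_cast at ha ⊢; linarith
      exact_mod_cast this
    push_cast at ha
    have ih' := ih (by linarith)
    have hd := dd_le hl0 hl hk hκ hJ hJ2 a (by linarith)
    obtain ⟨b, rfl⟩ : ∃ b, k = b + (a + 2) := ⟨k - (a + 2), by omega⟩
    have := pp_three l κ (a + 1) (b + l)
    unfold PP at ih' ⊢
    rw [show b + (a + 2) + l - (a + 1 + 1) = b + l by omega,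
      show b + (a + 2) + l - (a + 1) = b + l + 1 by omega]
    rw [show b + (a + 2) + l - (a + 1) = b + l + 1 by omega,
      show b + (a + 2) + l - a = b + l + 2 by omega] at ih'
    simp only [Nat.add_sub_cancel] at this
    rw [dd]
    generalize dd ((b + (a + 2) : ℕ) : ℝ) l κ a = d at *
    unfold stp
    push_cast at this ih' ⊢
    have e1 : (b : ℝ) + (a + 2) - (a + 1) = b + 1 := by ring
    have e2 : (b : ℝ) + (a + 2) - a = b + 2 := by ring
    rw [e1]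
    rw [e2] at ih'
    have hd1 : 1 - d ≠ 0 := by linarith
    field_simp
    linear_combination ((b : ℝ) + 2) * (1 - d) * this + ((b : ℝ) + l + 2) * (a + 1) * ih'

theorem TT_ratio {k l : ℕ} {κ N J : ℝ} (hl : (l : ℝ) ≤ N) (hk : (k : ℝ) ≤ N) (hκ : N ^ 2 ≤ κ)
    (hJ : 1 ≤ J) (hJ2 : 16 * (k : ℝ) ≤ J ^ 2) (a : ℕ) (ha : a + J ≤ k) :
    TT k l κ a = TT k l κ (a + 1) * RR k l κ a := by
  have hl0 : (0 : ℝ) ≤ l := Nat.cast_nonneg l
  have ha0 : (0 : ℝ) ≤ a := Nat.cast_nonneg a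
  have hκ0 : 0 < κ := by nlinarith
  have h := PP_ratio hl hk hκ hJ hJ2 a ha
  have hd := dd_le hl0 hl hk hκ hJ hJ2 a ha
  have hn := nrm_pos hκ0 a
  have hv : 0 < (k : ℝ) - a := by linarith
  have hd1 : 0 < 1 - dd k l κ a := by linarith
  have h2 : PP k l κ (a + 1) = PP k l κ a * ((κ + a) * (k - a) * (1 - dd k l κ a)) /
      ((k : ℝ) - a + l) := by
    rw [eq_div_iff (by positivity), h]
  unfold TT RR
  rw [nrm, h2]
  field_simp

theorem TT_nonneg {k l : ℕ} {κ : ℝ} (hκ : 0 < κ) (a : ℕ) : 0 ≤ TT k l κ a :=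
  div_nonneg (sq_nonneg _) (nrm_pos hκ a).le

theorem RR_nonneg {k l κ : ℝ} (hκ : 0 < κ) (a : ℕ) : 0 ≤ RR k l κ a := by
  unfold RR; positivity

theorem RR_pos {k l κ N J : ℝ} (hl0 : 0 ≤ l) (hl : l ≤ N) (hk : k ≤ N) (hκ : N ^ 2 ≤ κ)
    (hJ : 1 ≤ J) (hJ2 : 16 * k ≤ J ^ 2) (a : ℕ) (ha : a + J ≤ k) : 0 < RR k l κ a := by
  have ha0 : (0 : ℝ) ≤ a := Nat.cast_nonneg a
  have hκ0 : 0 < κ := by nlinarith
  have hd := dd_le hl0 hl hk hκ hJ hJ2 a ha
  have hv : 0 < k - a := by linarith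
  have hd1 : 0 < 1 - dd k l κ a := by linarith
  unfold RR; positivity

/-- exact one-step ratio between neighbouring families -/
theorem RR_step_eq {k l κ : ℝ} (a : ℕ) (hκ : 0 < κ) (hv : 0 < k - (a + 1))
    (h1 : dd k l κ (a + 1) < 1) (h2 : dd k (l - 1) (κ + 2) a < 1) :
    RR k (l - 1) (κ + 2) a / ((a : ℝ) + 1) = RR k l κ (a + 1) / ((a : ℝ) + 2) *
      ((κ + a + 1) / (κ + a + 2) * ((k - (a + 1)) / (k - a)) ^ 2 *
        ((1 - dd k l κ (a + 1)) / (1 - dd k (l - 1) (κ + 2) a)) ^ 2) := by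
  unfold RR
  have : 0 < 1 - dd k l κ (a + 1) := by linarith
  have : 0 < 1 - dd k (l - 1) (κ + 2) a := by linarith
  have : 0 < k - a := by linarith
  push_cast
  field_simp
  ring

theorem RR_step_le {k l κ N J : ℝ} (hl1 : 1 ≤ l) (hl : l ≤ N) (hk : k ≤ N) (hκ : N ^ 2 ≤ κ)
    (hJ : 1 ≤ J) (hJ2 : 16 * k ≤ J ^ 2) (a : ℕ) (ha : a + 1 + J ≤ k) :
    RR k (l - 1) (κ + 2) a ≤ RR k l κ (a + 1) := by
  have ha0 : (0 : ℝ) ≤ a := Nat.cast_nonneg a
  have hκ0 : 0 < κ := by nlinarith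
  have hd := dd_le (by linarith) hl hk hκ hJ hJ2 (a + 1) (by push_cast; linarith)
  have hm := dd_mono (l' := l - 1) (κ' := κ + 2) (by linarith) (by linarith) hl hk hκ
    (by linarith) hJ hJ2 a ha
  have h := RR_step_eq a hκ0 (by linarith) (by linarith) (by linarith : dd k (l - 1) (κ + 2) a < 1)
  have hR := RR_nonneg (k := k) (l := l) hκ0 (a + 1)
  have e1 : (κ + a + 1) / (κ + a + 2) ≤ 1 := by rw [div_le_one (by linarith)]; linarith
  have e2 : ((k - (a + 1)) / (k - a)) ^ 2 ≤ 1 := by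
    apply pow_le_one₀ (div_nonneg (by linarith) (by linarith))
    rw [div_le_one (by linarith)]; linarith
  have e3 : ((1 - dd k l κ (a + 1)) / (1 - dd k (l - 1) (κ + 2) a)) ^ 2 ≤ 1 := by
    apply pow_le_one₀ (div_nonneg (by linarith) (by linarith))
    rw [div_le_one (by linarith)]; linarith
  have e4 : (κ + a + 1) / (κ + a + 2) * ((k - (a + 1)) / (k - a)) ^ 2 *
        ((1 - dd k l κ (a + 1)) / (1 - dd k (l - 1) (κ + 2) a)) ^ 2 ≤ 1 :=
    mul_le_one₀ (mul_le_one₀ e1 (sq_nonneg _) e2) (sq_nonneg _) e3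
  have e5 : RR k (l - 1) (κ + 2) a / ((a : ℝ) + 1) ≤ RR k l κ (a + 1) / ((a : ℝ) + 1) := by
    rw [h]
    calc _ ≤ RR k l κ (a + 1) / ((a : ℝ) + 2) * 1 := by gcongr
      _ ≤ _ := by rw [mul_one]; gcongr; linarith
  rwa [div_le_div_iff_of_pos_right (by positivity)] at e5

theorem cube_le {k v J : ℝ} (hJ : 16 ≤ J) (hJ2 : 16 * k ≤ J ^ 2) (hv : J ≤ v) :
    k / v ^ 3 ≤ 1 / 16 / J := by
  rw [div_div, div_le_div_iff₀ (pow_pos (by linarith) 3) (by positivity)]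
  have : J ^ 3 ≤ v ^ 3 := pow_le_pow_left₀ (by linarith) hv 3
  nlinarith

theorem RR_step_ge {k l κ N J : ℝ} (hl1 : 1 ≤ l) (hl : l ≤ N) (hk : k ≤ N) (hκ : N ^ 2 ≤ κ)
    (hJ : 16 ≤ J) (hJ2 : 16 * k ≤ J ^ 2) (a : ℕ) (ha : a + 1 + J ≤ k) :
    RR k l κ (a + 1) / ((a : ℝ) + 2) * (1 - 31 / 10 / J) ≤
      RR k (l - 1) (κ + 2) a / ((a : ℝ) + 1) := by
  have ha0 : (0 : ℝ) ≤ a := Nat.cast_nonneg a
  have hκ0 : 0 < κ := by nlinarith
  have hJ0 : 0 < J := by linarith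
  have hd := dd_le (by linarith) hl hk hκ (by linarith) hJ2 (a + 1) (by push_cast; linarith)
  have hd' := dd_le (k := k) (l := l - 1) (κ := κ + 2) (by linarith) (by linarith) hk
    (by linarith) (by linarith) hJ2 a (by linarith)
  have hE := (dd_diff hl1 hl hk hκ hJ hJ2 a ha).trans
    (mul_le_mul_of_nonneg_left (cube_le hJ hJ2 (by linarith)) (by norm_num))
  have h := RR_step_eq a hκ0 (by linarith) (by linarith) (by linarith : dd k (l - 1) (κ + 2) a < 1)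
  have hR := RR_nonneg (k := k) (l := l) hκ0 (a + 1)
  rw [h]
  gcongr
  set u := 1 / J with hu
  have hu0 : 0 < u := by positivity
  have hu1 : u ≤ 1 / 16 := by rw [hu]; gcongr
  have e1 : 1 - u / 16 ≤ (κ + a + 1) / (κ + a + 2) := by
    rw [le_div_iff₀ (by linarith)]
    have : 16 * J ≤ κ := by nlinarith
    have : 1 ≤ u / 16 * κ := by
      have : u * J = 1 := by rw [hu]; field_simp
      nlinarith
    nlinarith
  have e2 : 1 - u ≤ (k - (a + 1)) / (k - a) := by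
    rw [le_div_iff₀ (by linarith)]
    have : u * J = 1 := by rw [hu]; field_simp
    nlinarith
  have e3 : 1 - u / 2 ≤ (1 - dd k l κ (a + 1)) / (1 - dd k (l - 1) (κ + 2) a) := by
    rw [le_div_iff₀ (by linarith)]
    have : 7 * (1 / 16 / J) = 7 / 16 * u := by rw [hu]; ring
    nlinarith
  have e4 : 31 / 10 / J = 31 / 10 * u := by rw [hu]; ring
  rw [e4]
  calc 1 - 31 / 10 * u ≤ (1 - u / 16) * (1 - u) ^ 2 * (1 - u / 2) ^ 2 := by
        have f1 : 1 - 2 * u ≤ (1 - u) ^ 2 := by nlinarith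
        have f2 : 1 - u ≤ (1 - u / 2) ^ 2 := by nlinarith
        calc 1 - 31 / 10 * u ≤ (1 - u / 16) * (1 - 2 * u) * (1 - u) := by nlinarith
          _ ≤ _ := by
            have : 0 ≤ 1 - u / 16 := by linarith
            gcongr <;> linarith
    _ ≤ _ := by gcongr <;> linarith

theorem RR_margin {k κ N J : ℝ} (hk : k ≤ N) (hκ : N ^ 2 ≤ κ)
    (hJ : 16 ≤ J) (hJ2 : 16 * k ≤ J ^ 2) (a : ℕ) (ha : a + 1 + J = k) :
    RR k N κ a ≤ RR k N κ (a + 1) * ((1 - 9 / 10 / ((a : ℝ) + 2)) * (1 - 9 / 10 / J)) := by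
  have ha0 : (0 : ℝ) ≤ a := Nat.cast_nonneg a
  have hκ0 : 0 < κ := by nlinarith
  have hJ0 : 0 < J := by linarith
  have hN0 : 0 < N := by linarith
  have hd := dd_le (l := N) (by linarith) le_rfl hk hκ (by linarith) hJ2 (a + 1)
    (by push_cast; linarith)
  have hm := dd_mono (l := N) (l' := N) (κ' := κ) (by linarith) le_rfl le_rfl hk hκ
    le_rfl (by linarith) hJ2 a ha.le
  have hR := RR_nonneg (k := k) (l := N) hκ0 (a + 1)
  have h : RR k N κ a = RR k N κ (a + 1) * (((a + 1) * (κ + a + 1) / ((a + 2) * (κ + a))) *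
      ((J + 1 + N) * J / ((J + 1) * (J + N))) ^ 2 *
      ((1 - dd k N κ (a + 1)) / (1 - dd k N κ a)) ^ 2) := by
    unfold RR
    have : 0 < 1 - dd k N κ (a + 1) := by linarith
    have : 0 < 1 - dd k N κ a := by linarith
    push_cast
    rw [show k - a = J + 1 by linarith, show k - (a + 1) = J by linarith]
    field_simp
    ring
  rw [h]
  refine mul_le_mul_of_nonneg_left ?_ hR
  have e1 : (a + 1) * (κ + a + 1) / ((a + 2) * (κ + a)) ≤ 1 - 9 / 10 / ((a : ℝ) + 2) := by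
    have : 1 - 9 / 10 / ((a : ℝ) + 2) = ((a + 11 / 10) * (κ + a)) / ((a + 2) * (κ + a)) := by
      field_simp; ring
    rw [this]
    apply div_le_div_of_nonneg_right _ (by positivity)
    have : 17 * (a + 2) ≤ κ := by nlinarith
    nlinarith
  have e2 : ((J + 1 + N) * J / ((J + 1) * (J + N))) ^ 2 ≤ 1 - 9 / 10 / J := by
    have f1 : (J + 1 + N) * J / ((J + 1) * (J + N)) ≤ (2 * J + 1) / (2 * J + 2) := by
      rw [div_le_div_iff₀ (by positivity) (by positivity)]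
      have : J ≤ N := by linarith
      nlinarith
    calc _ ≤ ((2 * J + 1) / (2 * J + 2)) ^ 2 := by gcongr
      _ ≤ _ := by
        rw [div_pow, div_le_iff₀ (by positivity)]
        have : (1 - 9 / 10 / J) * (2 * J + 2) ^ 2 =
            (2 * J + 2) ^ 2 - 9 / 10 * (4 * J + 8 + 4 / J) := by field_simp; ring
        rw [this]
        have : 4 / J ≤ 1 / 4 := by rw [div_le_iff₀ hJ0]; linarith
        nlinarith
  have e3 : ((1 - dd k N κ (a + 1)) / (1 - dd k N κ a)) ^ 2 ≤ 1 := by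
    apply pow_le_one₀ (div_nonneg (by linarith) (by linarith))
    rw [div_le_one (by linarith)]; linarith
  have e0 : 0 ≤ 1 - 9 / 10 / ((a : ℝ) + 2) := le_trans (by positivity) e1
  calc _ ≤ (1 - 9 / 10 / ((a : ℝ) + 2)) * (1 - 9 / 10 / J) * 1 := by
        apply mul_le_mul (mul_le_mul e1 e2 (sq_nonneg _) e0) e3 (sq_nonneg _)
        exact mul_nonneg e0 (le_trans (sq_nonneg _) e2)
    _ = _ := mul_one _

end Pool.Agent.Lib.MP_cb200a_pr
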