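import Pool.Agent.Lib.MP_cb200a_pr.Terms

set_option autoImplicit false

open Finset

namespace Pool.Agent.Lib.MP_cb200a_pr

noncomputable def uu (k : ℝ) (a : ℕ) : ℝ := 3 / 40 + 140 / 37 * (k / ((k - a - 1) * (k - a)))

theorem uu_le {k J : ℝ} (hJ : 16 ≤ J) (hJ2 : 16 * k ≤ J ^ 2) (a : ℕ) (ha : a + J ≤ k) :
    3 / 40 ≤ uu k a ∧ uu k a ≤ 33 / 100 := by
  have ha0 : (0 : ℝ) ≤ a := Nat.cast_nonneg a
  have h0 : 0 < (k - a - 1) * (k - a) := mul_pos (by linarith) (by linarith)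
  have h1 : 0 ≤ k / ((k - a - 1) * (k - a)) := div_nonneg (by linarith) h0.le
  have h2 : k / ((k - a - 1) * (k - a)) ≤ 1 / 15 := by
    rw [div_le_iff₀ h0]
    have : (J - 1) * J ≤ (k - a - 1) * (k - a) :=
      mul_le_mul (by linarith) (by linarith) (by linarith) (by linarith)
    nlinarith
  unfold uu
  constructor <;> linarith

theorem uu_step {k : ℝ} (a : ℕ) (ha : a + 1 + 16 ≤ k) :
    uu k a + 40 / 37 * (7 * (k / (k - (a + 1)) ^ 3)) ≤ uu k (a + 1) := by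
  have ha0 : (0 : ℝ) ≤ a := Nat.cast_nonneg a
  unfold uu
  push_cast
  obtain ⟨v, hv⟩ : ∃ v, v = k - (a + 1) := ⟨_, rfl⟩
  rw [show k - a - 1 = v by linarith, show k - a = v + 1 by linarith, ← hv]
  have hv0 : 16 ≤ v := by linarith
  have e : k / ((v - 1) * v) = k / (v * (v + 1)) + 2 * (k / ((v - 1) * v * (v + 1))) := by
    have : v - 1 ≠ 0 := by linarith
    field_simp; ring
  have e2 : k / v ^ 3 ≤ k / ((v - 1) * v * (v + 1)) := by
    apply div_le_div_of_nonneg_left (by linarith)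
      (mul_pos (mul_pos (by linarith) (by linarith)) (by linarith))
    nlinarith
  rw [e]; linarith

theorem TT_inv {k l : ℕ} {κ N J : ℝ} (hl : (l : ℝ) + 1 ≤ N) (hk : (k : ℝ) ≤ N) (hκ : N ^ 2 ≤ κ)
    (hJ : 16 ≤ J) (hJ2 : 16 * (k : ℝ) ≤ J ^ 2) (a : ℕ) (ha : a + J ≤ k) :
    TT k l (κ + 2) a * ((κ + 1) * ((k : ℝ) - a) ^ 2 * (1 - uu k a) ^ 2) ≤
      TT k (l + 1) κ (a + 1) * (((a : ℝ) + 1) * (κ + a + 1)) := by
  have hl0 : (0 : ℝ) ≤ l := Nat.cast_nonneg l
  have hκ0 : 0 < κ := by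
    have : (0 : ℝ) ≤ a := Nat.cast_nonneg a
    nlinarith
  have hl' : ((l + 1 : ℕ) : ℝ) ≤ N := by push_cast; exact hl
  induction a with
  | zero =>
    have h := TT_ratio hl' hk hκ (by linarith) hJ2 0 ha
    have hd := dd_le (Nat.cast_nonneg _) hl' hk hκ (by linarith) hJ2 0 ha
    obtain ⟨u0, u1⟩ := uu_le hJ hJ2 0 ha
    have hT := TT_nonneg (k := k) (l := l + 1) hκ0 1
    simp only [Nat.cast_zero, zero_add] at ha
    have e1 : TT k (l + 1) κ 0 * ((l : ℝ) + 1) ^ 2 = TT k l (κ + 2) 0 * ((k : ℝ) + l + 1) ^ 2 := by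
      simp only [TT, PP, pp, nrm, Nat.sub_zero, div_one]
      have := Nat.add_one_mul_choose_eq (k + l) l
      have h2 : (((k + l + 1) * (k + l).choose l : ℕ) : ℝ) =
          (((k + l + 1).choose (l + 1) * (l + 1) : ℕ) : ℝ) := by rw [this]
      push_cast at h2
      rw [← mul_pow, ← mul_pow, ← add_assoc, ← h2, mul_comm]
    rw [h] at e1
    unfold RR at e1
    simp only [Nat.cast_zero, zero_add, sub_zero, add_zero, one_mul] at e1 ⊢
    generalize dd (k : ℝ) ((l + 1 : ℕ) : ℝ) κ 0 = d at *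
    push_cast at e1
    have hk0 : (0 : ℝ) < k := by linarith
    have hd0 : 0 < 1 - d := by linarith
    have e2 : TT k l (κ + 2) 0 = TT k (l + 1) κ 1 * ((((l : ℝ) + 1) ^ 2 / κ) / (k ^ 2 * (1 - d) ^ 2)) := by
      field_simp at e1 ⊢
      have : (0 : ℝ) < ((k : ℝ) + l + 1) ^ 2 := by positivity
      apply mul_right_cancel₀ this.ne'
      linear_combination -e1
    rw [e2, mul_assoc]
    apply mul_le_mul_of_nonneg_left _ hT
    have f1 : ((l : ℝ) + 1) ^ 2 / κ ≤ 1 := by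
      rw [div_le_one hκ0]; exact le_trans (pow_le_pow_left₀ (by positivity) hl 2) hκ
    have f2 : (1 - uu k 0) ^ 2 ≤ (1 - d) ^ 2 := pow_le_pow_left₀ (by linarith) (by linarith) 2
    calc _ ≤ 1 / (k ^ 2 * (1 - d) ^ 2) * ((κ + 1) * (k : ℝ) ^ 2 * (1 - d) ^ 2) := by gcongr
      _ = _ := by field_simp
  | succ a ih =>
    have ha0 : (0 : ℝ) ≤ a := Nat.cast_nonneg a
    have ha1 := ha
    push_cast at ha1
    have ih' := ih (by linarith)
    have h1 := TT_ratio hl' hk hκ (by linarith) hJ2 (a + 1) ha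
    have h2 := TT_ratio (k := k) (l := l) (κ := κ + 2) (N := N) (by linarith) hk (by linarith)
      (by linarith) hJ2 a (by linarith)
    have hd := dd_le (Nat.cast_nonneg _) hl' hk hκ (by linarith) hJ2 (a + 1) ha
    have hd' := dd_le (k := k) (l := l) (κ := κ + 2) hl0 (by linarith) hk (by linarith)
      (by linarith) hJ2 a (by linarith)
    have hR := RR_pos (Nat.cast_nonneg _) hl' hk hκ (by linarith) hJ2 (a + 1) ha
    have hE := dd_diff (k := k) (l := ((l + 1 : ℕ) : ℝ)) (by push_cast; linarith) hl' hk hκ hJ hJ2 a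
      ha1
    have hq := RR_step_eq (k := k) (l := ((l + 1 : ℕ) : ℝ)) a hκ0 (by linarith) (by linarith)
      (by rw [show ((l + 1 : ℕ) : ℝ) - 1 = l by push_cast; ring]; linarith)
    rw [show ((l + 1 : ℕ) : ℝ) - 1 = l by push_cast; ring] at hq hE
    obtain ⟨u0, u1⟩ := uu_le hJ hJ2 a (by linarith)
    obtain ⟨u0', u1'⟩ := uu_le hJ hJ2 (a + 1) ha
    have hu := uu_step (k := k) a (by linarith)
    have hT := TT_nonneg (k := k) (l := l) (κ := κ + 2) (by linarith) (a + 1)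
    rw [div_eq_iff (by positivity)] at hq
    rw [h1, h2, hq] at ih'
    generalize dd (k : ℝ) ((l + 1 : ℕ) : ℝ) κ (a + 1) = d at *
    generalize dd (k : ℝ) l (κ + 2) a = d' at *
    generalize RR (k : ℝ) ((l + 1 : ℕ) : ℝ) κ (a + 1) = R at *
    have hθ : 0 ≤ (k : ℝ) / (k - (a + 1)) ^ 3 :=
      div_nonneg (by linarith) (pow_nonneg (by linarith) 3)
    generalize (k : ℝ) / (k - (a + 1)) ^ 3 = θ at *
    have hρ : 1 - uu k (a + 1) ≤ (1 - d) / (1 - d') * (1 - uu k a) := by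
      have : 1 - 40 / 37 * (7 * θ) ≤ (1 - d) / (1 - d') := by
        rw [le_div_iff₀ (by linarith)]; nlinarith
      calc 1 - uu k (a + 1) ≤ (1 - 40 / 37 * (7 * θ)) * (1 - uu k a) := by nlinarith
        _ ≤ _ := by gcongr; linarith
    have hρ2 := pow_le_pow_left₀ (by linarith) hρ 2
    have hv : (0 : ℝ) < k - a := by linarith
    have key : TT k l (κ + 2) (a + 1) * ((κ + 1) * ((k : ℝ) - (a + 1)) ^ 2 *
        ((1 - d) / (1 - d') * (1 - uu k a)) ^ 2) ≤
        TT k (l + 1) κ (a + 1 + 1) * (((a : ℝ) + 1 + 1) * (κ + (a + 1) + 1)) := by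
      have hc : 0 < R * (a + 1) * (κ + a + 1) / ((a + 2) * (κ + a + 2)) := by positivity
      apply le_of_mul_le_mul_right _ hc
      refine le_of_eq_of_le ?_ (le_of_le_of_eq ih' ?_)
      · generalize (1 - d) / (1 - d') = ρ
        field_simp
      · field_simp; ring
    push_cast
    refine le_trans ?_ key
    gcongr

theorem TT_step {k l : ℕ} {κ N J : ℝ} (hl : (l : ℝ) + 1 ≤ N) (hk : (k : ℝ) ≤ N) (hκ : N ^ 2 ≤ κ)
    (hJ : 16 ≤ J) (hJ2 : 16 * (k : ℝ) ≤ J ^ 2) (a : ℕ) (ha : a + J ≤ k) :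
    TT k l (κ + 2) a ≤ 3 / 20 * TT k (l + 1) κ (a + 1) := by
  have ha0 : (0 : ℝ) ≤ a := Nat.cast_nonneg a
  have hκ0 : 16 * (k : ℝ) ≤ κ := by nlinarith
  have h := TT_inv hl hk hκ hJ hJ2 a ha
  obtain ⟨u0, u1⟩ := uu_le hJ hJ2 a ha
  have hT := TT_nonneg (k := k) (l := l + 1) (κ := κ) (by linarith) (a + 1)
  have hT' := TT_nonneg (k := k) (l := l) (κ := κ + 2) (by linarith) a
  have hc : 0 < (κ + 1) * k := mul_pos (by linarith) (by linarith)
  apply le_of_mul_le_mul_right _ hc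
  have f1 : (κ + 1) * (16 * k) * (67 / 100) ^ 2 ≤ (κ + 1) * ((k : ℝ) - a) ^ 2 * (1 - uu k a) ^ 2 := by
    have : 16 * (k : ℝ) ≤ ((k : ℝ) - a) ^ 2 :=
      hJ2.trans (pow_le_pow_left₀ (by linarith) (by linarith) 2)
    have : 0 ≤ κ + 1 := by linarith
    gcongr; linarith
  have f2 : ((a : ℝ) + 1) * (κ + a + 1) ≤ k * (17 / 16 * (κ + 1)) := by
    gcongr <;> linarith
  have f3 := mul_le_mul_of_nonneg_left f1 hT'
  have f4 := mul_le_mul_of_nonneg_left f2 hT
  have f5 := mul_nonneg hT hc.le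
  nlinarith

/-- `(κ)_a / a!` -/
noncomputable def om (κ : ℝ) : ℕ → ℝ
  | 0 => 1
  | a + 1 => om κ a * ((κ + a) / (a + 1))

theorem om_pos {κ : ℝ} (h : 0 < κ) (a : ℕ) : 0 < om κ a := by
  induction a with
  | zero => simp [om]
  | succ a ih => rw [om]; positivity

theorem TT_eq {k l : ℕ} {κ N J : ℝ} (hl : (l : ℝ) ≤ N) (hk : (k : ℝ) ≤ N) (hκ : N ^ 2 ≤ κ)
    (hJ : 1 ≤ J) (hJ2 : 16 * (k : ℝ) ≤ J ^ 2) (a : ℕ) (ha : a + J ≤ k + 1) :
    TT k l κ a = (((k + l - a).choose l : ℕ) : ℝ) ^ 2 * om κ a *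
      (∏ i ∈ range a, (1 - dd k l κ i)) ^ 2 := by
  induction a with
  | zero => simp [TT, PP, pp, nrm, om]
  | succ a ih =>
    have ha0 : (0 : ℝ) ≤ a := Nat.cast_nonneg a
    push_cast at ha
    have hκ0 : 0 < κ := by nlinarith
    have h1 := TT_ratio hl hk hκ hJ hJ2 a (by linarith)
    have hR := RR_pos (Nat.cast_nonneg _) hl hk hκ hJ hJ2 a (by linarith)
    have hd := dd_le (Nat.cast_nonneg _) hl hk hκ hJ hJ2 a (by linarith)
    have ha' : a + 1 ≤ k := by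
      have : ((a + 1 : ℕ) : ℝ) ≤ k := by push_cast; linarith
      exact_mod_cast this
    apply mul_right_cancel₀ hR.ne'
    rw [← h1, ih (by linarith), Finset.prod_range_succ, om]
    obtain ⟨b, rfl⟩ : ∃ b, k = b + (a + 1) := ⟨k - (a + 1), by omega⟩
    rw [show b + (a + 1) + l - (a + 1) = b + l by omega, show b + (a + 1) + l - a = b + l + 1 by omega]
    have := Nat.choose_mul_succ_eq (b + l) l
    rw [show b + l + 1 - l = b + 1 by omega] at this
    have h2 : (((b + l).choose l * (b + l + 1) : ℕ) : ℝ) =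
        (((b + l + 1).choose l * (b + 1) : ℕ) : ℝ) := by rw [this]
    push_cast at h2
    have h3 : (((b + l + 1).choose l : ℕ) : ℝ) = ((b + l).choose l : ℕ) * ((b : ℝ) + l + 1) / (b + 1) := by
      rw [eq_div_iff (by positivity), h2]
    unfold RR
    generalize dd ((b + (a + 1) : ℕ) : ℝ) l κ a = d at *
    rw [h3]
    push_cast
    rw [show (b : ℝ) + (a + 1) - a = b + 1 by ring]
    have : 1 - d ≠ 0 := by linarith
    field_simp
    ring

theorem prod_le_one' {k l κ N J : ℝ} (hl0 : 0 ≤ l) (hl : l ≤ N) (hk : k ≤ N) (hκ : N ^ 2 ≤ κ)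
    (hJ : 1 ≤ J) (hJ2 : 16 * k ≤ J ^ 2) (a : ℕ) (ha : a + J ≤ k + 1) :
    (∏ i ∈ range a, (1 - dd k l κ i)) ^ 2 ≤ 1 := by
  have h : ∀ i ∈ range a, 0 ≤ 1 - dd k l κ i ∧ 1 - dd k l κ i ≤ 1 := by
    intro i hi
    have : ((i + 1 : ℕ) : ℝ) ≤ a := by exact_mod_cast mem_range.1 hi
    push_cast at this
    have h1 := dd_le hl0 hl hk hκ hJ hJ2 i (by linarith)
    have h2 := (dd_bound hl0 hl hk hκ hJ hJ2 i (by linarith)).1
    constructor <;> linarith
  exact pow_le_one₀ (Finset.prod_nonneg fun i hi => (h i hi).1)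
    (Finset.prod_le_one (fun i hi => (h i hi).1) fun i hi => (h i hi).2)

theorem prod_ge_exp {k l κ N J : ℝ} (hl0 : 0 ≤ l) (hl : l ≤ N) (hk : k ≤ N) (hκ : N ^ 2 ≤ κ)
    (hJ : 1 ≤ J) (hJ2 : 16 * k ≤ J ^ 2) (a : ℕ) (ha : a + J ≤ k) :
    Real.exp (-(13 / 5 * (k / (k - a)))) ≤ (∏ i ∈ range a, (1 - dd k l κ i)) ^ 2 := by
  induction a with
  | zero =>
    simp only [Nat.cast_zero, zero_add] at ha
    simp only [range_zero, prod_empty, one_pow, Real.exp_le_one_iff, Nat.cast_zero, sub_zero]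
    have : 0 ≤ k / k := div_nonneg (by linarith) (by linarith)
    linarith
  | succ a ih =>
    have ha0 : (0 : ℝ) ≤ a := Nat.cast_nonneg a
    push_cast at ha ⊢
    have h1 := dd_le hl0 hl hk hκ hJ hJ2 a (by linarith)
    obtain ⟨h0, h2⟩ := dd_bound hl0 hl hk hκ hJ hJ2 a (by linarith)
    rw [Finset.prod_range_succ, mul_pow]
    generalize dd k l κ a = d at *
    have e1 : Real.exp (-(40 / 37 * d)) ≤ 1 - d := by
      rw [Real.exp_neg, inv_le_comm₀ (Real.exp_pos _) (by linarith)]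
      refine le_trans ?_ (Real.add_one_le_exp _)
      rw [inv_eq_one_div, div_le_iff₀ (by linarith)]
      nlinarith
    have e2 : Real.exp (-(80 / 37 * d)) ≤ (1 - d) ^ 2 := by
      calc Real.exp (-(80 / 37 * d)) = Real.exp (-(40 / 37 * d)) ^ 2 := by
            rw [← Real.exp_nat_mul]; congr 1; push_cast; ring
        _ ≤ _ := by gcongr
    have e3 : k / (k - a) + k / (k - a) ^ 2 ≤ k / (k - (a + 1)) := by
      obtain ⟨v, hv⟩ : ∃ v, v = k - (a + 1) := ⟨_, rfl⟩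
      rw [show k - a = v + 1 by linarith, ← hv]
      have hv0 : 0 < v := by linarith
      have : k / v = k / (v + 1) + k / (v * (v + 1)) := by field_simp
      rw [this]
      have : k / (v + 1) ^ 2 ≤ k / (v * (v + 1)) := by
        apply div_le_div_of_nonneg_left (by linarith) (by positivity); nlinarith
      linarith
    have hθ : 0 ≤ k / (k - a) ^ 2 := div_nonneg (by linarith) (sq_nonneg _)
    calc Real.exp (-(13 / 5 * (k / (k - (a + 1))))) ≤
        Real.exp (-(13 / 5 * (k / (k - a)))) * Real.exp (-(80 / 37 * d)) := by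
          rw [← Real.exp_add]; apply Real.exp_le_exp.2; linarith
      _ ≤ _ := mul_le_mul (ih (by linarith)) e2 (Real.exp_pos _).le (sq_nonneg _)

end Pool.Agent.Lib.MP_cb200a_pr
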